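import Pool.Agent.Lib.MP_d9bae3_nt.SG.GBase

/-!
# Module SRG-GRam: restriction to `H` is injective, inertia groups restrict

Plan.
* `resLH_apply`: for `x : H`, `resLH σ x` (embedded in `M`) is `σ (x)` (`AlgEquiv.restrictNormal_commutes`).
* `resLH_injective`: if `resLH σ = 1`, then `σ` fixes the image of `H`, and `L`, so it fixes `adjoin L (range) = ⊤`, and `σ = 1`
  (`IntermediateField.adjoin_le_iff` with `IntermediateField.fixedField`, or `IntermediateField.algHom_ext_of_eq_adjoin`, cf. SK/Kum.lean).
* `desc_ramified`: let `PM` be a prime of `𝓞 M` over `Q` with `1 ≠ σ ∈ PM.inertia Gal(M/L)`, `P = PM.under (𝓞 H)`, a prime over `Q.under (𝓞 F)` (`Ideal.under_under`).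
  For `x : 𝓞 H`, `(resLH σ) x - x` maps to `σ x - x ∈ PM`, so `resLH σ ∈ P.inertia Gal(H/F)`, and `resLH σ ≠ 1`.
* `comp_galois`: `M` is the compositum of two Galois extensions of `F`, so it is Galois: separable (characteristic 0), normal: the images of `L` and `H` in `M` as
  `IntermediateField F M` (`(IsScalarTower.toAlgHom F L M).fieldRange`) are normal (`AlgHom.normal_fieldRange`, or transfer by the `AlgEquiv` to the range), their supremum is `⊤`
  by `IsCompositum`, and `IntermediateField.normal_sup` gives `Normal F (⊤ : IntermediateField F M)`, `IntermediateField.topEquiv`/`Normal.of_algEquiv`.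
-/

namespace StarkR

open NumberField IsDedekindDomain
open scoped Pointwise

variable {F L H M : Type} [Field F] [NumberField F] [Field L] [NumberField L] [Field H] [NumberField H]
variable [Field M] [NumberField M] [Algebra F L] [Algebra F H] [Algebra F M] [Algebra L M] [Algebra H M]
variable [IsScalarTower F L M] [IsScalarTower F H M]

theorem resLH_apply [IsGalois F H] (σ : Gal(M/L)) (x : H) :
    algebraMap H M (resLH F L H M σ x) = σ (algebraMap H M x) := by
  exact AlgEquiv.restrictNormal_commutes (AlgEquiv.restrictScalarsHom F σ) H x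

theorem resLH_injective [IsGalois F H] (hc : IsCompositum L H M) : Function.Injective (resLH F L H M) := by
  rw [injective_iff_map_eq_one]
  intro σ hσ
  have h1 : ∀ x : H, σ (algebraMap H M x) = algebraMap H M x := by
    intro x
    rw [← resLH_apply (F := F), hσ, AlgEquiv.one_apply]
  have h2 : IntermediateField.adjoin L (Set.range (algebraMap H M)) ≤
      IntermediateField.fixedField (Subgroup.zpowers σ) := by
    rw [IntermediateField.adjoin_le_iff]
    rintro _ ⟨x, rfl⟩
    rw [SetLike.mem_coe, IntermediateField.mem_fixedField_iff]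
    intro f hf
    obtain ⟨k, rfl⟩ := Subgroup.mem_zpowers_iff.mp hf
    have h3 : σ ∈ MulAction.stabilizer Gal(M/L) (algebraMap H M x) := h1 x
    exact Subgroup.zpow_mem _ h3 k
  rw [hc, top_le_iff] at h2
  ext x
  have h3 : x ∈ IntermediateField.fixedField (Subgroup.zpowers σ) := by
    rw [h2]; exact IntermediateField.mem_top
  rw [IntermediateField.mem_fixedField_iff] at h3
  exact h3 σ (Subgroup.mem_zpowers σ)

theorem desc_ramified [IsGalois F H] (hc : IsCompositum L H M) {Q : Prm L} (h : Ramified M Q) :
    Ramified H (Q.under (𝓞 F)) := by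
  obtain ⟨PM, hPM, hover, hin⟩ := h
  obtain ⟨σ, hσ, hσ1⟩ : ∃ σ, σ ∈ PM.inertia Gal(M/L) ∧ σ ≠ 1 := by
    obtain ⟨a, ha⟩ := Subgroup.ne_bot_iff_exists_ne_one.mp hin
    exact ⟨a.1, a.2, fun h => ha (Subtype.ext h)⟩
  refine ⟨PM.under (𝓞 H), inferInstance, ?_, ?_⟩
  · constructor
    change Q.asIdeal.under (𝓞 F) = (PM.under (𝓞 H)).under (𝓞 F)
    rw [Ideal.under_under, hover.over, Ideal.under_under]
  · intro hbot
    have h1 : resLH F L H M σ ∈ (PM.under (𝓞 H)).inertia Gal(H/F) := by
      intro x
      change algebraMap (𝓞 H) (𝓞 M) (resLH F L H M σ • x - x) ∈ PM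
      have h2 : algebraMap (𝓞 H) (𝓞 M) (resLH F L H M σ • x - x) =
          σ • (algebraMap (𝓞 H) (𝓞 M) x) - algebraMap (𝓞 H) (𝓞 M) x := by
        rw [map_sub]
        congr 1
        apply RingOfIntegers.ext
        exact resLH_apply (F := F) σ (x : H)
      rw [h2]
      exact hσ _
    rw [hbot, Subgroup.mem_bot] at h1
    exact hσ1 (resLH_injective (F := F) hc (h1.trans (map_one _).symm))

theorem comp_galois (F L H M : Type) [Field F] [NumberField F] [Field L] [NumberField L] [Field H] [NumberField H]
    [Field M] [NumberField M] [Algebra F L] [Algebra F H] [Algebra F M] [Algebra L M] [Algebra H M]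
    [IsScalarTower F L M] [IsScalarTower F H M] [IsGalois F L] [IsGalois F H] (hc : IsCompositum L H M) : IsGalois F M := by
  let EL : IntermediateField F M := (IsScalarTower.toAlgHom F L M).fieldRange
  let EH : IntermediateField F M := (IsScalarTower.toAlgHom F H M).fieldRange
  have hL : Normal F EL := Normal.of_algEquiv (AlgEquiv.ofInjectiveField (IsScalarTower.toAlgHom F L M))
  have hH : Normal F EH := Normal.of_algEquiv (AlgEquiv.ofInjectiveField (IsScalarTower.toAlgHom F H M))
  have hs : Normal F (EL ⊔ EH : IntermediateField F M) := inferInstance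
  have ht : (EL ⊔ EH : IntermediateField F M) = ⊤ := by
    rw [eq_top_iff]
    intro x _
    have hx : x ∈ (IntermediateField.adjoin L (Set.range (algebraMap H M))).toSubfield := by
      rw [hc]
      exact IntermediateField.mem_top (F := L)
    rw [IntermediateField.adjoin_toSubfield] at hx
    have hle : Subfield.closure (Set.range (algebraMap L M) ∪ Set.range (algebraMap H M)) ≤
        (EL ⊔ EH : IntermediateField F M).toSubfield := by
      rw [Subfield.closure_le]
      rintro _ (⟨y, rfl⟩ | ⟨y, rfl⟩)
      · exact (le_sup_left : EL ≤ EL ⊔ EH) ⟨y, rfl⟩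
      · exact (le_sup_right : EH ≤ EL ⊔ EH) ⟨y, rfl⟩
    exact hle hx
  rw [ht] at hs
  have hn : Normal F M := Normal.of_algEquiv (IntermediateField.topEquiv (F := F) (E := M))
  exact { to_normal := hn }

end StarkR
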