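import Pool.Agent.Lib.MP_d9bae3_nt.SG.GBase

/-!
# Module SRG-Stab: primes of degree one not dividing `e` have a trivial decomposition group in `F(ζ)/F`

Plan.  Let `σ Q = Q`, `σ ∈ Gal(L/F)`, `N(Q) = p` a prime number.  The ring `𝓞 L ⧸ Q` has `p` elements, so every element of it is the class of a natural number
(`ZMod.ringEquiv`-like, or: `Nat.card (𝓞 L ⧸ Q) = p`, the additive subgroup generated by `1` is everything); hence `x - k ∈ Q` for some
`k : ℕ`, `σ x - k ∈ σ Q = Q` and `σ x - x ∈ Q` for all `x : 𝓞 L`.  Take `x = ζ` (`hζ.toInteger` or `⟨ζ, hζ.isIntegral he⟩`): `σ ζ = ζ^j`; if `σ ζ ≠ ζ` then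
`ω = σ(ζ)/ζ ≠ 1` is an `e`-th root of unity with `ω - 1 ∈ Q` (`ζ` is a unit), so `0 = ∑_{k<e} ω^k ≡ e` modulo `Q`, and `e ∈ Q`, a contradiction (the same argument is
in `Pool/Agent/Lib/MP_d9bae3_nt/SK/Dec.lean`).  So `σ ζ = ζ` and `σ = 1`
(`hζ.autToPow_injective F` with `autToPow_spec`, or `(hζ.powerBasis F).algHom_ext`, see Mathlib/NumberTheory/Cyclotomic/Gal.lean).
-/

namespace StarkR

open NumberField IsDedekindDomain
open scoped Pointwise

variable {F L : Type} [Field F] [NumberField F] [Field L] [NumberField L] [Algebra F L]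

private theorem exists_int_sub_mem (Q : Prm L) (hQ : (nm Q).Prime) (x : 𝓞 L) :
    ∃ k : ℤ, x - (k : 𝓞 L) ∈ Q.asIdeal := by
  have hfact : Fact (nm Q).Prime := ⟨hQ⟩
  have hcard : Nat.card (𝓞 L ⧸ Q.asIdeal) = nm Q := by
    rw [nm, Ideal.absNorm_apply, Submodule.cardQuot_apply]
  have hne : (1 : 𝓞 L ⧸ Q.asIdeal) ≠ 0 := by
    intro h
    have h1 : Ideal.Quotient.mk Q.asIdeal 1 = 0 := by rw [map_one]; exact h
    rw [Ideal.Quotient.eq_zero_iff_mem] at h1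
    exact Q.isPrime.ne_top ((Ideal.eq_top_iff_one _).2 h1)
  have h1 : Ideal.Quotient.mk Q.asIdeal x ∈ AddSubgroup.zmultiples (1 : 𝓞 L ⧸ Q.asIdeal) :=
    mem_zmultiples_of_prime_card hcard hne
  obtain ⟨k, hk⟩ := AddSubgroup.mem_zmultiples_iff.1 h1
  refine ⟨k, ?_⟩
  rw [← Ideal.Quotient.eq, ← hk, map_intCast, zsmul_one]

theorem good_of_prime {e : ℕ} (he : 0 < e) {ζ : L} (hζ : IsPrimitiveRoot ζ e) [IsCyclotomicExtension {e} F L]
    (Q : Prm L) (hQ : (nm Q).Prime) (heQ : (e : 𝓞 L) ∉ Q.asIdeal) : GoodPrm F e Q := by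
  have hne : NeZero e := ⟨he.ne'⟩
  refine ⟨heQ, (Subgroup.eq_bot_iff_forall _).2 fun σ hσ => ?_⟩
  have hinj : Function.Injective (algebraMap (𝓞 L) L) := FaithfulSMul.algebraMap_injective _ _
  have hsm : ∀ (τ : Gal(L/F)) (z : 𝓞 L), algebraMap (𝓞 L) L (τ • z) = τ (algebraMap (𝓞 L) L z) := by
    intro τ z
    rw [algebraMap.smul' τ z L]
    rfl
  have hσQ : ∀ z ∈ Q.asIdeal, σ • z ∈ Q.asIdeal := by
    intro z hz
    have h3 : σ • Q.asIdeal = Q.asIdeal := MulAction.mem_stabilizer_iff.1 hσ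
    rw [← h3]
    exact Ideal.smul_mem_pointwise_smul _ _ _ hz
  have hint : ∀ k : ℤ, σ • (k : 𝓞 L) = (k : 𝓞 L) := by
    intro k
    apply hinj
    rw [hsm, map_intCast, map_intCast]
  have hdiff : ∀ x : 𝓞 L, σ • x - x ∈ Q.asIdeal := by
    intro x
    obtain ⟨k, hk⟩ := exists_int_sub_mem Q hQ x
    have h1 := hσQ _ hk
    rw [smul_sub, hint] at h1
    have h2 := Q.asIdeal.sub_mem h1 hk
    have h3 : σ • x - (k : 𝓞 L) - (x - (k : 𝓞 L)) = σ • x - x := by ring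
    rwa [h3] at h2
  obtain ⟨Z, hZ⟩ : ∃ Z : 𝓞 L, algebraMap (𝓞 L) L Z = ζ :=
    (IsIntegralClosure.isIntegral_iff (A := 𝓞 L)).1 (hζ.isIntegral he)
  have hZe : Z ^ e = 1 := by
    apply hinj
    rw [map_pow, hZ, map_one, hζ.pow_eq_one]
  have hσZe : (σ • Z) ^ e = 1 := by
    rw [← smul_pow', hZe, smul_one]
  set ω : 𝓞 L := (σ • Z) * Z ^ (e - 1) with hω
  have hZZ : Z * Z ^ (e - 1) = 1 := by
    rw [← pow_succ', Nat.sub_add_cancel he, hZe]
  have hωe : ω ^ e = 1 := by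
    rw [hω, mul_pow, hσZe, ← pow_mul, mul_comm (e - 1) e, pow_mul, hZe, one_pow, one_mul]
  have hω1 : ω - 1 ∈ Q.asIdeal := by
    have h1 : ω - 1 = (σ • Z - Z) * Z ^ (e - 1) := by
      rw [sub_mul, hZZ]
    rw [h1]
    exact Q.asIdeal.mul_mem_right _ (hdiff Z)
  have hωeq : ω = 1 := by
    by_contra hω2
    have h1 : (∑ k ∈ Finset.range e, ω ^ k) * (ω - 1) = 0 := by
      rw [geom_sum_mul, hωe, sub_self]
    have h2 : ∑ k ∈ Finset.range e, ω ^ k = 0 := by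
      rcases mul_eq_zero.1 h1 with h | h
      · exact h
      · exact absurd (sub_eq_zero.1 h) hω2
    apply heQ
    rw [← Ideal.Quotient.eq_zero_iff_mem]
    have h3 : Ideal.Quotient.mk Q.asIdeal ω = 1 := by
      rw [← map_one (Ideal.Quotient.mk Q.asIdeal), Ideal.Quotient.eq]
      exact hω1
    have h4 := congrArg (Ideal.Quotient.mk Q.asIdeal) h2
    rw [map_sum, map_zero] at h4
    rw [map_natCast, ← h4]
    simp [h3]
  have hσZ : σ • Z = Z := by
    calc σ • Z = (σ • Z) * (Z * Z ^ (e - 1)) := by rw [hZZ, mul_one]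
      _ = Z * ω := by rw [hω]; ring
      _ = Z := by rw [hωeq, mul_one]
  have hσζ : σ ζ = ζ := by
    rw [← hZ, ← hsm, hσZ]
  have hfin : (σ : L →ₐ[F] L) = ((1 : Gal(L/F)) : L →ₐ[F] L) := by
    apply (hζ.powerBasis F).algHom_ext
    rw [hζ.powerBasis_gen F]
    exact hσζ
  exact AlgEquiv.coe_toAlgHom_injective hfin

end StarkR
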