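import Pool.Agent.Lib.MP_d9bae3_nt.SG.NPr
import Pool.Agent.Lib.MP_d9bae3_nt.SG.Stab
import Pool.Agent.Lib.MP_d9bae3_nt.SK.PrimeSum

/-!
# Module SRG-GSum: many good primes, no two of them conjugate

Plan.  Let `B` = the primes dividing `e` (finite, see `cheb_finite` in SK/Cheb.lean: `Ideal.finite_factors`), `C` the bound of `not_prime_sum L` (use `max C 0`), `g = #Gal(L/F)`.
`prime_sum L B (g * M + C)` gives a finite set `A0`; let `A1` be the `Q ∈ A0` with prime norm: `∑_{Q ∈ A1} 1/N(Q) ≥ g M`, all `Q ∈ A1` are good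
(`good_of_prime`).  Choose one prime in each conjugacy class: let `r : Prm L → Prm L` be a function with `r Q` conjugate to `Q` and constant on the classes
(quotient by the orbit relation of `Gal(L/F)` on ideals, `Quotient.out`; restrict to classes meeting `A1`, or define `A` as a subset of `A1` maximal without two conjugate elements, or
by induction over `A1`), `A = A1.image r`, where `r Q ∈ A1` (choose the representative in `A1`).  Conjugate primes have the same norm
(`Ideal.absNorm` of `σ • Q`: the quotient rings are isomorphic; `Ideal.quotientEquiv`), and each class has at most `g` elements, so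
`∑_{Q ∈ A1} 1/N(Q) ≤ g ∑_{Q ∈ A} 1/N(Q)`.
-/

namespace StarkR

open NumberField IsDedekindDomain
open scoped Pointwise

variable {F L : Type} [Field F] [NumberField F] [Field L] [NumberField L] [Algebra F L]

omit [NumberField F] in
private theorem gs_absNorm (σ : Gal(L/F)) (I : Ideal (𝓞 L)) : Ideal.absNorm (σ • I) = Ideal.absNorm I := by
  rw [Ideal.absNorm_apply, Ideal.absNorm_apply, Submodule.cardQuot_apply, Submodule.cardQuot_apply]
  refine Nat.card_congr (Ideal.quotientEquiv _ _ (MulSemiringAction.toRingEquiv _ (𝓞 L) σ⁻¹) ?_).toEquiv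
  conv_lhs => rw [← inv_smul_smul σ I]
  rfl

private theorem gs_finite {e : ℕ} (he : 0 < e) :
    {q : Prm L | (e : 𝓞 L) ∈ q.asIdeal}.Finite := by
  have h0 : Ideal.span {(e : 𝓞 L)} ≠ 0 := by
    rw [Ne, Ideal.zero_eq_bot, Ideal.span_singleton_eq_bot]
    exact_mod_cast he.ne'
  refine (Ideal.finite_factors h0).subset fun q hq => ?_
  exact Ideal.dvd_iff_le.2 ((Ideal.span_singleton_le_iff_mem _).2 hq)

private theorem gs_class (g : ℕ) (hg : g = Nat.card Gal(L/F)) [Finite Gal(L/F)] :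
    ∀ (N : ℕ) (A1 : Finset (Prm L)), A1.card ≤ N → ∃ A ⊆ A1,
      (∀ Q ∈ A, ∀ Q' ∈ A, ∀ τ : Gal(L/F), τ • Q.asIdeal = Q'.asIdeal → Q = Q') ∧
      ∑ Q ∈ A1, 1 / (nm Q : ℝ) ≤ g * ∑ Q ∈ A, 1 / (nm Q : ℝ) := by
  classical
  intro N
  induction N with
  | zero =>
    intro A1 h
    have h0 : A1 = ∅ := Finset.card_eq_zero.1 (Nat.le_zero.1 h)
    subst h0
    exact ⟨∅, le_rfl, by simp, by simp⟩
  | succ N ih =>
    intro A1 h
    rcases A1.eq_empty_or_nonempty with rfl | ⟨Q, hQ⟩
    · exact ⟨∅, le_rfl, by simp, by simp⟩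
    set p : Prm L → Prop := fun Q' => ∃ τ : Gal(L/F), τ • Q.asIdeal = Q'.asIdeal with hp
    have hpQ : p Q := ⟨1, one_smul _ _⟩
    have hcard : (A1.filter fun Q' => ¬ p Q').card ≤ N := by
      have h1 : (A1.filter fun Q' => ¬ p Q') ⊂ A1 :=
        Finset.filter_ssubset.2 ⟨Q, hQ, fun h2 => h2 hpQ⟩
      have := Finset.card_lt_card h1
      omega
    obtain ⟨A, hA1, hA2, hA3⟩ := ih _ hcard
    have hQA : Q ∉ A := fun h1 => (Finset.mem_filter.1 (hA1 h1)).2 hpQ
    refine ⟨insert Q A, ?_, ?_, ?_⟩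
    · intro Q' hQ'
      rcases Finset.mem_insert.1 hQ' with rfl | h1
      · exact hQ
      · exact (Finset.mem_filter.1 (hA1 h1)).1
    · intro Q1 h1 Q2 h2 τ hτ
      rcases Finset.mem_insert.1 h1 with rfl | h1'
      · rcases Finset.mem_insert.1 h2 with rfl | h2'
        · rfl
        · exact absurd ⟨τ, hτ⟩ (Finset.mem_filter.1 (hA1 h2')).2
      · rcases Finset.mem_insert.1 h2 with rfl | h2'
        · exact absurd ⟨τ⁻¹, by rw [← hτ, inv_smul_smul]⟩ (Finset.mem_filter.1 (hA1 h1')).2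
        · exact hA2 Q1 h1' Q2 h2' τ hτ
    · rw [← Finset.sum_filter_add_sum_filter_not A1 p, Finset.sum_insert hQA, mul_add]
      refine add_le_add ?_ hA3
      have h1 : ∀ Q' ∈ A1.filter p, 1 / (nm Q' : ℝ) = 1 / (nm Q : ℝ) := by
        intro Q' hQ'
        obtain ⟨τ, hτ⟩ := (Finset.mem_filter.1 hQ').2
        unfold nm
        rw [← hτ, gs_absNorm]
      rw [Finset.sum_congr rfl h1, Finset.sum_const, nsmul_eq_mul]
      refine mul_le_mul_of_nonneg_right ?_ (by positivity)
      have h2 : (A1.filter p).card ≤ g := by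
        have hex : ∀ Q' : {Q' // Q' ∈ A1.filter p}, ∃ τ : Gal(L/F), τ • Q.asIdeal = Q'.1.asIdeal :=
          fun Q' => (Finset.mem_filter.1 Q'.2).2
        choose f hf using hex
        have hinj : Function.Injective f := by
          intro x y hxy
          have h3 := hf x
          rw [hxy, hf y] at h3
          exact Subtype.ext (HeightOneSpectrum.ext h3.symm)
        have h4 := Nat.card_le_card_of_injective f hinj
        have h5 : Nat.card {Q' // Q' ∈ A1.filter p} = (A1.filter p).card := by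
          rw [Nat.card_eq_fintype_card, Fintype.card_coe]
        rw [hg]
        exact h5 ▸ h4
      exact_mod_cast h2

theorem good_sum {e : ℕ} (he : 0 < e) {ζ : L} (hζ : IsPrimitiveRoot ζ e) [IsCyclotomicExtension {e} F L] (M : ℝ) :
    ∃ A : Finset (Prm L), (∀ Q ∈ A, GoodPrm F e Q) ∧
      (∀ Q ∈ A, ∀ Q' ∈ A, ∀ τ : Gal(L/F), τ • Q.asIdeal = Q'.asIdeal → Q = Q') ∧
      M ≤ ∑ Q ∈ A, 1 / (nm Q : ℝ) := by
  classical
  have : FiniteDimensional F L := IsCyclotomicExtension.finiteDimensional {e} F L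
  obtain ⟨C, hC⟩ := not_prime_sum L
  set g : ℕ := Nat.card Gal(L/F) with hg
  have hg0 : 0 < g := Nat.card_pos
  obtain ⟨A0, hA0, hs⟩ := prime_sum L {q : Prm L | (e : 𝓞 L) ∈ q.asIdeal} (gs_finite he) (g * M + C)
  obtain ⟨A, hA1, hA2, hA3⟩ := gs_class (F := F) g hg _ (A0.filter fun Q => (nm Q).Prime) le_rfl
  refine ⟨A, fun Q hQ => ?_, hA2, ?_⟩
  · have h1 := Finset.mem_filter.1 (hA1 hQ)
    exact good_of_prime he hζ Q h1.2 (hA0 Q h1.1)
  · have h1 := hC (A0.filter fun Q => ¬ (nm Q).Prime) fun Q hQ => (Finset.mem_filter.1 hQ).2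
    rw [← Finset.sum_filter_add_sum_filter_not A0 (fun Q => (nm Q).Prime)] at hs
    have h2 : (g : ℝ) * M ≤ g * ∑ Q ∈ A, 1 / (nm Q : ℝ) := by linarith
    have h3 : (0 : ℝ) < g := by exact_mod_cast hg0
    exact le_of_mul_le_mul_left h2 h3

end StarkR
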