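import Pool.Agent.Lib.MP_d9bae3_nt.SG.GBase

/-!
# Module SRG-GDec: decomposition groups, from `M/L` down to `H/F`

Let `Q` be a prime of `L` whose decomposition group in `L/F` is trivial.
Plan.  Let `q = Q.under (𝓞 F)`.  Choose a prime `PM` of `𝓞 M` over `Q` (exists: `Ideal.exists_ideal_over_prime_of_isIntegral...`, cf. the existence of primes
above in SK/Frob.lean, SK/Ram.lean), `P0 = PM.under (𝓞 H)`, a prime over `q`.
(1) Let `σ ∈ Gal(H/F)`, `σ P0 = P0`.  Choose a lift `σ1 ∈ Gal(M/F)` of `σ` (`AlgEquiv.restrictNormalHom_surjective`).  `σ1 PM` lies over `σ P0 = P0`, so there is `g ∈ Gal(M/H)` with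
`g σ1 PM = PM` (`M/H` is Galois, transitivity: `Algebra.IsInvariant.exists_smul_of_under_eq`); `σ2 = g σ1 ∈ Gal(M/F)` is also a lift of `σ`.  `σ2` restricted to `L` fixes `PM.under (𝓞 L) = Q`, so it is `1`
(hypothesis `hst`), and `σ2` comes from `τ ∈ Gal(M/L)` (`AlgEquiv.restrictScalars`/ build it from `σ2` with commutes), `τ PM = PM`, `resLH τ = σ`.  By `hχ`, `χ σ = 1`.
(2) Any prime `P` of `𝓞 H` over `q` is `ρ P0` with `ρ ∈ Gal(H/F)` (transitivity), and `σ P = P` gives `ρ⁻¹ σ ρ P0 = P0`, `χ (ρ⁻¹ σ ρ) = χ σ`.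
Restriction to a normal subextension and the action on the rings of integers: `AlgEquiv.restrictNormal_commutes`; for `x : 𝓞 H`, the image of `σ • x` in `M` is `σ1` of the image of `x`.
-/

namespace StarkR

open NumberField IsDedekindDomain
open scoped Pointwise

variable {F L H M : Type} [Field F] [NumberField F] [Field L] [NumberField L] [Field H] [NumberField H]
variable [Field M] [NumberField M] [Algebra F L] [Algebra F H] [Algebra F M] [Algebra L M] [Algebra H M]
variable [IsScalarTower F L M] [IsScalarTower F H M]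

/-- the action on the ring of integers of a normal subextension -/
private theorem res_smul [Normal F H] (σ : Gal(M/F)) (x : 𝓞 H) :
    σ • (algebraMap (𝓞 H) (𝓞 M) x) = algebraMap (𝓞 H) (𝓞 M) (AlgEquiv.restrictNormalHom H σ • x) := by
  have hinj : Function.Injective (algebraMap (𝓞 M) M) := FaithfulSMul.algebraMap_injective _ _
  have hmap : ∀ z : 𝓞 H, algebraMap (𝓞 M) M (algebraMap (𝓞 H) (𝓞 M) z) = algebraMap H M (algebraMap (𝓞 H) H z) := by
    intro z
    rw [← IsScalarTower.algebraMap_apply (𝓞 H) (𝓞 M) M, IsScalarTower.algebraMap_apply (𝓞 H) H M]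
  apply hinj
  rw [algebraMap.smul' σ _ M, hmap, hmap, algebraMap.smul' _ x H]
  exact (AlgEquiv.restrictNormal_commutes σ H _).symm

/-- the primes below -/
private theorem res_under [Normal F H] (σ : Gal(M/F)) (P : Ideal (𝓞 M)) :
    (σ • P).under (𝓞 H) = AlgEquiv.restrictNormalHom H σ • P.under (𝓞 H) := by
  ext x
  rw [Ideal.mem_pointwise_smul_iff_inv_smul_mem, Ideal.under_def, Ideal.under_def, Ideal.mem_comap, Ideal.mem_comap,
    Ideal.mem_pointwise_smul_iff_inv_smul_mem, ← map_inv, ← res_smul]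

/-- restriction of scalars and the action on the integers -/
private theorem scal_smul {K : Type} [Field K] [NumberField K] [Algebra F K] [Algebra K M] [IsScalarTower F K M]
    (g : Gal(M/K)) (x : 𝓞 M) : (AlgEquiv.restrictScalarsHom F g : Gal(M/F)) • x = g • x := by
  have hinj : Function.Injective (algebraMap (𝓞 M) M) := FaithfulSMul.algebraMap_injective _ _
  apply hinj
  rw [algebraMap.smul' _ x M, algebraMap.smul' _ x M]
  rfl

/-- restriction of scalars and the action on the ideals -/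
private theorem scal_smul_ideal {K : Type} [Field K] [NumberField K] [Algebra F K] [Algebra K M] [IsScalarTower F K M]
    (g : Gal(M/K)) (P : Ideal (𝓞 M)) : (AlgEquiv.restrictScalarsHom F g : Gal(M/F)) • P = g • P := by
  ext x
  rw [Ideal.mem_pointwise_smul_iff_inv_smul_mem, Ideal.mem_pointwise_smul_iff_inv_smul_mem, ← map_inv, scal_smul]

theorem desc_trivial [IsGalois F L] [IsGalois F H] [IsGalois F M] {Q : Prm L}
    (hst : MulAction.stabilizer Gal(L/F) Q.asIdeal = ⊥) (χ : Gal(H/F) →* ℂˣ)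
    (hχ : ∀ P : Ideal (𝓞 M), P.IsPrime → P.LiesOver Q.asIdeal → ∀ σ ∈ MulAction.stabilizer Gal(M/L) P,
      χ (resLH F L H M σ) = 1) : TrivialAt χ (Q.under (𝓞 F)) := by
  classical
  have : IsGalois H M := IsGalois.tower_top_of_isGalois F H M
  intro P hP hPq σ hσ
  -- a prime of `M` over `P`
  obtain ⟨P', hP', hP'P⟩ : ∃ P' : Ideal (𝓞 M), P'.IsPrime ∧ P'.LiesOver P := by
    obtain ⟨P', h1, h2⟩ := Ideal.exists_ideal_over_prime_of_isIntegral_of_isDomain (S := 𝓞 M) P (by
      rw [(RingHom.injective_iff_ker_eq_bot _).1 (FaithfulSMul.algebraMap_injective (𝓞 H) (𝓞 M))]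
      exact bot_le)
    exact ⟨P', h1, ⟨h2.symm⟩⟩
  -- a prime of `M` over `Q`
  have : Q.asIdeal.IsPrime := Q.isPrime
  obtain ⟨PM, hPM, hPMQ⟩ : ∃ P' : Ideal (𝓞 M), P'.IsPrime ∧ P'.LiesOver Q.asIdeal := by
    obtain ⟨P', h1, h2⟩ := Ideal.exists_ideal_over_prime_of_isIntegral_of_isDomain (S := 𝓞 M) Q.asIdeal (by
      rw [(RingHom.injective_iff_ker_eq_bot _).1 (FaithfulSMul.algebraMap_injective (𝓞 L) (𝓞 M))]
      exact bot_le)
    exact ⟨P', h1, ⟨h2.symm⟩⟩
  -- step 1: a lift of `σ` fixing `P'`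
  obtain ⟨σ1, hσ1⟩ := AlgEquiv.restrictNormalHom_surjective (F := F) (K₁ := H) M σ
  have hunder : (σ1 • P').under (𝓞 H) = P'.under (𝓞 H) := by
    rw [res_under, hσ1, ← hP'P.over]
    exact MulAction.mem_stabilizer_iff.1 hσ
  have := hP'
  have : (σ1 • P').IsPrime := hP'.smul σ1
  obtain ⟨g, hg⟩ := Algebra.IsInvariant.exists_smul_of_under_eq (𝓞 H) (𝓞 M) Gal(M/H) (σ1 • P') P' hunder
  set σ2 : Gal(M/F) := AlgEquiv.restrictScalarsHom F g * σ1 with hσ2
  have hres2 : AlgEquiv.restrictNormalHom H σ2 = σ := by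
    have h1 : AlgEquiv.restrictNormalHom H (AlgEquiv.restrictScalarsHom F g : Gal(M/F)) = 1 := by
      ext x
      apply FaithfulSMul.algebraMap_injective H M
      have h2 := AlgEquiv.restrictNormal_commutes (AlgEquiv.restrictScalarsHom F g : Gal(M/F)) H x
      refine h2.trans ?_
      exact g.commutes x
    rw [hσ2, map_mul, h1, one_mul, hσ1]
  have hfix2 : σ2 • P' = P' := by
    rw [hσ2, mul_smul, scal_smul_ideal]
    exact hg.symm
  -- step 2: conjugation to `PM`
  have hPMF : PM.under (𝓞 F) = P'.under (𝓞 F) := by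
    have h1 : P'.under (𝓞 F) = (Q.under (𝓞 F)).asIdeal := by
      rw [hPq.over, hP'P.over, Ideal.under_under]
    have h2 : PM.under (𝓞 F) = (Q.under (𝓞 F)).asIdeal := by
      rw [HeightOneSpectrum.under_asIdeal, hPMQ.over, Ideal.under_under]
    rw [h1, h2]
  have := hPM
  obtain ⟨h, hh⟩ := Algebra.IsInvariant.exists_smul_of_under_eq (𝓞 F) (𝓞 M) Gal(M/F) PM P' hPMF
  set σ3 : Gal(M/F) := h⁻¹ * σ2 * h with hσ3
  have hfix3 : σ3 • PM = PM := by
    rw [hσ3, mul_smul, mul_smul, ← hh, hfix2, hh, inv_smul_smul]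
  have hχ3 : χ (AlgEquiv.restrictNormalHom H σ3) = χ σ := by
    have h1 : AlgEquiv.restrictNormalHom H σ3 =
        (AlgEquiv.restrictNormalHom H h)⁻¹ * σ * AlgEquiv.restrictNormalHom H h := by
      rw [hσ3, map_mul, map_mul, map_inv, hres2]
    rw [h1, map_mul, map_mul, map_inv, mul_comm (χ _)⁻¹ _, mul_assoc, inv_mul_cancel, mul_one]
  -- step 3: `σ3` is trivial on `L`
  have hL : AlgEquiv.restrictNormalHom L σ3 = 1 := by
    have h1 : AlgEquiv.restrictNormalHom L σ3 ∈ MulAction.stabilizer Gal(L/F) Q.asIdeal := by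
      rw [MulAction.mem_stabilizer_iff, hPMQ.over, ← res_under, hfix3]
    rw [hst] at h1
    exact Subgroup.mem_bot.1 h1
  have hcomm : ∀ x : L, σ3 (algebraMap L M x) = algebraMap L M x := by
    intro x
    have h1 := AlgEquiv.restrictNormal_commutes σ3 L x
    rw [← h1]
    have h2 : σ3.restrictNormal L = 1 := hL
    rw [h2]
    rfl
  let τ : Gal(M/L) := AlgEquiv.ofRingEquiv (f := σ3.toRingEquiv) hcomm
  have hτ : (AlgEquiv.restrictScalarsHom F τ : Gal(M/F)) = σ3 := by
    ext x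
    rfl
  have hτP : τ ∈ MulAction.stabilizer Gal(M/L) PM := by
    rw [MulAction.mem_stabilizer_iff, ← scal_smul_ideal (F := F), hτ, hfix3]
  have hfin := hχ PM hPM hPMQ τ hτP
  rw [← hχ3, ← hfin, ← hτ]
  rfl

end StarkR
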