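import Pool.Agent.Lib.MP_d9bae3_nt.SG.GBase

/-!
# Module SRG-CHil: Kummer generators

Plan.  For each `i`, `σ ↦ ζ ^ ((e / n_i) (κ σ)_i)` is a homomorphism from `Gal(M/L)` to the roots of unity in `L` (`ζ ^ (e / n_i)` is a primitive `n_i`-th root of unity and `(κ (σ τ))_i = (κ σ)_i + (κ τ)_i` in `ℤ/n_i`), so it is a 1-cocycle of
`Gal(M/L)` with values in `Mˣ`, and Hilbert 90 (`groupCohomology.isMulCoboundary₁_of_isMulCocycle₁_of_aut_to_units`, in Mathlib/RepresentationTheory/Homological/GroupCohomology/Hilbert90.lean) gives `α_i ∈ Mˣ` with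
`σ(α_i) = ζ^(...) α_i`.  If `σ` fixes all `α_i` then `(κ σ)_i = 0` for all `i`, so `κ σ = 1` and `σ = 1`; hence the field `adjoin L (range α)` has a trivial fixing subgroup and is `⊤` (Galois theory for `M/L`).
-/

namespace StarkR

open NumberField IsDedekindDomain

variable {L M : Type} [Field L] [NumberField L] [Field M] [NumberField M] [Algebra L M]
variable {m : ℕ} {n : Fin m → ℕ} [∀ i, NeZero (n i)]

omit [NumberField L] in
private theorem CHil_add {e k : ℕ} [NeZero k] {ζ : L} (hζ : ζ ^ e = 1) (hk : k ∣ e) (a b : ZMod k) :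
    ζ ^ ((e / k) * (a + b).val) = ζ ^ ((e / k) * a.val) * ζ ^ ((e / k) * b.val) := by
  have h1 : (ζ ^ (e / k)) ^ k = 1 := by rw [← pow_mul, Nat.div_mul_cancel hk, hζ]
  rw [ZMod.val_add, pow_mul, pow_mul, pow_mul, ← pow_add, pow_eq_pow_mod (a.val + b.val) h1]

omit [NumberField L] in
private theorem CHil_zero {e k : ℕ} [NeZero k] (he : 0 < e) {ζ : L} (hζ : IsPrimitiveRoot ζ e)
    (hk : k ∣ e) (a : ZMod k) (h : ζ ^ ((e / k) * a.val) = 1) : a = 0 := by
  have h1 : e ∣ (e / k) * a.val := (hζ.pow_eq_one_iff_dvd _).1 h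
  obtain ⟨c, hc⟩ := hk
  have hk0 : 0 < k := Nat.pos_of_ne_zero (NeZero.ne k)
  have hc0 : 0 < c := by
    rcases Nat.eq_zero_or_pos c with h | h
    · subst h; simp at hc; omega
    · exact h
  have h2 : e / k = c := by rw [hc]; exact Nat.mul_div_cancel_left c hk0
  rw [h2, hc, mul_comm k c] at h1
  have h3 : k ∣ a.val := Nat.dvd_of_mul_dvd_mul_left hc0 h1
  have h4 : a.val = 0 := Nat.eq_zero_of_dvd_of_lt h3 (ZMod.val_lt a)
  exact (ZMod.val_eq_zero a).1 h4

private theorem CHil_one [IsGalois L M] {e k : ℕ} [NeZero k] {ζ : L} (he : 0 < e) (hζ : IsPrimitiveRoot ζ e)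
    (hk : k ∣ e) (φ : Gal(M/L) → ZMod k) (hφ : ∀ σ τ, φ (σ * τ) = φ σ + φ τ) :
    ∃ x : M, x ≠ 0 ∧ ∀ σ : Gal(M/L), σ x = algebraMap L M (ζ ^ ((e / k) * (φ σ).val)) * x := by
  have hζ0 : ζ ≠ 0 := hζ.ne_zero he.ne'
  have hne : ∀ σ : Gal(M/L), algebraMap L M (ζ ^ ((e / k) * (φ σ).val)) ≠ 0 := fun σ =>
    (map_ne_zero _).2 (pow_ne_zero _ hζ0)
  let f : Gal(M/L) → Mˣ := fun σ => Units.mk0 _ (hne σ)
  have hf : groupCohomology.IsMulCocycle₁ f := by
    intro g h
    apply Units.ext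
    have h1 : ((g • f h : Mˣ) : M) = g (f h : M) := rfl
    rw [Units.val_mul, h1]
    simp only [f, Units.val_mk0]
    rw [AlgEquiv.commutes, hφ, CHil_add hζ.pow_eq_one hk, map_mul, mul_comm]
  obtain ⟨x, hx⟩ := groupCohomology.isMulCoboundary₁_of_isMulCocycle₁_of_aut_to_units f hf
  refine ⟨x, x.ne_zero, fun σ => ?_⟩
  have h2 := hx σ
  rw [div_eq_iff_eq_mul] at h2
  have h3 := congrArg Units.val h2
  rw [Units.val_mul] at h3
  exact h3

theorem kummer_gen [IsGalois L M] {e : ℕ} (he : 0 < e) {ζ : L} (hζ : IsPrimitiveRoot ζ e) (hn : ∀ i, n i ∣ e)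
    (κ : Gal(M/L) →* Multiplicative (V n)) (hκ : Function.Injective κ) :
    ∃ α : Fin m → M, (∀ i, α i ≠ 0) ∧
      (∀ (σ : Gal(M/L)) (i : Fin m), σ (α i) = algebraMap L M (ζ ^ ((e / n i) * ((κ σ).toAdd i).val)) * α i) ∧
      IntermediateField.adjoin L (Set.range α) = ⊤ := by
  have hex : ∀ i : Fin m, ∃ x : M, x ≠ 0 ∧ ∀ σ : Gal(M/L),
      σ x = algebraMap L M (ζ ^ ((e / n i) * ((κ σ).toAdd i).val)) * x := fun i =>
    CHil_one he hζ (hn i) (fun σ => (κ σ).toAdd i) fun σ τ => by rw [map_mul]; rfl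
  choose α hα0 hα using hex
  refine ⟨α, hα0, fun σ i => hα i σ, ?_⟩
  have hbot : (IntermediateField.adjoin L (Set.range α)).fixingSubgroup = ⊥ := by
    rw [eq_bot_iff]
    intro σ hσ
    rw [IntermediateField.mem_fixingSubgroup_iff] at hσ
    have h1 : κ σ = 1 := by
      apply Multiplicative.toAdd.injective
      funext i
      have h2 : σ (α i) = α i := hσ _ (IntermediateField.subset_adjoin L _ ⟨i, rfl⟩)
      rw [hα i σ] at h2
      have h3 : algebraMap L M (ζ ^ ((e / n i) * ((κ σ).toAdd i).val)) = 1 :=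
        mul_right_cancel₀ (hα0 i) (h2.trans (one_mul _).symm)
      have h4 : ζ ^ ((e / n i) * ((κ σ).toAdd i).val) = 1 := by
        apply (algebraMap L M).injective
        rw [h3, map_one]
      exact CHil_zero he hζ (hn i) _ h4
    rw [Subgroup.mem_bot]
    exact hκ (h1.trans (map_one κ).symm)
  have := IsGalois.fixedField_fixingSubgroup (IntermediateField.adjoin L (Set.range α))
  rw [← this, hbot]
  exact IntermediateField.fixedField_bot

end StarkR
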