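import Pool.Agent.Lib.MP_d9bae3_nt.SG.GBase

/-!
# Module SRG-NPr: the primes whose norm is not a prime number

Plan.  Let `p` be the prime number in `Q` (the characteristic of `𝓞 L ⧸ Q`), `N(Q) = p^f`; if `N(Q)` is not a prime then `f ≥ 2` and
`N(Q) ≥ p^2`.  At most `[L:ℚ]` primes `Q` contain a given prime number `p` (they are the primes of `𝓞 L` over `(p)`, `Ideal.primesOver`;
their number is at most `∑ e f = [L:ℚ]`, `Ideal.sum_ramification_inertia`; or: the product of distinct primes containing `p` divides `(p)`,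
so the product of their norms divides `N((p)) = p^[L:ℚ]`, and each norm is at least `p`).  So, grouping the `Q ∈ A` by `p`
(`Finset.sum_fiberwise_of_maps_to`), `∑_{Q ∈ A} 1/N(Q) ≤ ∑_p [L:ℚ]/p^2 ≤ [L:ℚ] ∑' k, 1/k^2 = C` (`Real.summable_one_div_nat_pow`,
`Summable.sum_le_tsum`).  Useful: `Ideal.absNorm_mem`, `Ideal.natCast_mem_iff`/`absNorm_dvd`, `CharP.exists`, `Ideal.absNorm_eq_pow_inertiaDeg`,
`FiniteField.card`; the number `p` can be chosen as `(nm Q).minFac` (as `N(Q)` is a prime power and `N(Q) ∈ Q`, a prime factor of it lies in `Q`),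
and then `N(Q)` not prime gives `N(Q) ≥ minFac^2` (`Nat.minFac_sq_le_self`).
-/

namespace StarkR

open NumberField IsDedekindDomain

variable (L : Type) [Field L] [NumberField L]

variable {L} in
private theorem NPr_ne_one (Q : Prm L) : nm Q ≠ 1 := by
  intro h
  exact Q.isPrime.ne_top (Ideal.absNorm_eq_one_iff.1 h)

variable {L} in
private theorem NPr_pos (Q : Prm L) : 0 < nm Q := by
  rw [Nat.pos_iff_ne_zero]
  intro h
  exact Q.ne_bot (Ideal.absNorm_eq_zero_iff.1 h)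

variable {L} in
/-- the smallest prime factor of the norm lies in the prime -/
private theorem NPr_mem (Q : Prm L) : ((nm Q).minFac : 𝓞 L) ∈ Q.asIdeal := by
  classical
  have hmax : Q.asIdeal.IsMaximal := Q.isMaximal
  letI : Field (𝓞 L ⧸ Q.asIdeal) := Ideal.Quotient.field Q.asIdeal
  haveI : Finite (𝓞 L ⧸ Q.asIdeal) := Ideal.finiteQuotientOfFreeOfNeBot Q.asIdeal Q.ne_bot
  letI : Fintype (𝓞 L ⧸ Q.asIdeal) := Fintype.ofFinite _
  obtain ⟨p, hp⟩ := CharP.exists (𝓞 L ⧸ Q.asIdeal)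
  obtain ⟨n, hpp, hn⟩ := FiniteField.card (𝓞 L ⧸ Q.asIdeal) p
  have h1 : nm Q = p ^ (n : ℕ) := by
    rw [← hn, nm, Ideal.absNorm_apply, Submodule.cardQuot_apply, Nat.card_eq_fintype_card]
  have h2 : (nm Q).minFac = p := by
    rw [h1]
    exact hpp.pow_minFac n.ne_zero
  rw [h2, ← Ideal.Quotient.eq_zero_iff_mem, map_natCast]
  exact CharP.cast_eq_zero _ p

variable {L} in
/-- at most `[L:ℚ]` primes contain the prime number `p` -/
private theorem NPr_card (p : ℕ) (hp : p.Prime) (B : Finset (Prm L)) (hB : ∀ Q ∈ B, (nm Q).minFac = p) :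
    B.card ≤ Module.finrank ℚ L := by
  classical
  have h1 : ∏ Q ∈ B, Q.asIdeal ∣ Ideal.span {(p : 𝓞 L)} := by
    refine Finset.prod_dvd_of_coprime ?_ ?_
    · intro Q _ Q' _ hne
      have h3 : Q.asIdeal ≠ Q'.asIdeal := fun h => hne (HeightOneSpectrum.ext h)
      exact Ideal.isCoprime_iff_sup_eq.2 (Q.isMaximal.coprime_of_ne Q'.isMaximal h3)
    · intro Q hQ
      rw [Ideal.dvd_span_singleton, ← hB Q hQ]
      exact NPr_mem Q
  have h2 : ∏ Q ∈ B, nm Q ∣ p ^ Module.finrank ℚ L := by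
    have h3 := map_dvd Ideal.absNorm h1
    rw [map_prod, Ideal.absNorm_span_singleton] at h3
    have h4 : (Algebra.norm ℤ (p : 𝓞 L)).natAbs = p ^ Module.finrank ℚ L := by
      have h5 : Algebra.norm ℤ (p : 𝓞 L) = (p : ℤ) ^ Module.finrank ℤ (𝓞 L) := by
        have := Algebra.norm_algebraMap (R := ℤ) (S := 𝓞 L) (p : ℤ)
        simpa using this
      rw [h5, Int.natAbs_pow, Int.natAbs_natCast, RingOfIntegers.rank]
    rw [h4] at h3
    exact h3
  have h6 : p ^ B.card ≤ ∏ Q ∈ B, nm Q := by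
    rw [← Finset.prod_const]
    refine Finset.prod_le_prod' fun Q hQ => ?_
    rw [← hB Q hQ]
    exact Nat.minFac_le (NPr_pos Q)
  have h7 : p ^ B.card ≤ p ^ Module.finrank ℚ L :=
    h6.trans (Nat.le_of_dvd (pow_pos hp.pos _) h2)
  exact (Nat.pow_le_pow_iff_right hp.one_lt).1 h7

theorem not_prime_sum : ∃ C : ℝ, ∀ A : Finset (Prm L), (∀ Q ∈ A, ¬ (nm Q).Prime) →
    ∑ Q ∈ A, 1 / (nm Q : ℝ) ≤ C := by
  classical
  have hs : Summable fun k : ℕ => (Module.finrank ℚ L : ℝ) * (1 / (k : ℝ) ^ 2) :=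
    (Real.summable_one_div_nat_pow.2 (by norm_num)).mul_left _
  refine ⟨∑' k : ℕ, (Module.finrank ℚ L : ℝ) * (1 / (k : ℝ) ^ 2), fun A hA => ?_⟩
  have h0 : ∀ Q ∈ A, (nm Q).minFac ∈ A.image (fun Q => (nm Q).minFac) := fun Q hQ =>
    Finset.mem_image_of_mem _ hQ
  rw [← Finset.sum_fiberwise_of_maps_to h0]
  refine le_trans (Finset.sum_le_sum fun p hp => ?_)
    (hs.sum_le_tsum (A.image (fun Q => (nm Q).minFac)) fun k _ => by positivity)
  obtain ⟨Q₀, -, hQ₀⟩ := Finset.mem_image.1 hp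
  have hpp : p.Prime := hQ₀ ▸ Nat.minFac_prime (NPr_ne_one Q₀)
  have hp0 : (0 : ℝ) < p := by exact_mod_cast hpp.pos
  have h1 : ∀ Q ∈ A.filter (fun Q => (nm Q).minFac = p), 1 / (nm Q : ℝ) ≤ 1 / (p : ℝ) ^ 2 := by
    intro Q hQ
    rw [Finset.mem_filter] at hQ
    have h2 : p ^ 2 ≤ nm Q := by
      rw [← hQ.2]
      exact Nat.minFac_sq_le_self (NPr_pos Q) (hA Q hQ.1)
    exact one_div_le_one_div_of_le (by positivity) (by exact_mod_cast h2)
  refine (Finset.sum_le_card_nsmul _ _ _ h1).trans ?_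
  rw [nsmul_eq_mul]
  refine mul_le_mul_of_nonneg_right ?_ (by positivity)
  exact_mod_cast NPr_card p hpp _ fun Q hQ => (Finset.mem_filter.1 hQ).2

end StarkR
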