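import Pool.Agent.Lib.MP_d9bae3_nt.SG.GBase

/-!
# Module SRG-GComp: the complement

`M/F` is Galois and `ψ : Gal(M/F) → W` is a homomorphism to a finite group, bijective on `Gal(M/L)`; then the fixed field `H` of
the kernel of `ψ` is a complement of `L`.
-/

namespace StarkR

open NumberField IsDedekindDomain

variable {F L M : Type} [Field F] [NumberField F] [Field L] [NumberField L]
variable [Field M] [NumberField M] [Algebra F L] [Algebra F M] [Algebra L M] [IsScalarTower F L M]

theorem exists_complement [IsGalois F M] {W : Type} [Group W] [Finite W] (hW : Nat.card Gal(M/L) = Nat.card W)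
    (ψ : Gal(M/F) →* W) (hψ : ∀ σ : Gal(M/F), ψ σ = 1 → (∀ x : L, σ (algebraMap L M x) = algebraMap L M x) → σ = 1) :
    ∃ H : IntermediateField F M, IsGalois F H ∧ IsCompositum L H M ∧ Nonempty (Gal(H/F) ≃* W) := by
  have hres : ∀ σ : Gal(M/L), (AlgEquiv.restrictScalarsHom F σ : Gal(M/F)) = 1 → σ = 1 := by
    intro σ h
    ext x
    have := DFunLike.congr_fun h x
    exact this
  have hfix : ∀ (σ : Gal(M/L)) (x : L), (AlgEquiv.restrictScalarsHom F σ : Gal(M/F)) (algebraMap L M x) =
      algebraMap L M x := by
    intro σ x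
    exact σ.commutes x
  have hinj : Function.Injective (ψ.comp (AlgEquiv.restrictScalarsHom F) : Gal(M/L) →* W) := by
    rw [injective_iff_map_eq_one]
    intro σ h
    exact hres σ (hψ _ h (hfix σ))
  have hbij := hinj.bijective_of_nat_card_le hW.ge
  have hsurj : Function.Surjective ψ := by
    intro w
    obtain ⟨σ, hσ⟩ := hbij.2 w
    exact ⟨_, hσ⟩
  have hGL : IsGalois L M := IsGalois.tower_top_of_isGalois F L M
  refine ⟨IntermediateField.fixedField ψ.ker, inferInstance, ?_, ?_⟩
  · have key : (IntermediateField.adjoin L (Set.range (algebraMap (IntermediateField.fixedField ψ.ker) M))).fixingSubgroup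
        = ⊥ := by
      rw [eq_bot_iff]
      intro σ hσ
      rw [Subgroup.mem_bot]
      refine hres σ (hψ _ ?_ (hfix σ))
      have h1 : (AlgEquiv.restrictScalarsHom F σ : Gal(M/F)) ∈
          (IntermediateField.fixedField ψ.ker).fixingSubgroup := by
        rw [IntermediateField.mem_fixingSubgroup_iff]
        intro x hx
        rw [IntermediateField.mem_fixingSubgroup_iff] at hσ
        exact hσ x (IntermediateField.subset_adjoin _ _ ⟨⟨x, hx⟩, rfl⟩)
      rw [IntermediateField.fixingSubgroup_fixedField] at h1
      exact h1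
    have h2 := IsGalois.fixedField_fixingSubgroup
      (IntermediateField.adjoin L (Set.range (algebraMap (IntermediateField.fixedField ψ.ker) M)))
    rw [key, IntermediateField.fixedField_bot] at h2
    exact h2.symm
  · exact ⟨(IsGalois.normalAutEquivQuotient ψ.ker).symm.trans (QuotientGroup.quotientKerEquivOfSurjective ψ hsurj)⟩

/-- if `W` is commutative and `L/F` is abelian, then `M/F` is abelian -/
theorem abelian_of_split [IsGalois F M] [IsAbelianGalois F L] {W : Type} [CommGroup W]
    (ψ : Gal(M/F) →* W) (hψ : ∀ σ : Gal(M/F), ψ σ = 1 → (∀ x : L, σ (algebraMap L M x) = algebraMap L M x) → σ = 1) :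
    IsAbelianGalois F M := by
  have hc : ∀ σ τ : Gal(M/F), σ * τ = τ * σ := by
    intro σ τ
    have h1 : σ * τ * (τ * σ)⁻¹ = 1 := by
      refine hψ _ ?_ ?_
      · rw [map_mul, map_mul, map_inv, map_mul, mul_comm (ψ τ) (ψ σ), mul_inv_cancel]
      · intro x
        have h2 : AlgEquiv.restrictNormalHom L (σ * τ * (τ * σ)⁻¹) = 1 := by
          rw [map_mul, map_mul, map_inv, map_mul,
            IsMulCommutative.is_comm.comm (AlgEquiv.restrictNormalHom L τ) (AlgEquiv.restrictNormalHom L σ), mul_inv_cancel]
        have h3 := AlgEquiv.restrictNormal_commutes (σ * τ * (τ * σ)⁻¹) L x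
        have h4 : (σ * τ * (τ * σ)⁻¹).restrictNormal L x = x := by
          have := DFunLike.congr_fun h2 x
          exact this
        rw [h4] at h3
        exact h3.symm
    exact mul_inv_eq_one.mp h1
  exact { is_comm.comm := hc }

end StarkR
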