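import Pool.Agent.Lib.MP_d9bae3_nt.SG.GBase

/-!
# Module SRG-GEvT: from `GEv` for `b` to `Ev` for `Φ(b)`

Plan.  `Φ(b) = ∏_τ (τ b)^(t τ)` and `t 1 = 1`: `v ≠ 0` in `V n` and `n_i ∣ e` give `e ≥ 2` (if `e = 1`, all `n_i = 1` and `V n` has one element), and
`ζ ^ t 1 = ζ`, `t 1 < e` give `t 1 = 1` (`IsPrimitiveRoot.pow_inj`).  So `Φ(b_v) = b_v · y` with `y = ∏_{τ ≠ 1} τ(b_v)^(t τ)`, `y ∉ Q` (prime),
hence `Φ(b_v) ∈ Q` and `Φ(b_v) ∉ Q^2` (`Ideal.IsPrime.mul_mem_pow`).  For `w ≠ v`: `Φ(b_w) ∉ Q` and, with `τ(b_w) ≡ x_τ^e`, `Φ(b_w) ≡ (∏ x_τ^(t τ))^e` modulo `Q`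
(work in the quotient ring or by induction over the finite product).
-/

namespace StarkR

open NumberField IsDedekindDomain
open scoped Pointwise

variable {F L : Type} [Field F] [NumberField F] [Field L] [NumberField L] [Algebra F L]
variable {m : ℕ} {n : Fin m → ℕ} [∀ i, NeZero (n i)]

private lemma two_le_aux {e : ℕ} (he : 0 < e) (hn : ∀ i, n i ∣ e) {v : V n} (hv0 : v ≠ 0) : 1 < e := by
  obtain ⟨i, hi⟩ := Function.ne_iff.1 hv0
  have h1 : n i ≠ 1 := by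
    intro h
    apply hi
    have hs : Subsingleton (ZMod (n i)) := by rw [h]; infer_instance
    exact Subsingleton.elim _ _
  have h2 : n i ≤ e := Nat.le_of_dvd he (hn i)
  have h3 : n i ≠ 0 := NeZero.ne (n i)
  omega

private lemma prod_not_mem_aux {R ι : Type*} [CommRing R] (P : Ideal R) [hP : P.IsPrime] (s : Finset ι)
    (f : ι → R) (t : ι → ℕ) (h : ∀ i ∈ s, f i ∉ P) : ∏ i ∈ s, f i ^ t i ∉ P := by
  rw [Ideal.IsPrime.prod_mem_iff]
  rintro ⟨i, hi, h1⟩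
  exact h i hi (hP.mem_of_pow_mem _ h1)

theorem gev_twist {e : ℕ} (he : 0 < e) {ζ : L} (hζ : IsPrimitiveRoot ζ e) {t : Gal(L/F) → ℕ} (ht : IsInvCyc e ζ t)
    (hn : ∀ i, n i ∣ e) {v : V n} (hv0 : v ≠ 0) {b : V n → 𝓞 L} {Q : Prm L} (h : GEv F e v b Q) :
    Ev e v (fun w => twist t (b w)) Q := by
  classical
  obtain ⟨h1, h2, h3⟩ := h
  have hP : Q.asIdeal.IsPrime := Q.isPrime
  have he2 : 1 < e := two_le_aux he hn hv0
  have ht1 : t 1 = 1 := by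
    obtain ⟨ha, hb⟩ := ht 1
    apply hζ.pow_inj ha he2
    rw [pow_one]
    simpa using hb
  have key : twist t (b v) = b v * ∏ τ ∈ (Finset.univ : Finset Gal(L/F)).erase 1, (τ • b v) ^ t τ := by
    unfold twist
    rw [← Finset.mul_prod_erase Finset.univ _ (Finset.mem_univ (1 : Gal(L/F))), ht1, one_smul, pow_one]
  have hy : ∏ τ ∈ (Finset.univ : Finset Gal(L/F)).erase 1, (τ • b v) ^ t τ ∉ Q.asIdeal := by
    apply prod_not_mem_aux
    intro τ hτ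
    exact (h3 v τ (Or.inr (Finset.ne_of_mem_erase hτ))).1
  refine ⟨?_, ?_, ?_⟩
  · show twist t (b v) ∈ Q.asIdeal
    rw [key]
    exact Ideal.mul_mem_right _ _ h1
  · show twist t (b v) ∉ Q.asIdeal ^ 2
    rw [key, mul_comm]
    intro h4
    rcases Ideal.IsPrime.mul_mem_pow Q.asIdeal h4 with h5 | h5
    · exact hy h5
    · exact h2 h5
  · intro w hw
    refine ⟨prod_not_mem_aux _ _ _ _ fun τ _ => (h3 w τ (Or.inl hw)).1, ?_⟩
    choose x hx using fun τ => (h3 w τ (Or.inl hw)).2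
    refine ⟨∏ τ, x τ ^ t τ, ?_⟩
    show twist t (b w) - _ ∈ Q.asIdeal
    unfold twist
    rw [← Ideal.Quotient.eq, map_prod, map_pow, map_prod, ← Finset.prod_pow]
    apply Finset.prod_congr rfl
    intro τ _
    have h4 := Ideal.Quotient.eq.2 (hx τ)
    rw [map_pow, map_pow, h4, map_pow, ← pow_mul, ← pow_mul, mul_comm]

theorem grich_rich {e : ℕ} (he : 0 < e) {ζ : L} (hζ : IsPrimitiveRoot ζ e) {t : Gal(L/F) → ℕ} (ht : IsInvCyc e ζ t)
    (hn : ∀ i, n i ∣ e) {k : ℕ} {b : V n → 𝓞 L} (h : GRich F e k b) : Rich e k (fun w => twist t (b w)) := by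
  intro v hv
  obtain ⟨A, h1, h2⟩ := h v hv
  exact ⟨A, h1, fun Q hQ => ⟨(h2 Q hQ).1.1, gev_twist he hζ ht hn hv (h2 Q hQ).2⟩⟩

end StarkR
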