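import Pool.Agent.Lib.MP_d9bae3_nt.SG.GBase

/-!
# Module SRG-GInj: the primes with `GEv` are not conjugate

Plan.  If `Q.under (𝓞 F) = Q'.under (𝓞 F)` then `Q' = τ Q` for some `τ ∈ Gal(L/F)` (`Algebra.IsInvariant.exists_smul_of_under_eq` with the
group `Gal(L/F)`, the instance `Algebra.IsInvariant (𝓞 F) (𝓞 L) Gal(L/F)` is in Mathlib for Galois extensions, cf. SK/Frob.lean).  If `τ ≠ 1`: `b_v ∈ Q' = τ Q`, so
`τ⁻¹ b_v ∈ Q`, contradicting `GEv` at `Q` (`τ⁻¹ ≠ 1`).  So `τ = 1` and `Q' = Q`.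
-/

namespace StarkR

open NumberField IsDedekindDomain
open scoped Pointwise

variable {F L : Type} [Field F] [NumberField F] [Field L] [NumberField L] [Algebra F L]
variable {m : ℕ} {n : Fin m → ℕ}

theorem gev_inj [IsGalois F L] {e : ℕ} {v : V n} {b : V n → 𝓞 L} {Q Q' : Prm L} (h : GEv F e v b Q)
    (h' : GEv F e v b Q') (hQ : Q.under (𝓞 F) = Q'.under (𝓞 F)) : Q = Q' := by
  have hu : Q.asIdeal.under (𝓞 F) = Q'.asIdeal.under (𝓞 F) := congrArg HeightOneSpectrum.asIdeal hQ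
  have := Q.isPrime
  have := Q'.isPrime
  obtain ⟨τ, hτ⟩ := Algebra.IsInvariant.exists_smul_of_under_eq (𝓞 F) (𝓞 L) Gal(L/F) Q.asIdeal Q'.asIdeal hu
  by_cases h1 : τ = 1
  · subst h1
    rw [one_smul] at hτ
    exact HeightOneSpectrum.ext hτ.symm
  · exfalso
    have hb : b v ∈ τ • Q.asIdeal := hτ ▸ h'.1
    have hb2 : τ⁻¹ • b v ∈ Q.asIdeal := by
      rwa [Ideal.mem_pointwise_smul_iff_inv_smul_mem] at hb
    exact (h.2.2 v τ⁻¹ (Or.inr (inv_ne_one.mpr h1))).1 hb2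

end StarkR
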