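import Pool.Agent.Lib.MP_d9bae3_nt.SG.GBase

/-!
# Module SRG-GNorm: `M = L(α_i)` is Galois over `F`

Plan.  Separability is clear.  Let `Ω = AlgebraicClosure M` and `M'` the image of `M` in `Ω` (`(IsScalarTower.toAlgHom F M Ω).fieldRange`, an `IntermediateField F Ω`); it suffices that
`σ(M') ⊆ M'` for every `σ : Ω ≃ₐ[F] Ω` (`IntermediateField.normal_iff_forall_map_le'` or a similar lemma), then `Normal F M` by the `AlgEquiv` of `M` and `M'`.  `M'` is generated over `F` by the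
image of `L` and the `α_i`.  The image of `L` is mapped to itself (`L/F` normal); let `ρ` be the restriction of `σ` to `L`.  Let `j < e` be the number with `ρ(ζ) = ζ^j` (for example `j = t_{ρ⁻¹}`).
For all `τ`: `j t_τ ≡ t_{ρ⁻¹τ}` modulo `e`, and `t_{ρ⁻¹τ} < e`, so `j t_τ = t_{ρ⁻¹τ} + e c_τ` with a natural number `c_τ`; hence
`Φ(a)^j = ρ(Φ(a)) · w^e`, `w = ∏_τ τ(a)^(c_τ)`, for all `a`.  With `a = rad b i`, `a ≠ 0`, (`rad (Φ ∘ b) i = Φ (rad b i)`, and `a = 0` would give `Φ(a) = 0` if `e ≥ 2`, as `t_1 = 1`; the case `e = 1` is trivial: then all `n_i = 1` and `α_i ∈ L`):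
`(α_i^j)^(n_i) = Φ(a)^j = ρ(Φ(a)) (w^(e/n_i))^(n_i) = (σ(α_i) w^(e/n_i))^(n_i)`, so `σ(α_i) = ξ α_i^j / w^(e/n_i)` with an `n_i`-th root of unity `ξ`, which is a power of `ζ^(e/n_i)`.
So `σ(α_i) ∈ M'`.
-/

namespace StarkR

open NumberField IsDedekindDomain
open scoped Pointwise

variable {F L M : Type} [Field F] [NumberField F] [Field L] [NumberField L]
variable [Field M] [NumberField M] [Algebra F L] [Algebra F M] [Algebra L M] [IsScalarTower F L M]
variable {m : ℕ} {n : Fin m → ℕ} [∀ i, NeZero (n i)]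

private theorem gn_exp {e : ℕ} {ζ : L} (hζ : IsPrimitiveRoot ζ e) {t : Gal(L/F) → ℕ}
    (ht : IsInvCyc e ζ t) (ρ τ : Gal(L/F)) :
    t ρ⁻¹ * t τ = t (ρ⁻¹ * τ) + e * (t ρ⁻¹ * t τ / e) := by
  have h1 : ρ ζ = ζ ^ t ρ⁻¹ := by
    have h := congrArg ρ (ht ρ⁻¹).2
    rw [map_pow] at h
    have h2 : ρ (ρ⁻¹ ζ) = ζ := by
      rw [← AlgEquiv.mul_apply, mul_inv_cancel, AlgEquiv.one_apply]
    rw [h2] at h
    exact h.symm
  have h2 : (τ ζ) ^ t (ρ⁻¹ * τ) = ζ ^ t ρ⁻¹ := by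
    have h := congrArg ρ (ht (ρ⁻¹ * τ)).2
    rw [map_pow, ← AlgEquiv.mul_apply, mul_inv_cancel_left, h1] at h
    exact h
  have h3 : ζ ^ t ρ⁻¹ = (τ ζ) ^ (t ρ⁻¹ * t τ) := by
    nth_rewrite 1 [← (ht τ).2]
    rw [← pow_mul, mul_comm]
  have hτζ : IsPrimitiveRoot (τ ζ) e := hζ.map_of_injective τ.injective
  have h4 : (τ ζ) ^ t (ρ⁻¹ * τ) = (τ ζ) ^ (t ρ⁻¹ * t τ) := h2.trans h3
  have h5 : t (ρ⁻¹ * τ) ≡ t ρ⁻¹ * t τ [MOD e] := by
    rw [hτζ.eq_orderOf]
    have hfin : IsOfFinOrder (τ ζ) := by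
      rw [← orderOf_pos_iff, ← hτζ.eq_orderOf]
      exact lt_of_le_of_lt (Nat.zero_le _) (ht τ).1
    exact hfin.pow_eq_pow_iff_modEq.mp h4
  have h6 : t ρ⁻¹ * t τ % e = t (ρ⁻¹ * τ) := by
    rw [← h5]
    exact Nat.mod_eq_of_lt (ht _).1
  have h7 := Nat.mod_add_div (t ρ⁻¹ * t τ) e
  rw [h6] at h7
  exact h7.symm

/-- `x ^ j = ρ(x) w ^ e` -/
private def GnP (e : ℕ) (j : ℕ) (ρ : Gal(L/F)) (x : 𝓞 L) : Prop := ∃ w : 𝓞 L, x ^ j = ρ • x * w ^ e

private theorem gn_twist {e : ℕ} {ζ : L} (hζ : IsPrimitiveRoot ζ e) {t : Gal(L/F) → ℕ}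
    (ht : IsInvCyc e ζ t) (ρ : Gal(L/F)) (b : 𝓞 L) : GnP e (t ρ⁻¹) ρ (twist t b) := by
  refine ⟨∏ τ : Gal(L/F), (τ • b) ^ (t ρ⁻¹ * t τ / e), ?_⟩
  unfold twist
  rw [Finset.smul_prod', ← Finset.prod_pow, ← Finset.prod_pow]
  have h1 : ∏ τ : Gal(L/F), ρ • (τ • b) ^ t τ = ∏ τ : Gal(L/F), (τ • b) ^ t (ρ⁻¹ * τ) := by
    refine Fintype.prod_equiv (Equiv.mulLeft ρ) _ _ fun τ => ?_
    rw [Equiv.coe_mulLeft, inv_mul_cancel_left, mul_smul, smul_pow']
  rw [h1, ← Finset.prod_mul_distrib]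
  refine Finset.prod_congr rfl fun τ _ => ?_
  rw [← pow_mul, ← pow_mul, ← pow_add]
  congr 1
  have := gn_exp hζ ht ρ τ
  rw [mul_comm (t τ) (t ρ⁻¹), mul_comm (t ρ⁻¹ * t τ / e) e]
  exact this

private theorem gn_mul {e j : ℕ} {ρ : Gal(L/F)} {x y : 𝓞 L} (hx : GnP e j ρ x) (hy : GnP e j ρ y) :
    GnP e j ρ (x * y) := by
  obtain ⟨w, hw⟩ := hx
  obtain ⟨w', hw'⟩ := hy
  refine ⟨w * w', ?_⟩
  rw [mul_pow, hw, hw', smul_mul', mul_pow]
  ring

private theorem gn_one {e j : ℕ} {ρ : Gal(L/F)} : GnP e j ρ (1 : 𝓞 L) :=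
  ⟨1, by rw [one_pow, one_pow, smul_one, one_mul]⟩

private theorem gn_pow {e j : ℕ} {ρ : Gal(L/F)} {x : 𝓞 L} (hx : GnP e j ρ x) (k : ℕ) :
    GnP e j ρ (x ^ k) := by
  induction k with
  | zero => rw [pow_zero]; exact gn_one
  | succ k ih => rw [pow_succ]; exact gn_mul ih hx

private theorem gn_rad {e : ℕ} {ζ : L} (hζ : IsPrimitiveRoot ζ e) {t : Gal(L/F) → ℕ}
    (ht : IsInvCyc e ζ t) (ρ : Gal(L/F)) (b : V n → 𝓞 L) (i : Fin m) :
    GnP e (t ρ⁻¹) ρ (rad (fun v => twist t (b v)) i) := by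
  unfold rad
  exact Finset.prod_induction _ (GnP e (t ρ⁻¹) ρ) (fun _ _ => gn_mul) gn_one
    fun v _ => gn_pow (gn_twist hζ ht ρ (b v)) _

theorem ext_galois [IsGalois F L] {e : ℕ} (he : 0 < e) {ζ : L} (hζ : IsPrimitiveRoot ζ e) {t : Gal(L/F) → ℕ}
    (ht : IsInvCyc e ζ t) (hn : ∀ i, n i ∣ e) {b : V n → 𝓞 L} {α : Fin m → M}
    (h : IsExt (fun v => twist t (b v)) M α) (hb : ∀ i, rad (fun v => twist t (b v)) i ≠ 0) : IsGalois F M := by
  have : Algebra.IsAlgebraic F M := inferInstance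
  have hsep : Algebra.IsSeparable F M := inferInstance
  have hnorm : Normal F M := by
    let Ω := AlgebraicClosure M
    have hclo : IsAlgClosure F Ω :=
      ⟨inferInstance, Algebra.IsAlgebraic.trans F M Ω⟩
    have hnΩ : Normal F Ω := IsAlgClosure.normal F Ω
    -- every embedding maps `M` into `M`
    have key : ∀ (σ : M →ₐ[F] Ω) (x : M), ∃ y : M, σ x = algebraMap M Ω y := by
      intro σ
      obtain ⟨ρ, hρ⟩ : ∃ ρ : Gal(L/F), ∀ x : L,
          σ (algebraMap L M x) = algebraMap M Ω (algebraMap L M (ρ x)) := by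
        refine ⟨AlgHom.restrictNormal' σ L, fun x => ?_⟩
        have h1 := AlgHom.restrictNormal_commutes σ L x
        rw [← h1, ← IsScalarTower.algebraMap_apply L M Ω]
        rfl
      have hα : ∀ i, ∃ y : M, σ (α i) = algebraMap M Ω y := by
        intro i
        obtain ⟨w, hw⟩ := gn_rad hζ ht ρ b i
        obtain ⟨A, hA⟩ : ∃ A : 𝓞 L, A = rad (fun v => twist t (b v)) i := ⟨_, rfl⟩
        obtain ⟨j, hj⟩ : ∃ j : ℕ, j = t ρ⁻¹ := ⟨_, rfl⟩
        rw [← hA, ← hj] at hw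
        have hA0 : A ≠ 0 := by rw [hA]; exact hb i
        obtain ⟨k, hk⟩ := hn i
        have hni : n i ≠ 0 := NeZero.ne (n i)
        have hwL : (A : L) ^ j = ρ (A : L) * (w : L) ^ e := by
          have h1 := congrArg (fun z : 𝓞 L => (z : L)) hw
          simp only [map_pow, map_mul] at h1
          rw [h1]
          congr 1
        have hAL : (A : L) ≠ 0 := by
          intro h0
          exact hA0 (RingOfIntegers.ext (by simpa using h0))
        have hwL0 : (w : L) ≠ 0 := by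
          intro h0
          rw [h0, zero_pow he.ne', mul_zero] at hwL
          exact pow_ne_zero _ hAL hwL
        have hpow : α i ^ n i = algebraMap L M (A : L) := by rw [hA]; exact h.pow i
        have hα0 : α i ≠ 0 := by
          intro h0
          rw [h0, zero_pow hni] at hpow
          exact (map_ne_zero (algebraMap L M)).mpr hAL hpow.symm
        have hσpow : σ (α i) ^ n i = algebraMap M Ω (algebraMap L M (ρ (A : L))) := by
          rw [← map_pow, hpow, hρ]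
        obtain ⟨wM, hwM⟩ : ∃ wM : M, wM = algebraMap L M (w : L) := ⟨_, rfl⟩
        have hwM0 : wM ≠ 0 := by rw [hwM]; exact (map_ne_zero _).mpr hwL0
        have hrel : algebraMap L M (ρ (A : L)) = (α i ^ j / wM ^ k) ^ n i := by
          have h1 := congrArg (algebraMap L M) hwL
          rw [map_pow, map_mul, map_pow] at h1
          rw [div_pow, ← pow_mul, ← pow_mul, mul_comm j, pow_mul, hpow, mul_comm k, ← hk, hwM,
            h1, mul_div_assoc, div_self, mul_one]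
          exact pow_ne_zero _ ((map_ne_zero _).mpr hwL0)
        obtain ⟨β, hβ⟩ : ∃ β : M, β = α i ^ j / wM ^ k := ⟨_, rfl⟩
        have hβ0 : β ≠ 0 := by
          rw [hβ]
          exact div_ne_zero (pow_ne_zero _ hα0) (pow_ne_zero _ hwM0)
        have hβΩ : algebraMap M Ω β ≠ 0 := (map_ne_zero _).mpr hβ0
        have hξ : (σ (α i) / algebraMap M Ω β) ^ n i = 1 := by
          rw [div_pow, hσpow, hrel, ← hβ, map_pow, div_self]
          exact pow_ne_zero _ hβΩ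
        have hprim : IsPrimitiveRoot (algebraMap M Ω (algebraMap L M (ζ ^ k))) (n i) := by
          have h1 : IsPrimitiveRoot (ζ ^ k) (n i) := hζ.pow he (by rw [hk, mul_comm])
          have h2 := h1.map_of_injective (algebraMap L M).injective
          exact h2.map_of_injective (algebraMap M Ω).injective
        obtain ⟨l, -, hl⟩ := hprim.eq_pow_of_pow_eq_one hξ
        refine ⟨(algebraMap L M (ζ ^ k)) ^ l * β, ?_⟩
        rw [map_mul, map_pow, hl, div_mul_cancel₀ _ hβΩ]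
      intro x
      have hx : x ∈ IntermediateField.adjoin L (Set.range α) := by
        rw [h.gen]
        exact IntermediateField.mem_top
      induction hx using IntermediateField.adjoin_induction with
      | mem x hx =>
        obtain ⟨i, rfl⟩ := hx
        exact hα i
      | algebraMap x => exact ⟨_, hρ x⟩
      | add x y _ _ hx hy =>
        obtain ⟨a, ha⟩ := hx
        obtain ⟨c, hc⟩ := hy
        exact ⟨a + c, by rw [map_add, map_add, ha, hc]⟩
      | inv x _ hx =>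
        obtain ⟨a, ha⟩ := hx
        exact ⟨a⁻¹, by rw [map_inv₀, map_inv₀, ha]⟩
      | mul x y _ _ hx hy =>
        obtain ⟨a, ha⟩ := hx
        obtain ⟨c, hc⟩ := hy
        exact ⟨a * c, by rw [map_mul, map_mul, ha, hc]⟩
    let f : M →ₐ[F] Ω := IsScalarTower.toAlgHom F M Ω
    have hM' : Normal F f.fieldRange := by
      rw [IntermediateField.normal_iff_forall_fieldRange_le]
      intro σ y hy
      obtain ⟨⟨z, hz⟩, rfl⟩ := hy
      obtain ⟨x, rfl⟩ := hz
      obtain ⟨y, hy⟩ := key (σ.comp (AlgHom.rangeRestrict f)) x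
      exact ⟨y, hy.symm⟩
    let g : M ≃ₐ[F] f.fieldRange := AlgEquiv.ofInjectiveField f
    exact Normal.of_algEquiv g.symm
  exact ⟨⟩

end StarkR
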