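import Pool.Agent.Lib.MP_d9bae3_nt.SK.Base

/-!
# Module SRG-GSpl: a Kummer extension with given radicands exists

`M` = the subfield of an algebraic closure of `L` generated over `L` by roots `α_i` of the `X ^ (n_i) - a_i`, `a_i = rad b i`.
-/

namespace StarkR

open NumberField IsDedekindDomain Polynomial

variable {F L : Type} [Field F] [NumberField F] [Field L] [NumberField L] [Algebra F L]
variable {m : ℕ} {n : Fin m → ℕ} [∀ i, NeZero (n i)]

theorem exists_ext (F : Type) [Field F] [NumberField F] [Algebra F L] {e : ℕ} (he : 0 < e) {ζ : L} (hζ : IsPrimitiveRoot ζ e)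
    (hn : ∀ i, n i ∣ e) (b : V n → 𝓞 L) (hb : ∀ i, rad b i ≠ 0) :
    ∃ (M : Type) (_ : Field M) (_ : NumberField M) (_ : Algebra F M) (_ : Algebra L M) (_ : IsScalarTower F L M)
      (α : Fin m → M), IsExt b M α := by
  classical
  have hroot : ∀ i, ∃ x : AlgebraicClosure L, x ^ n i = algebraMap L (AlgebraicClosure L) (rad b i : L) := fun i =>
    IsAlgClosed.exists_pow_nat_eq _ (Nat.pos_of_ne_zero (NeZero.ne (n i)))
  choose α hα using hroot
  let M : IntermediateField L (AlgebraicClosure L) := IntermediateField.adjoin L (Set.range α)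
  have hmem : ∀ i, α i ∈ M := fun i => IntermediateField.subset_adjoin L _ ⟨i, rfl⟩
  have hfd : FiniteDimensional L M := by
    refine IntermediateField.finiteDimensional_adjoin (S := Set.range α) ?_
    rintro _ ⟨i, rfl⟩
    exact Algebra.IsIntegral.isIntegral _
  have hnf : NumberField M := NumberField.of_module_finite L M
  refine ⟨M, inferInstance, hnf, inferInstance, inferInstance, inferInstance, fun i => ⟨α i, hmem i⟩, ?_, ?_⟩
  · intro i
    apply Subtype.ext
    have := hα i
    simpa using this
  · apply IntermediateField.map_injective M.val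
    rw [IntermediateField.adjoin_map, ← Set.range_comp, ← AlgHom.fieldRange_eq_map, IntermediateField.fieldRange_val]
    rfl

end StarkR
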