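import Pool.Agent.Lib.MP_d9bae3_nt.SG.GBase

/-!
# Module SRG-GSplit: the extension `M = L(α_i)` of `F` splits

`α_i ^ n_i = Φ(a_i)`, `a_i = rad b i` (indeed `rad (Φ ∘ b) i = Φ (rad b i)`, as `Φ` is multiplicative), `M = L(α_i)`.  There is a homomorphism `ψ` from `Gal(M/F)` to `∏ ℤ/n_i` which is
injective on `Gal(M/L)`.
Plan.  Let `σ ∈ Gal(M/F)`, `ρ = σ|_L` (`AlgEquiv.restrictNormalHom L`), `t = t_ρ`.  In `L`: `ρ(Φ(a)) = ∏_τ τ(a)^(t_{ρ⁻¹τ})` (reindex), and `t_ρ t_{ρ⁻¹τ} ≡ t_τ` modulo `e` (both are exponents of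
the root of unity: `τ(ζ)^(t_ρ t_{ρ⁻¹τ})`: with `τ = ρ τ'`, `ρ(τ'(ζ)^(t_τ'))^(t_ρ) = ρ(ζ)^(t_ρ) = ζ`, so `τ(ζ)^(t_τ' t_ρ) = ζ = τ(ζ)^(t_τ)`); as `t_τ < e`,
`t_ρ t_{ρ⁻¹τ} = t_τ + e c_{ρ,τ}`, `c_{ρ,τ} = (t_ρ t_{ρ⁻¹τ}) / e` (natural division).  So `ρ(Φ(a))^(t_ρ) = Φ(a) · (∏_τ τ(a)^(c_{ρ,τ}))^e`, hence with `y_{ρ,i} = (∏_τ τ(a_i)^(c_{ρ,τ}))^(e/n_i)`:
`(σ(α_i)^(t_ρ))^(n_i) = (α_i y_{ρ,i})^(n_i)`, and `σ(α_i)^(t_ρ) = ζ_i^k α_i y_{ρ,i}`, `ζ_i = ζ^(e/n_i)`, with a unique `k = ψ_i(σ) ∈ ZMod (n_i)` (`α_i ≠ 0` and `y ≠ 0` by `hb`; `a_i ≠ 0` as `Φ(a_i) ≠ 0`: if `e ≥ 2` and `a_i = 0` then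
`Φ(a_i) = 0` because `t_1 = 1`; if `e = 1` everything is trivial: all `n_i = 1`, take `ψ = 1` and `α_i ∈ L`).
`ψ` is a homomorphism: for `σ', σ` with `ρ', ρ`: write `t_ρ t_ρ' = t_{ρ'ρ} + e d`.
`(σ'σα)^(t_ρ t_ρ') = (σ'(σ(α)^(t_ρ)))^(t_ρ') = (σ'(ζ_i^k α y_ρ))^(t_ρ') = ζ_i^k · σ'(α)^(t_ρ') · ρ'(y_ρ)^(t_ρ') = ζ_i^k ζ_i^k' α y_ρ' ρ'(y_ρ)^(t_ρ')` (as `ρ'(ζ)^(t_ρ') = ζ`), and on the other hand it is
`(σ'σα)^(t_{ρ'ρ}) · ((σ'σα)^e)^d = ζ_i^k'' α y_{ρ'ρ} · (ρ'ρ(Φ(a_i)^(e/n_i)))^d`.  The two elements `y_ρ' ρ'(y_ρ)^(t_ρ')` and `y_{ρ'ρ} (ρ'ρ(Φ(a_i)^(e/n_i)))^d` of `L` are equal: both are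
`∏_τ τ(a_i)^(...)` and the exponents agree: `e` times the exponents divided by `e/n_i` are both `t_ρ' t_ρ t_{(ρ'ρ)⁻¹τ} - t_τ`.  So `k'' = k + k'` modulo `n_i`.
Injectivity: if `ψ σ = 1` and `σ` is the identity on `L`, then `ρ = 1`, `t_1 = 1` (if `e ≥ 2`), `c_{1,τ} = 0`, `y = 1`, so `σ α_i = α_i` for all `i` and `σ = 1` (as in SK/Kum.lean, `h.gen`).
-/

namespace StarkR

open NumberField IsDedekindDomain
open scoped Pointwise

variable {F L M : Type} [Field F] [NumberField F] [Field L] [NumberField L]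
variable [Field M] [NumberField M] [Algebra F L] [Algebra F M] [Algebra L M] [IsScalarTower F L M]
variable {m : ℕ} {n : Fin m → ℕ} [∀ i, NeZero (n i)]

private theorem coe_twist (t : Gal(L/F) → ℕ) (a : 𝓞 L) :
    ((twist t a : 𝓞 L) : L) = ∏ τ : Gal(L/F), τ (a : L) ^ t τ := by
  unfold twist
  simp only [map_prod, map_pow]
  rfl

private theorem rad_twist (t : Gal(L/F) → ℕ) (b : V n → 𝓞 L) (i : Fin m) :
    rad (fun v => twist t (b v)) i = twist t (rad b i) := by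
  unfold rad twist
  simp_rw [← Finset.prod_pow]
  rw [Finset.prod_comm]
  refine Finset.prod_congr rfl fun τ _ => ?_
  rw [Finset.smul_prod', ← Finset.prod_pow]
  refine Finset.prod_congr rfl fun v _ => ?_
  rw [smul_pow', ← pow_mul, ← pow_mul, mul_comm]

omit [NumberField F] [NumberField L] in
/-- `t_ρ t_σ` is `t_{ρσ}` modulo `e` -/
private theorem t_mul {e : ℕ} (he : 0 < e) {ζ : L} (hζ : IsPrimitiveRoot ζ e) {t : Gal(L/F) → ℕ}
    (ht : IsInvCyc e ζ t) (ρ σ : Gal(L/F)) : t ρ * t σ % e = t (ρ * σ) := by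
  have hz : IsPrimitiveRoot ((ρ * σ) ζ) e := hζ.map_of_injective (ρ * σ).injective
  have h1 : ((ρ * σ) ζ) ^ (t ρ * t σ) = ζ := by
    rw [mul_comm, pow_mul, AlgEquiv.mul_apply, ← map_pow, (ht σ).2, (ht ρ).2]
  have h2 := pow_mod_orderOf ((ρ * σ) ζ) (t ρ * t σ)
  rw [← hz.eq_orderOf, h1] at h2
  exact hz.pow_inj (Nat.mod_lt _ he) (ht (ρ * σ)).1 (h2.trans (ht (ρ * σ)).2.symm)

omit [NumberField F] [NumberField L] in
private theorem t_mul' {e : ℕ} (he : 0 < e) {ζ : L} (hζ : IsPrimitiveRoot ζ e) {t : Gal(L/F) → ℕ}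
    (ht : IsInvCyc e ζ t) (ρ σ : Gal(L/F)) : t ρ * t σ = t (ρ * σ) + e * (t ρ * t σ / e) := by
  rw [← t_mul he hζ ht ρ σ]
  exact (Nat.mod_add_div _ _).symm

omit [NumberField F] [NumberField L] in
private theorem t_inv' {e : ℕ} (he : 0 < e) {ζ : L} (hζ : IsPrimitiveRoot ζ e) {t : Gal(L/F) → ℕ}
    (ht : IsInvCyc e ζ t) (ρ τ : Gal(L/F)) :
    t ρ * t (ρ⁻¹ * τ) = t τ + e * (t ρ * t (ρ⁻¹ * τ) / e) := by
  have h := t_mul' he hζ ht ρ (ρ⁻¹ * τ)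
  rw [mul_inv_cancel_left] at h
  exact h

/-- reindexing -/
private theorem map_prodL (ρ : Gal(L/F)) (A : L) (f : Gal(L/F) → ℕ) :
    ρ (∏ τ : Gal(L/F), τ A ^ f τ) = ∏ τ : Gal(L/F), τ A ^ f (ρ⁻¹ * τ) := by
  rw [map_prod]
  refine Fintype.prod_equiv (Equiv.mulLeft ρ) _ _ fun τ => ?_
  rw [map_pow, Equiv.coe_mulLeft, inv_mul_cancel_left, AlgEquiv.mul_apply]

/-- `C_ρ = ∏_τ τ(A) ^ c_{ρ,τ}` -/
private noncomputable def cc (e : ℕ) (t : Gal(L/F) → ℕ) (A : L) (ρ : Gal(L/F)) : L :=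
  ∏ τ : Gal(L/F), τ A ^ (t ρ * t (ρ⁻¹ * τ) / e)

private theorem map_phi_pow {e : ℕ} (he : 0 < e) {ζ : L} (hζ : IsPrimitiveRoot ζ e) {t : Gal(L/F) → ℕ}
    (ht : IsInvCyc e ζ t) (ρ : Gal(L/F)) (A : L) :
    ρ (∏ τ : Gal(L/F), τ A ^ t τ) ^ t ρ = (∏ τ : Gal(L/F), τ A ^ t τ) * cc e t A ρ ^ e := by
  rw [map_prodL, ← Finset.prod_pow, cc, ← Finset.prod_pow, ← Finset.prod_mul_distrib]
  refine Finset.prod_congr rfl fun τ _ => ?_
  rw [← pow_mul, ← pow_mul, ← pow_add, mul_comm (t (ρ⁻¹ * τ)) (t ρ), t_inv' he hζ ht ρ τ]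
  congr 1
  have h := t_inv' he hζ ht ρ τ
  rw [← h]
  rw [mul_comm _ e]
  exact h

private theorem cocyc {e : ℕ} (he : 0 < e) {ζ : L} (hζ : IsPrimitiveRoot ζ e) {t : Gal(L/F) → ℕ}
    (ht : IsInvCyc e ζ t) (ρ' ρ : Gal(L/F)) (A : L) :
    cc e t A ρ' * ρ' (cc e t A ρ) ^ t ρ' =
      cc e t A (ρ' * ρ) * ((ρ' * ρ) (∏ τ : Gal(L/F), τ A ^ t τ)) ^ (t ρ' * t ρ / e) := by
  rw [cc, cc, cc, map_prodL ρ', map_prodL (ρ' * ρ), ← Finset.prod_pow, ← Finset.prod_pow,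
    ← Finset.prod_mul_distrib, ← Finset.prod_mul_distrib]
  refine Finset.prod_congr rfl fun τ _ => ?_
  rw [← pow_mul, ← pow_mul, ← pow_add, ← pow_add]
  congr 1
  have h1 := t_inv' he hζ ht ρ' τ
  have h2 := t_inv' he hζ ht ρ (ρ'⁻¹ * τ)
  have h3 := t_inv' he hζ ht (ρ' * ρ) τ
  have h4 := t_mul' he hζ ht ρ' ρ
  have h5 : ρ⁻¹ * (ρ'⁻¹ * τ) = (ρ' * ρ)⁻¹ * τ := by group
  rw [h5] at h2 ⊢
  obtain ⟨c1, hc1⟩ : ∃ x, x = t ρ' * t (ρ'⁻¹ * τ) / e := ⟨_, rfl⟩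
  obtain ⟨c2, hc2⟩ : ∃ x, x = t ρ * t ((ρ' * ρ)⁻¹ * τ) / e := ⟨_, rfl⟩
  obtain ⟨c3, hc3⟩ : ∃ x, x = t (ρ' * ρ) * t ((ρ' * ρ)⁻¹ * τ) / e := ⟨_, rfl⟩
  obtain ⟨c4, hc4⟩ : ∃ x, x = t ρ' * t ρ / e := ⟨_, rfl⟩
  rw [← hc1] at h1 ⊢
  rw [← hc2] at h2 ⊢
  rw [← hc3] at h3 ⊢
  rw [← hc4] at h4 ⊢
  obtain ⟨a, ha⟩ : ∃ x, x = t ρ' := ⟨_, rfl⟩
  obtain ⟨b, hb⟩ : ∃ x, x = t ρ := ⟨_, rfl⟩
  obtain ⟨u, hu⟩ : ∃ x, x = t (ρ'⁻¹ * τ) := ⟨_, rfl⟩
  obtain ⟨w, hw⟩ : ∃ x, x = t ((ρ' * ρ)⁻¹ * τ) := ⟨_, rfl⟩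
  obtain ⟨s, hs⟩ : ∃ x, x = t (ρ' * ρ) := ⟨_, rfl⟩
  obtain ⟨r, hr⟩ : ∃ x, x = t τ := ⟨_, rfl⟩
  rw [← ha, ← hu, ← hr] at h1
  rw [← hb, ← hw, ← hu] at h2
  rw [← hs, ← hw, ← hr] at h3
  rw [← ha, ← hb, ← hs] at h4
  rw [← ha, ← hw]
  have h6 : e * (c1 + c2 * a) = e * (c3 + w * c4) := by
    zify at *
    have h1' : (e : ℤ) * c1 = a * u - r := by linarith
    have h2' : (e : ℤ) * c2 = b * w - u := by linarith
    have h3' : (e : ℤ) * c3 = s * w - r := by linarith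
    have h4' : (e : ℤ) * c4 = a * b - s := by linarith
    calc (e : ℤ) * (c1 + c2 * a) = e * c1 + (e * c2) * a := by ring
      _ = (a * u - r) + (b * w - u) * a := by rw [h1', h2']
      _ = (s * w - r) + w * (a * b - s) := by ring
      _ = e * c3 + w * (e * c4) := by rw [h3', h4']
      _ = e * (c3 + w * c4) := by ring
  exact Nat.eq_of_mul_eq_mul_left he h6

omit [NumberField F] [NumberField L] in
private theorem t_one {e : ℕ} (he : 1 < e) {ζ : L} (hζ : IsPrimitiveRoot ζ e) {t : Gal(L/F) → ℕ}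
    (ht : IsInvCyc e ζ t) : t 1 = 1 := by
  have h1 := (ht 1).2
  rw [AlgEquiv.one_apply] at h1
  exact hζ.pow_inj (ht 1).1 he (h1.trans (pow_one ζ).symm)

omit [NumberField F] [NumberField L] [Algebra F L] [IsScalarTower F L M] in
/-- an automorphism of `M` which is the identity on `L` and on generators is the identity -/
private theorem eq_one_of_gen {b : V n → 𝓞 L} {α : Fin m → M} (h : IsExt b M α) {σ : Gal(M/F)}
    (hL : ∀ x : L, σ (algebraMap L M x) = algebraMap L M x) (hα : ∀ i, σ (α i) = α i) : σ = 1 := by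
  have h1 : ∀ x : M, σ x = x := by
    intro x
    have hx : x ∈ IntermediateField.adjoin L (Set.range α) := by
      rw [h.gen]
      exact IntermediateField.mem_top
    induction hx using IntermediateField.adjoin_induction with
    | mem y hy =>
      obtain ⟨i, rfl⟩ := hy
      exact hα i
    | algebraMap y => exact hL y
    | add y z _ _ hy hz => rw [map_add, hy, hz]
    | inv y _ hy => rw [map_inv₀, hy]
    | mul y z _ _ hy hz => rw [map_mul, hy, hz]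
  exact AlgEquiv.ext h1

theorem split_hom [IsGalois F L] {e : ℕ} (he : 0 < e) {ζ : L} (hζ : IsPrimitiveRoot ζ e) {t : Gal(L/F) → ℕ}
    (ht : IsInvCyc e ζ t) (hn : ∀ i, n i ∣ e) {b : V n → 𝓞 L} {α : Fin m → M}
    (h : IsExt (fun v => twist t (b v)) M α) (hb : ∀ i, rad (fun v => twist t (b v)) i ≠ 0) :
    ∃ ψ : Gal(M/F) →* Multiplicative (V n), ∀ σ : Gal(M/F), ψ σ = 1 →
      (∀ x : L, σ (algebraMap L M x) = algebraMap L M x) → σ = 1 := by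
  classical
  have hni : ∀ i, 0 < n i := fun i => Nat.pos_of_ne_zero (NeZero.ne (n i))
  have hpow : ∀ i, α i ^ n i = algebraMap L M (∏ τ : Gal(L/F), τ ((rad b i : 𝓞 L) : L) ^ t τ) := by
    intro i
    rw [h.pow i, rad_twist, coe_twist]
  rcases Nat.lt_or_ge 1 e with he1 | he1
  swap
  · refine ⟨1, fun σ _ hL => eq_one_of_gen h hL fun i => ?_⟩
    have hn1 : n i = 1 := by
      have h1 := Nat.le_of_dvd he (hn i)
      have h2 := hni i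
      omega
    have h1 := h.pow i
    rw [hn1, pow_one] at h1
    rw [h1]
    exact hL _
  have ht1 : t 1 = 1 := t_one he1 hζ ht
  have hζ0 : ζ ≠ 0 := hζ.ne_zero he.ne'
  have hA : ∀ i, ((rad b i : 𝓞 L) : L) ≠ 0 := by
    intro i h0
    apply hb i
    rw [rad_twist]
    apply RingOfIntegers.ext
    rw [coe_twist]
    rw [Finset.prod_eq_zero (Finset.mem_univ (1 : Gal(L/F)))]
    · rfl
    · rw [ht1, pow_one, h0, AlgEquiv.one_apply]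
  have hα : ∀ i, α i ≠ 0 := by
    intro i h0
    have h1 := h.pow i
    rw [h0, zero_pow (hni i).ne'] at h1
    have h3 : algebraMap L M ((rad (fun v => twist t (b v)) i : 𝓞 L) : L) = algebraMap L M 0 := by
      rw [← h1, map_zero]
    exact hb i (RingOfIntegers.ext ((algebraMap L M).injective h3))
  have hcc : ∀ i ρ, cc e t ((rad b i : 𝓞 L) : L) ρ ≠ 0 := by
    intro i ρ
    unfold cc
    refine Finset.prod_ne_zero_iff.mpr fun τ _ => pow_ne_zero _ ?_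
    rw [Ne, EmbeddingLike.map_eq_zero_iff]
    exact hA i
  obtain ⟨r, hr⟩ : ∃ r : Gal(M/F) → Gal(L/F), (∀ σ' σ, r (σ' * σ) = r σ' * r σ) ∧
      ∀ σ x, algebraMap L M (r σ x) = σ (algebraMap L M x) :=
    ⟨fun σ => AlgEquiv.restrictNormalHom L σ, fun σ' σ => map_mul _ _ _, fun σ x =>
      AlgEquiv.restrictNormal_commutes σ L x⟩
  obtain ⟨hrm, hrc⟩ := hr
  obtain ⟨z, hz⟩ : ∃ z : Fin m → L, ∀ i, z i = ζ ^ (e / n i) := ⟨fun i => ζ ^ (e / n i), fun i => rfl⟩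
  have hzp : ∀ i, IsPrimitiveRoot (algebraMap L M (z i)) (n i) := fun i => by
    rw [hz i]
    exact (hζ.pow he (Nat.div_mul_cancel (hn i)).symm).map_of_injective (algebraMap L M).injective
  obtain ⟨Y, hY⟩ : ∃ Y : Gal(L/F) → Fin m → L, ∀ ρ i, Y ρ i = cc e t ((rad b i : 𝓞 L) : L) ρ ^ (e / n i) :=
    ⟨fun ρ i => cc e t ((rad b i : 𝓞 L) : L) ρ ^ (e / n i), fun ρ i => rfl⟩
  have hY0 : ∀ ρ i, Y ρ i ≠ 0 := fun ρ i => by
    rw [hY]
    exact pow_ne_zero _ (hcc i ρ)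
  have hk : ∀ (σ : Gal(M/F)) (i : Fin m), ∃ k < n i,
      σ (α i) ^ t (r σ) = (algebraMap L M (z i)) ^ k * (α i * algebraMap L M (Y (r σ) i)) := by
    intro σ i
    have hne : α i * algebraMap L M (Y (r σ) i) ≠ 0 := by
      exact mul_ne_zero (hα i) ((map_ne_zero _).mpr (hY0 _ i))
    have h1 : (σ (α i) ^ t (r σ) / (α i * algebraMap L M (Y (r σ) i))) ^ n i = 1 := by
      have h2 : (σ (α i) ^ t (r σ)) ^ n i = (α i * algebraMap L M (Y (r σ) i)) ^ n i := by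
        rw [← pow_mul, mul_comm (t (r σ)) (n i), pow_mul, ← map_pow, hpow i, ← hrc, ← map_pow,
          map_phi_pow he hζ ht, mul_pow, hpow i, ← map_pow, ← map_mul, hY, ← pow_mul,
          Nat.div_mul_cancel (hn i)]
      rw [div_pow, h2]
      exact div_self (pow_ne_zero _ hne)
    obtain ⟨k, hk1, hk2⟩ := (hzp i).eq_pow_of_pow_eq_one h1
    exact ⟨k, hk1, by rw [hk2, div_mul_cancel₀ _ hne]⟩
  choose k hk1 hk2 using hk
  have hmul : ∀ (σ' σ : Gal(M/F)) (i : Fin m),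
      ((k (σ' * σ) i : ℕ) : ZMod (n i)) = (k σ' i : ZMod (n i)) + (k σ i : ZMod (n i)) := by
    intro σ' σ i
    have hzz : σ' (algebraMap L M (z i)) ^ t (r σ') = algebraMap L M (z i) := by
      rw [← hrc, ← map_pow, hz i, map_pow (r σ'), ← pow_mul, mul_comm (e / n i), pow_mul, (ht (r σ')).2]
    have hX1 : (σ' (σ (α i))) ^ (t (r σ) * t (r σ')) =
        (algebraMap L M (z i)) ^ (k σ' i + k σ i) *
          (α i * algebraMap L M (Y (r σ') i * (r σ') (Y (r σ) i) ^ t (r σ'))) := by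
      rw [pow_mul, ← map_pow, hk2 σ i, map_mul, mul_pow, map_pow, ← pow_mul, mul_comm (k σ i), pow_mul, hzz,
        map_mul, mul_pow, hk2 σ' i, ← hrc, map_mul (algebraMap L M),
        map_pow (algebraMap L M) ((r σ') (Y (r σ) i)), pow_add]
      ring
    have hX2 : (σ' (σ (α i))) ^ (t (r σ) * t (r σ')) =
        (algebraMap L M (z i)) ^ (k (σ' * σ) i) *
          (α i * algebraMap L M (Y (r σ' * r σ) i * ((r σ' * r σ)
            (∏ τ : Gal(L/F), τ ((rad b i : 𝓞 L) : L) ^ t τ)) ^ ((e / n i) * (t (r σ') * t (r σ) / e)))) := by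
      have h3 : (σ' (σ (α i))) ^ n i = algebraMap L M ((r σ' * r σ)
            (∏ τ : Gal(L/F), τ ((rad b i : 𝓞 L) : L) ^ t τ)) := by
        rw [← map_pow, ← map_pow, hpow i, ← hrm, hrc]
        rfl
      have h4 : (σ' (σ (α i))) ^ e = algebraMap L M ((r σ' * r σ)
            (∏ τ : Gal(L/F), τ ((rad b i : 𝓞 L) : L) ^ t τ)) ^ (e / n i) := by
        rw [← h3, ← pow_mul, Nat.mul_div_cancel' (hn i)]
      have h5 := hk2 (σ' * σ) i
      rw [hrm, AlgEquiv.mul_apply] at h5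
      rw [mul_comm (t (r σ)), t_mul' he hζ ht (r σ') (r σ), pow_add, pow_mul, h4, h5,
        ← t_mul' he hζ ht (r σ') (r σ), ← pow_mul, map_mul, map_pow]
      ring
    have hco : Y (r σ') i * (r σ') (Y (r σ) i) ^ t (r σ') =
        Y (r σ' * r σ) i * ((r σ' * r σ)
            (∏ τ : Gal(L/F), τ ((rad b i : 𝓞 L) : L) ^ t τ)) ^ ((e / n i) * (t (r σ') * t (r σ) / e)) := by
      rw [hY, hY, hY, map_pow, ← pow_mul, mul_comm (e / n i) (t (r σ')), pow_mul, ← mul_pow,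
        cocyc he hζ ht, mul_pow, ← pow_mul]
      congr 2
      exact mul_comm _ _
    have hne : α i * algebraMap L M (Y (r σ') i * (r σ') (Y (r σ) i) ^ t (r σ')) ≠ 0 := by
      exact mul_ne_zero (hα i) ((map_ne_zero _).mpr
        (mul_ne_zero (hY0 _ i) (pow_ne_zero _ ((map_ne_zero _).mpr (hY0 _ i)))))
    rw [hX1, ← hco] at hX2
    have h2 := mul_right_cancel₀ hne hX2
    have h3 := pow_mod_orderOf (algebraMap L M (z i)) (k σ' i + k σ i)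
    rw [← (hzp i).eq_orderOf] at h3
    have h4 := (hzp i).pow_inj (hk1 (σ' * σ) i) (Nat.mod_lt _ (hni i)) (h2.symm.trans h3.symm)
    rw [← Nat.cast_add, h4, ZMod.natCast_mod]
  let ψ : Gal(M/F) →* Multiplicative (V n) := MonoidHom.mk'
    (fun σ => Multiplicative.ofAdd (fun i => ((k σ i : ℕ) : ZMod (n i)))) (by
      intro σ τ
      rw [← ofAdd_add]
      congr 1
      funext i
      exact hmul σ τ i)
  have hψ : ∀ (σ : Gal(M/F)) (i : Fin m), ((ψ σ).toAdd i).val = k σ i := by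
    intro σ i
    exact ZMod.val_natCast_of_lt (hk1 σ i)
  refine ⟨ψ, fun σ hσ hL => eq_one_of_gen h hL fun i => ?_⟩
  have hr1 : r σ = 1 := by
    apply AlgEquiv.ext
    intro x
    apply (algebraMap L M).injective
    rw [hrc, hL]
    rfl
  have h0 : k σ i = 0 := by
    rw [← hψ σ i, hσ]
    exact ZMod.val_zero
  have h1 := hk2 σ i
  have hY1 : Y 1 i = 1 := by
    rw [hY, cc]
    rw [Finset.prod_eq_one, one_pow]
    intro τ _
    rw [ht1, one_mul, inv_one, one_mul, Nat.div_eq_of_lt (ht τ).1, pow_zero]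
  rw [hr1, ht1, hY1, h0, pow_one, pow_zero, map_one, one_mul, mul_one] at h1
  exact h1

end StarkR
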