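import Pool.Agent.Lib.MP_d9bae3_nt.SK.Main
import Pool.Agent.Lib.MP_d9bae3_nt.SG.GEvT
import Pool.Agent.Lib.MP_d9bae3_nt.SG.GInj
import Pool.Agent.Lib.MP_d9bae3_nt.SG.GDec
import Pool.Agent.Lib.MP_d9bae3_nt.SG.GRam
import Pool.Agent.Lib.MP_d9bae3_nt.SG.GSplit
import Pool.Agent.Lib.MP_d9bae3_nt.SG.GNorm
import Pool.Agent.Lib.MP_d9bae3_nt.SG.GSpl
import Pool.Agent.Lib.MP_d9bae3_nt.SG.GComp

/-!
# Module SRG-GMain: `GRich` families give extensions of `F` with additional zeros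
-/

namespace StarkR

open NumberField IsDedekindDomain
open scoped Pointwise

variable {F L H M : Type} [Field F] [NumberField F] [Field L] [NumberField L] [Field H] [NumberField H]
variable [Field M] [NumberField M] [Algebra F L] [Algebra F H] [Algebra F M] [Algebra L M] [Algebra H M]
variable [IsScalarTower F L M] [IsScalarTower F H M]
variable {m : ℕ} {n : Fin m → ℕ} [∀ i, NeZero (n i)]

theorem grich_mono {e k k' : ℕ} (h : k ≤ k') {b : V n → 𝓞 L} (hb : GRich F e k' b) : GRich F e k b := by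
  intro v hv
  obtain ⟨A, h1, h2⟩ := hb v hv
  exact ⟨A, h.trans h1, h2⟩

/-- For a character which is not faithful on `Gal(M/L)` there are many ramified primes of `F` at which it is trivial. -/
theorem g_set [IsGalois F L] [IsGalois F H] {e : ℕ} {ζ : L} (hζ : IsPrimitiveRoot ζ e) (he : 0 < e)
    {t : Gal(L/F) → ℕ} (ht : IsInvCyc e ζ t) (hn : ∀ i, n i ∣ e)
    {k : ℕ} {b : V n → 𝓞 L} (hb : GRich F e k b) (hb1 : GRich F e 1 b) {α : Fin m → M}
    (h : IsExt (fun v => twist t (b v)) M α) (hc : IsCompositum L H M)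
    {χ : Gal(H/F) →* ℂˣ} (hχ : (χ.comp (resLH F L H M)).ker ≠ ⊥) :
    ∃ A : Finset (Prm F), k ≤ A.card ∧ ∀ q ∈ A, Ramified H q ∧ TrivialAt χ q := by
  classical
  have hgal : IsGalois F M := comp_galois F L H M hc
  have hgalL : IsGalois L M := IsGalois.tower_top_of_isGalois F L M
  have hb1 : Rich e 1 (fun v => twist t (b v)) := grich_rich he hζ ht hn hb1
  obtain ⟨κ, h1, h2⟩ := kum hζ he hn h fun i => rad_ne_zero hb1 i
  obtain ⟨c, v, hv0, hcv, hcc⟩ := chr_ker κ h1 he hn (χ.comp (resLH F L H M)) hχ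
  obtain ⟨A, hA1, hA2⟩ := hb v hv0
  have hinj : Set.InjOn (fun Q : Prm L => Q.under (𝓞 F)) (A : Set (Prm L)) := fun Q hQ Q' hQ' hh =>
    gev_inj (hA2 Q hQ).2 (hA2 Q' hQ').2 hh
  have hev : ∀ Q ∈ A, Ev e v (fun w => twist t (b w)) Q := fun Q hQ => gev_twist he hζ ht hn hv0 (hA2 Q hQ).2
  refine ⟨A.image fun Q : Prm L => Q.under (𝓞 F), ?_, fun q hq => ?_⟩
  · rw [Finset.card_image_of_injOn hinj]
    exact hA1
  · obtain ⟨Q, hQ, rfl⟩ := Finset.mem_image.1 hq
    refine ⟨desc_ramified hc (ev_ramified h hv0 (hev Q hQ)), desc_trivial (L := L) (M := M) (hA2 Q hQ).1.2 χ ?_⟩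
    intro P hP hPQ σ hσ
    have h0 := hcc σ
    rw [MonoidHom.comp_apply] at h0
    rw [h0]
    have h3 := dec_fix hζ he hn h (hA2 Q hQ).1.1 (hev Q hQ) hcv P hP hPQ σ hσ
    rw [h2] at h3
    have hbet : bet α c ≠ 0 := by
      unfold bet
      refine Finset.prod_ne_zero_iff.2 fun i _ => pow_ne_zero _ fun h0 => ?_
      have h4 := h.pow i
      rw [h0, zero_pow (NeZero.ne (n i)), eq_comm, map_eq_zero] at h4
      exact rad_ne_zero hb1 i (RingOfIntegers.coe_eq_zero_iff.1 h4)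
    have h5 : algebraMap L M (ζ ^ pr e c (κ σ).toAdd) = 1 := mul_right_cancel₀ hbet (h3.trans (one_mul _).symm)
    rw [map_eq_one_iff _ (algebraMap L M).injective] at h5
    exact (hζ.pow_eq_one_iff_dvd _).1 h5

/-- The additional zeros. -/
theorem g_van [IsGalois F L] [IsGalois F H] {e : ℕ} {ζ : L} (hζ : IsPrimitiveRoot ζ e) (he : 0 < e)
    {t : Gal(L/F) → ℕ} (ht : IsInvCyc e ζ t) (hn : ∀ i, n i ∣ e)
    {K : ℕ} {b : V n → 𝓞 L} (hb : GRich F e (K + Module.finrank ℚ F + 1) b) {α : Fin m → M}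
    (h : IsExt (fun v => twist t (b v)) M α) (hc : IsCompositum L H M)
    {χ : Gal(H/F) →* ℂˣ} (hχ : (χ.comp (resLH F L H M)).ker ≠ ⊥) {Λ : ℂ → ℂ} (hΛ : IsLFunction χ Λ) (S T : Finset (Prm F))
    (hS : ∀ q : Prm F, Ramified H q → q ∈ S) (k : ℕ) (hk : k ≤ splitNumber H S + K) :
    iteratedDeriv k (LST Λ χ S T) 0 = 0 := by
  obtain ⟨A, hA1, hA2⟩ := g_set hζ he ht hn hb (grich_mono (by omega) hb) h hc hχ
  exact van hΛ.analytic S T hS A hA2 K (by omega) k hk

omit [NumberField H] [Algebra F H] [Algebra H M] [IsScalarTower F H M] in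
/-- `M/F` is abelian. -/
theorem g_abelian [IsAbelianGalois F L] {e : ℕ} {ζ : L} (hζ : IsPrimitiveRoot ζ e) (he : 0 < e)
    {t : Gal(L/F) → ℕ} (ht : IsInvCyc e ζ t) (hn : ∀ i, n i ∣ e) {b : V n → 𝓞 L} (hb : GRich F e 1 b) {α : Fin m → M}
    (h : IsExt (fun v => twist t (b v)) M α) : IsAbelianGalois F M := by
  have hb1 : Rich e 1 (fun v => twist t (b v)) := grich_rich he hζ ht hn hb
  obtain ⟨ψ, hψ⟩ := split_hom he hζ ht hn h fun i => rad_ne_zero hb1 i
  have hgal : IsGalois F M := ext_galois he hζ ht hn h fun i => rad_ne_zero hb1 i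
  exact abelian_of_split (L := L) ψ hψ

/-- The Stickelberger element and Stark's conjecture. -/
theorem g_theta [IsGalois F L] [IsGalois F H] {e : ℕ} {ζ : L} (hζ : IsPrimitiveRoot ζ e) (he : 0 < e)
    {t : Gal(L/F) → ℕ} (ht : IsInvCyc e ζ t) (hn : ∀ i, n i ∣ e)
    {K : ℕ} {b : V n → 𝓞 L} (hb : GRich F e (K + Module.finrank ℚ F + 1) b) {α : Fin m → M}
    (h : IsExt (fun v => twist t (b v)) M α) (hc : IsCompositum L H M) (hA : ¬ IsCyclic (Multiplicative (V n)))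
    {Λ : (Gal(H/F) →* ℂˣ) → ℂ → ℂ} (hΛ : ∀ χ, IsLFunction χ (Λ χ)) (S T : Finset (Prm F))
    (hS : ∀ q : Prm F, Ramified H q → q ∈ S) (k : ℕ) (hk : k ≤ splitNumber H S + K) : theta Λ S T k = 0 := by
  have hgal : IsGalois F M := comp_galois F L H M hc
  have hgalL : IsGalois L M := IsGalois.tower_top_of_isGalois F L M
  have hb1 : Rich e 1 (fun v => twist t (b v)) := grich_rich he hζ ht hn (grich_mono (by omega) hb)
  obtain ⟨f⟩ := gal_iso hζ he hn hb1 h
  have hcyc : ¬ IsCyclic Gal(M/L) := fun h0 => hA (isCyclic_of_surjective f f.surjective)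
  exact theta_zero Λ S T _ fun χ => g_van hζ he ht hn hb h hc (ker_ne_bot hcyc _) (hΛ χ) S T hS k hk

/-- There is an extension `H/F` with the group `∏ ℤ/n_i`. -/
theorem g_exists [IsGalois F L] {e : ℕ} {ζ : L} (hζ : IsPrimitiveRoot ζ e) (he : 0 < e)
    {t : Gal(L/F) → ℕ} (ht : IsInvCyc e ζ t) (hn : ∀ i, n i ∣ e) {b : V n → 𝓞 L} (hb : GRich F e 1 b) :
    ∃ (M : Type) (_ : Field M) (_ : NumberField M) (_ : Algebra F M) (_ : Algebra L M) (_ : IsScalarTower F L M)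
      (α : Fin m → M) (H : IntermediateField F M), IsExt (fun v => twist t (b v)) M α ∧ IsGalois F H ∧
        IsCompositum L H M ∧ Nonempty (Gal(H/F) ≃* Multiplicative (V n)) := by
  have hb1 : Rich e 1 (fun v => twist t (b v)) := grich_rich he hζ ht hn hb
  have hb2 : ∀ i, rad (fun v => twist t (b v)) i ≠ 0 := fun i => rad_ne_zero hb1 i
  obtain ⟨M, i1, i2, i3, i4, i5, α, h⟩ := exists_ext F he hζ hn (fun v => twist t (b v)) hb2
  obtain ⟨ψ, hψ⟩ := split_hom he hζ ht hn h hb2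
  have hgal : IsGalois F M := ext_galois he hζ ht hn h hb2
  have hgalL : IsGalois L M := IsGalois.tower_top_of_isGalois F L M
  obtain ⟨f⟩ := gal_iso hζ he hn hb1 h
  obtain ⟨H, h1, h2, h3⟩ := exists_complement (L := L) (Nat.card_congr f.toEquiv) ψ hψ
  exact ⟨M, i1, i2, i3, i4, i5, α, H, h, h1, h2, h3⟩

end StarkR
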