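import Pool.Agent.Lib.MP_d9bae3_nt.SG.GBase

/-!
# Module SRG-CEig: the Kummer generators of an abelian extension are eigenvectors

Plan.  `k_i(σ) = (e / n_i) (κ σ)_i`.
* `kummer_mem`: `σ(α_i ^ n_i) = ζ^(n_i k_i(σ)) α_i^(n_i) = α_i^(n_i)` (`e ∣ n_i k_i`) for all `σ ∈ Gal(M/L)`, so `α_i^(n_i)` is in `L` (`IsGalois.mem_bot_iff_fixed`, `IntermediateField.mem_bot`).
* `kummer_eig`: let `σ ∈ Gal(M/F)`, `σ(ζ) = ζ^j` (in `M`), and `x = σ(α_i) / α_i^j`.  For `τ ∈ Gal(M/L)`, an element of `Gal(M/F)` (`AlgEquiv.restrictScalars F`), `τ σ = σ τ`, so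
  `τ(σ(α_i)) = σ(τ(α_i)) = σ(ζ^(k_i(τ))) σ(α_i) = ζ^(j k_i(τ)) σ(α_i)`, and `τ(α_i^j) = ζ^(j k_i(τ)) α_i^j`; so `τ x = x` and `x ∈ L`.
-/

namespace StarkR

open NumberField IsDedekindDomain

variable {F L M : Type} [Field F] [NumberField F] [Field L] [NumberField L]
variable [Field M] [NumberField M] [Algebra F L] [Algebra F M] [Algebra L M] [IsScalarTower F L M]
variable {m : ℕ} {n : Fin m → ℕ} [∀ i, NeZero (n i)]

theorem kummer_mem [IsGalois L M] {e : ℕ} {ζ : L} (hζ : IsPrimitiveRoot ζ e) (hn : ∀ i, n i ∣ e)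
    {κ : Gal(M/L) →* Multiplicative (V n)} {α : Fin m → M}
    (hα : ∀ (σ : Gal(M/L)) (i : Fin m), σ (α i) = algebraMap L M (ζ ^ ((e / n i) * ((κ σ).toAdd i).val)) * α i)
    (i : Fin m) : ∃ c : L, α i ^ n i = algebraMap L M c := by
  have h : α i ^ n i ∈ Set.range (algebraMap L M) := by
    rw [InfiniteGalois.mem_range_algebraMap_iff_fixed]
    intro σ
    have h1 : (ζ ^ ((e / n i) * ((κ σ).toAdd i).val)) ^ n i = 1 := by
      rw [← pow_mul]
      have h2 : (e / n i) * ((κ σ).toAdd i).val * n i = e * ((κ σ).toAdd i).val := by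
        rw [mul_right_comm, Nat.div_mul_cancel (hn i)]
      rw [h2, pow_mul, hζ.pow_eq_one, one_pow]
    rw [map_pow, hα, mul_pow, ← map_pow, h1, map_one, one_mul]
  obtain ⟨c, hc⟩ := h
  exact ⟨c, hc.symm⟩

theorem kummer_eig [IsAbelianGalois F M] {e : ℕ} {ζ : L} (hn : ∀ i, n i ∣ e)
    {κ : Gal(M/L) →* Multiplicative (V n)} {α : Fin m → M} (hα0 : ∀ i, α i ≠ 0)
    (hα : ∀ (σ : Gal(M/L)) (i : Fin m), σ (α i) = algebraMap L M (ζ ^ ((e / n i) * ((κ σ).toAdd i).val)) * α i)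
    (σ : Gal(M/F)) (j : ℕ) (hj : σ (algebraMap L M ζ) = algebraMap L M (ζ ^ j)) (i : Fin m) :
    ∃ x : L, x ≠ 0 ∧ σ (α i) = α i ^ j * algebraMap L M x := by
  haveI : IsGalois L M := IsGalois.tower_top_of_isGalois F L M
  have hne : α i ^ j ≠ 0 := pow_ne_zero _ (hα0 i)
  have hσ0 : σ (α i) ≠ 0 := (map_ne_zero σ).2 (hα0 i)
  have h : σ (α i) / α i ^ j ∈ Set.range (algebraMap L M) := by
    rw [InfiniteGalois.mem_range_algebraMap_iff_fixed]
    intro τ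
    set k := (e / n i) * ((κ τ).toAdd i).val with hk
    have hτ : ∀ x : M, τ (σ x) = σ (τ x) := by
      intro x
      have hc : (AlgEquiv.restrictScalars F τ) * σ = σ * (AlgEquiv.restrictScalars F τ) :=
        mul_comm' _ _
      exact congrArg (fun f : Gal(M/F) => f x) hc
    have h1 : τ (σ (α i)) = algebraMap L M (ζ ^ (j * k)) * σ (α i) := by
      rw [hτ, hα τ i, map_mul, map_pow, map_pow, hj, ← map_pow, ← pow_mul]
    have h2 : τ (α i ^ j) = algebraMap L M (ζ ^ (j * k)) * α i ^ j := by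
      rw [map_pow, hα τ i, mul_pow, ← map_pow, ← pow_mul, mul_comm k j]
    have h3 : algebraMap L M (ζ ^ (j * k)) ≠ 0 := by
      intro h3
      rw [h3, zero_mul] at h2
      exact hne ((map_eq_zero τ).1 h2)
    rw [map_div₀, h1, h2, mul_div_mul_left _ _ h3]
  obtain ⟨x, hx⟩ := h
  refine ⟨x, fun h0 => ?_, ?_⟩
  · rw [h0, map_zero] at hx
    exact div_ne_zero hσ0 hne hx.symm
  · rw [hx, mul_div_cancel₀ _ hne]

end StarkR
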