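import Pool.Agent.Lib.MP_d9bae3_nt.SK.Defs

/-!
# Random abelian extensions of an arbitrary number field: definitions

`F` is a number field, `L = F(ζ)` with a primitive `e`-th root of unity `ζ`.
-/

namespace StarkR

open NumberField IsDedekindDomain
open scoped Pointwise

section twist

variable {F L : Type} [Field F] [NumberField F] [Field L] [NumberField L] [Algebra F L]

/-- The exponents `t_τ`, `0 ≤ t_τ < e`, with `τ(ζ) ^ t_τ = ζ`: the inverse of the cyclotomic character. -/
def IsInvCyc (e : ℕ) (ζ : L) (t : Gal(L/F) → ℕ) : Prop := ∀ τ : Gal(L/F), t τ < e ∧ τ ζ ^ t τ = ζ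

/-- `Φ(b) = ∏_τ τ(b) ^ t_τ`, the product over the Galois group of `L/F`. -/
noncomputable def twist (t : Gal(L/F) → ℕ) (b : 𝓞 L) : 𝓞 L := ∏ τ : Gal(L/F), (τ • b) ^ t τ

end twist

section comp

variable (F L H M : Type) [Field F] [NumberField F] [Field L] [NumberField L] [Field H] [NumberField H]
variable [Field M] [NumberField M] [Algebra F L] [Algebra F H] [Algebra F M] [Algebra L M] [Algebra H M]
variable [IsScalarTower F L M] [IsScalarTower F H M]

/-- The restriction of the automorphisms of `M` over `L` to the Galois extension `H` of `F`. -/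
noncomputable def resLH [IsGalois F H] : Gal(M/L) →* Gal(H/F) :=
  (AlgEquiv.restrictNormalHom H).comp (AlgEquiv.restrictScalarsHom F)

/-- `M` is generated by `L` and `H`. -/
def IsCompositum : Prop := IntermediateField.adjoin L (Set.range (algebraMap H M)) = ⊤

end comp

end StarkR
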