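import Pool.Agent.Lib.MP_d9bae3_nt.SK.Base
import Pool.Agent.Lib.MP_d9bae3_nt.SG.GDefs

/-!
# Random abelian extensions of an arbitrary number field: auxiliary definitions

`GEv F e v b Q`: the prime `Q` of `L` divides `b_v` exactly once, and all the other conjugates `τ(b_w)`, `(w, τ) ≠ (v, 1)`, are
nonzero `e`-th power residues modulo `Q`.
-/

namespace StarkR

open NumberField IsDedekindDomain
open scoped Pointwise

variable (F : Type) {L : Type} [Field F] [NumberField F] [Field L] [NumberField L] [Algebra F L]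
variable {m : ℕ} {n : Fin m → ℕ}

/-- `Q` divides `b_v` exactly once; the other conjugates `τ(b_w)` are nonzero `e`-th power residues modulo `Q` -/
def GEv (e : ℕ) (v : V n) (b : V n → 𝓞 L) (Q : Prm L) : Prop :=
  b v ∈ Q.asIdeal ∧ b v ∉ Q.asIdeal ^ 2 ∧ ∀ (w : V n) (τ : Gal(L/F)), (w ≠ v ∨ τ ≠ 1) →
    τ • b w ∉ Q.asIdeal ∧ ∃ x : 𝓞 L, τ • b w - x ^ e ∈ Q.asIdeal

/-- a prime of `L` not dividing `e` with trivial decomposition group in `L/F` -/
def GoodPrm (e : ℕ) (Q : Prm L) : Prop :=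
  (e : 𝓞 L) ∉ Q.asIdeal ∧ MulAction.stabilizer Gal(L/F) Q.asIdeal = ⊥

/-- for every `v ≠ 0` there are at least `k` good primes `Q` with `GEv F e v b Q` -/
def GRich (e k : ℕ) (b : V n → 𝓞 L) : Prop :=
  ∀ v : V n, v ≠ 0 → ∃ A : Finset (Prm L), k ≤ A.card ∧ ∀ Q ∈ A, GoodPrm F e Q ∧ GEv F e v b Q

end StarkR
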