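import Pool.Agent.Lib.MP_d9bae3_nt.SG.GBase

/-!
# Module SRG-CCo: the compositum of two abelian extensions

Plan.  Let `Ω = AlgebraicClosure F` (a field in `Type`), `L'`, `H'` the images of `F`-embeddings `L → Ω`, `H → Ω` (`IsAlgClosed.lift`), intermediate fields of `Ω/F`, `M = ↥(L' ⊔ H')`.  It is a finite
extension of `F` (`IntermediateField.finiteDimensional_sup`), so a number field (`NumberField.of_module_finite F M` or similar).  The algebra structures `L → M` and `H → M` are the embeddings (`RingHom.toAlgebra`), the towers
hold since they are `F`-embeddings.  `IsCompositum L H M`: an `IntermediateField L M` which contains the image of `H` contains the images of `L` and `H` (restrict scalars to `F`), so it is everything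
(`IntermediateField.sup`/`adjoin` in `M` instead of `Ω`: e.g. by `IntermediateField.lift`, or show that every element of `L' ⊔ H'` is reached by `IntermediateField.sup_induction`/`adjoin_induction`, or
that the `adjoin` restricted to `F` and mapped to `Ω` contains `L'` and `H'`).  `M/F` is Galois (`IntermediateField.normal_sup`, characteristic 0) and abelian: `σ τ` and `τ σ` agree on `L'` and on `H'` (their restrictions lie in the commutative groups `Gal(L/F)`, `Gal(H/F)`),
hence on the compositum (two `L`-linear maps which agree on generators; or: the map `Gal(M/F) → Gal(L/F) × Gal(H/F)` is injective).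
-/

namespace StarkR

open NumberField IsDedekindDomain

private theorem cco_comm (F L H M : Type) [Field F] [NumberField F] [Field L] [NumberField L] [Field H] [NumberField H]
    [Field M] [NumberField M] [Algebra F L] [Algebra F H] [Algebra F M] [Algebra L M] [Algebra H M]
    [IsScalarTower F L M] [IsScalarTower F H M] [IsAbelianGalois F L] [IsAbelianGalois F H]
    (hc : IsCompositum L H M) (σ τ : Gal(M/F)) : σ * τ = τ * σ := by
  apply AlgEquiv.ext
  intro m
  have hm : m ∈ IntermediateField.adjoin L (Set.range (algebraMap H M)) := by
    rw [hc]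
    exact IntermediateField.mem_top
  have key : ∀ (E : Type) [Field E] [Algebra F E] [Algebra E M] [IsScalarTower F E M] [IsAbelianGalois F E]
      (x : E), σ (τ (algebraMap E M x)) = τ (σ (algebraMap E M x)) := by
    intro E _ _ _ _ _ x
    have hcomm : (σ.restrictNormal E) * (τ.restrictNormal E) = (τ.restrictNormal E) * (σ.restrictNormal E) :=
      (inferInstance : IsMulCommutative Gal(E/F)).is_comm.comm _ _
    have h := congrArg (fun r : Gal(E/F) => algebraMap E M (r x)) hcomm
    simp only [AlgEquiv.mul_apply] at h
    rw [AlgEquiv.restrictNormal_commutes, AlgEquiv.restrictNormal_commutes,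
      AlgEquiv.restrictNormal_commutes, AlgEquiv.restrictNormal_commutes] at h
    exact h
  show σ (τ m) = τ (σ m)
  induction hm using IntermediateField.adjoin_induction with
  | mem x hx =>
    obtain ⟨h, rfl⟩ := hx
    exact key H h
  | algebraMap x => exact key L x
  | add x y hx hy h1 h2 => rw [map_add, map_add, map_add, map_add, h1, h2]
  | inv x hx h1 => rw [map_inv₀, map_inv₀, map_inv₀, map_inv₀, h1]
  | mul x y hx hy h1 h2 => rw [map_mul, map_mul, map_mul, map_mul, h1, h2]

private theorem cco_of_emb (F L H M : Type) [Field F] [NumberField F] [Field L] [NumberField L] [Field H] [NumberField H]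
    [Field M] [NumberField M] [Algebra F L] [Algebra F H] [Algebra F M]
    [IsAbelianGalois F L] [IsAbelianGalois F H] (i : L →ₐ[F] M) (j : H →ₐ[F] M)
    (hij : i.fieldRange ⊔ j.fieldRange = ⊤) :
    ∃ (_ : Algebra L M) (_ : Algebra H M)
      (_ : IsScalarTower F L M) (_ : IsScalarTower F H M), IsCompositum L H M ∧ IsAbelianGalois F M := by
  let aL : Algebra L M := i.toRingHom.toAlgebra
  let aH : Algebra H M := j.toRingHom.toAlgebra
  have tL : IsScalarTower F L M := IsScalarTower.of_algebraMap_eq' i.comp_algebraMap.symm
  have tH : IsScalarTower F H M := IsScalarTower.of_algebraMap_eq' j.comp_algebraMap.symm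
  have hc : IsCompositum L H M := by
    unfold IsCompositum
    rw [← IntermediateField.restrictScalars_eq_top_iff (K := F), eq_top_iff, ← hij, sup_le_iff]
    constructor
    · rintro x ⟨l, rfl⟩
      exact (IntermediateField.adjoin L (Set.range (algebraMap H M))).algebraMap_mem l
    · rintro x ⟨h, rfl⟩
      exact IntermediateField.subset_adjoin L (Set.range (algebraMap H M)) ⟨h, rfl⟩
  have n1 : Normal F i.fieldRange := Normal.of_algEquiv (AlgEquiv.ofInjectiveField i)
  have n2 : Normal F j.fieldRange := Normal.of_algEquiv (AlgEquiv.ofInjectiveField j)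
  have n3 : Normal F (i.fieldRange ⊔ j.fieldRange : IntermediateField F M) := inferInstance
  have n4 : Normal F (⊤ : IntermediateField F M) := by
    rw [← hij]
    exact n3
  have n5 : Normal F M := Normal.of_algEquiv IntermediateField.topEquiv
  have g : IsGalois F M := IsGalois.mk
  exact ⟨aL, aH, tL, tH, hc, { is_comm.comm := fun σ τ => cco_comm F L H M hc σ τ }⟩

theorem exists_comp (F L H : Type) [Field F] [NumberField F] [Field L] [NumberField L] [Field H] [NumberField H]
    [Algebra F L] [Algebra F H] [IsAbelianGalois F L] [IsAbelianGalois F H] :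
    ∃ (M : Type) (_ : Field M) (_ : NumberField M) (_ : Algebra F M) (_ : Algebra L M) (_ : Algebra H M)
      (_ : IsScalarTower F L M) (_ : IsScalarTower F H M), IsCompositum L H M ∧ IsAbelianGalois F M := by
  have fL : FiniteDimensional F L := Module.Finite.of_restrictScalars_finite ℚ F L
  have fH : FiniteDimensional F H := Module.Finite.of_restrictScalars_finite ℚ F H
  let i : L →ₐ[F] AlgebraicClosure F := IsAlgClosed.lift
  let j : H →ₐ[F] AlgebraicClosure F := IsAlgClosed.lift
  have f1 : FiniteDimensional F i.fieldRange := (AlgEquiv.ofInjectiveField i).toLinearEquiv.finiteDimensional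
  have f2 : FiniteDimensional F j.fieldRange := (AlgEquiv.ofInjectiveField j).toLinearEquiv.finiteDimensional
  let M : IntermediateField F (AlgebraicClosure F) := i.fieldRange ⊔ j.fieldRange
  have f3 : FiniteDimensional F M := IntermediateField.finiteDimensional_sup _ _
  have nM : NumberField M := NumberField.of_module_finite F M
  let i' : L →ₐ[F] M := (IntermediateField.inclusion (le_sup_left : i.fieldRange ≤ M)).comp
    (AlgEquiv.ofInjectiveField i).toAlgHom
  let j' : H →ₐ[F] M := (IntermediateField.inclusion (le_sup_right : j.fieldRange ≤ M)).comp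
    (AlgEquiv.ofInjectiveField j).toAlgHom
  have hi : M.val.comp i' = i := by
    apply AlgHom.ext
    intro x
    rfl
  have hj : M.val.comp j' = j := by
    apply AlgHom.ext
    intro x
    rfl
  have hij : i'.fieldRange ⊔ j'.fieldRange = ⊤ := by
    apply IntermediateField.map_injective M.val
    rw [IntermediateField.map_sup, AlgHom.map_fieldRange, AlgHom.map_fieldRange, hi, hj,
      ← AlgHom.fieldRange_eq_map, IntermediateField.fieldRange_val]
  obtain ⟨aL, aH, tL, tH, h⟩ := cco_of_emb F L H M i' j' hij
  exact ⟨M, inferInstance, nM, inferInstance, aL, aH, tL, tH, h⟩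

end StarkR
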