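import Pool.Agent.Lib.MP_d9bae3_nt.SG.GBase

/-!
# Module SRG-CPhi: every radicand is of the form `Φ(a)` up to powers

Let `c ∈ L`, `c ≠ 0`, `p ∣ e`, such that for every `τ ∈ Gal(L/F)` and `j` with `τ(ζ) = ζ^j`: `τ(c) = c^j x^p` for some `x ∈ L`, `x ≠ 0`.  If `p` is prime to `[L:F]`, there are `a ∈ 𝓞 L` and `y ∈ L`, `y ≠ 0`, with `Φ(a) = c y^p`.
Plan.  For `τ` choose `j = j_τ` with `τ(ζ) = ζ^j` (`IsPrimitiveRoot.eq_pow_of_pow_eq_one`).  `τ(ζ)^(t_τ) = ζ` gives `j_τ t_τ ≡ 1` modulo `e` (`IsPrimitiveRoot.pow_eq_pow_iff...`; in `ℕ`: `ζ^(j t) = ζ^1`), hence modulo `p`.  In the group `Lˣ` modulo `p`-th powers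
(or with explicit integer exponents): `τ(c)^(t_τ) = c^(j_τ t_τ) x^(p t_τ) = c · (p-th power)`.  So for the extension `Φ'` of `Φ` to `L` (`Φ'(x) = ∏_τ τ(x)^(t_τ)`, multiplicative) `Φ'(c) = c^g · (p-th power)`, `g = [L:F] = #Gal(L/F)`.  Choose `u ∈ ℕ` with
`u g ≡ 1` modulo `p`: `Φ'(c^u) = c · (p-th power)`.  Choose a natural number `D ≥ 1` with `D c^u` integral; then `a = D^p c^u` (`= D^(p-1) (D c^u)`, `p ≥ 1`) is integral, and `Φ'(a) = Φ'(D)^p Φ'(c^u)`.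
(The case `p = 1` is trivial but need not be distinguished.)  The image of `twist t a` in `L` is `Φ'` of the image of `a` (`map_prod`, the action of `τ` on `𝓞 L` is the restriction of the action on `L`).
It may be convenient to work in `Lˣ` and to write `x ~ y` for `∃ z : Lˣ, x = y * z ^ p`, an equivalence relation compatible with products and powers.
-/

namespace StarkR

open NumberField IsDedekindDomain
open scoped Pointwise

variable {F L : Type} [Field F] [NumberField F] [Field L] [NumberField L] [Algebra F L]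

private lemma exists_mod_inv {p g : ℕ} (hp : 0 < p) (h : Nat.Coprime p g) :
    ∃ (u : ℕ) (s : ℤ), (u : ℤ) * g = 1 + p * s := by
  have h1 : IsCoprime (p : ℤ) (g : ℤ) := Nat.isCoprime_iff_coprime.2 h
  obtain ⟨a, b, hab⟩ := h1
  have hp' : (p : ℤ) ≠ 0 := by exact_mod_cast hp.ne'
  have h2 : 0 ≤ b % p := Int.emod_nonneg b hp'
  refine ⟨(b % p).toNat, -(a + g * (b / p)), ?_⟩
  rw [Int.toNat_of_nonneg h2]
  have h3 := Int.emod_add_mul_ediv b p
  linear_combination hab + g * h3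

theorem twist_radicand [IsGalois F L] {e : ℕ} (he : 0 < e) {ζ : L} (hζ : IsPrimitiveRoot ζ e) {t : Gal(L/F) → ℕ}
    (ht : IsInvCyc e ζ t) {p : ℕ} (hp : 0 < p) (hpe : p ∣ e) (hcop : Nat.Coprime p (Module.finrank F L)) {c : L} (hc : c ≠ 0)
    (h : ∀ (τ : Gal(L/F)) (j : ℕ), τ ζ = ζ ^ j → ∃ x : L, x ≠ 0 ∧ τ c = c ^ j * x ^ p) :
    ∃ (a : 𝓞 L) (y : L), y ≠ 0 ∧ ((twist t a : 𝓞 L) : L) = c * y ^ p := by
  classical
  have hζ0 : ζ ≠ 0 := hζ.ne_zero he.ne'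
  -- one conjugate
  have hone : ∀ τ : Gal(L/F), ∃ z : L, z ≠ 0 ∧ τ c ^ t τ = c * z ^ p := by
    intro τ
    have hpow : (τ ζ) ^ e = 1 := by rw [← map_pow, hζ.pow_eq_one, map_one]
    have hne : NeZero e := ⟨he.ne'⟩
    obtain ⟨j, -, hj⟩ := hζ.eq_pow_of_pow_eq_one hpow
    obtain ⟨x, hx0, hx⟩ := h τ j hj.symm
    have h1 : ζ ^ ((j * t τ : ℤ) - 1) = 1 := by
      rw [zpow_sub₀ hζ0, zpow_one]
      have h2 : ζ ^ (j * t τ : ℤ) = ζ := by
        have h3 := (ht τ).2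
        rw [← hj, ← pow_mul] at h3
        exact_mod_cast h3
      rw [h2, div_self hζ0]
    have h2 : (e : ℤ) ∣ (j * t τ : ℤ) - 1 := (hζ.zpow_eq_one_iff_dvd _).1 h1
    have h3 : (p : ℤ) ∣ (j * t τ : ℤ) - 1 := dvd_trans (by exact_mod_cast hpe) h2
    obtain ⟨s, hs⟩ := h3
    refine ⟨c ^ s * x ^ t τ, mul_ne_zero (zpow_ne_zero _ hc) (pow_ne_zero _ hx0), ?_⟩
    rw [hx, mul_pow, mul_pow, ← pow_mul, ← pow_mul, ← pow_mul]
    have h4 : c ^ (j * t τ) = c * (c ^ s) ^ p := by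
      have h5 : c ^ (j * t τ) = c ^ (j * t τ : ℤ) := by norm_cast
      have h6 : (j * t τ : ℤ) = 1 + s * p := by linear_combination hs
      rw [h5, h6, zpow_add₀ hc, zpow_one, zpow_mul]
      norm_cast
    rw [h4, mul_comm p (t τ)]
    ring
  choose z hz0 hz using hone
  -- the exponent
  obtain ⟨u, s, hus⟩ := exists_mod_inv hp hcop
  -- the denominator
  have halg : IsAlgebraic ℤ (c ^ u) := by
    have h1 : IsAlgebraic ℚ (c ^ u) := Algebra.IsAlgebraic.isAlgebraic _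
    exact (IsFractionRing.isAlgebraic_iff ℤ ℚ L).2 h1
  obtain ⟨D, hD0, hD⟩ := halg.exists_integral_multiple
  have hDL : (D : L) ≠ 0 := by exact_mod_cast hD0
  have hint : IsIntegral ℤ ((D : L) ^ p * c ^ u) := by
    obtain ⟨k, rfl⟩ : ∃ k, p = k + 1 := ⟨p - 1, by omega⟩
    have h1 : (D : L) ^ (k + 1) * c ^ u = (D : L) ^ k * (D • c ^ u) := by
      rw [zsmul_eq_mul]; ring
    rw [h1]
    exact (isIntegral_intCast D).pow k |>.mul hD
  set a : 𝓞 L := ⟨(D : L) ^ p * c ^ u, hint⟩ with ha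
  have haL : ((a : 𝓞 L) : L) = (D : L) ^ p * c ^ u := rfl
  have hsm : ∀ (τ : Gal(L/F)) (z : 𝓞 L), ((τ • z : 𝓞 L) : L) = τ (z : L) := by
    intro τ z
    exact algebraMap.smul' τ z L
  refine ⟨a, c ^ s * ∏ τ : Gal(L/F), ((D : L) ^ t τ * z τ ^ u), ?_, ?_⟩
  · refine mul_ne_zero (zpow_ne_zero _ hc) (Finset.prod_ne_zero_iff.2 fun τ _ => ?_)
    exact mul_ne_zero (pow_ne_zero _ hDL) (pow_ne_zero _ (hz0 τ))
  · unfold twist
    have h1 : (((∏ τ : Gal(L/F), (τ • a) ^ t τ : 𝓞 L)) : L) =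
        ∏ τ : Gal(L/F), (((τ • a : 𝓞 L) : L)) ^ t τ := by
      refine (map_prod (algebraMap (𝓞 L) L) (fun τ : Gal(L/F) => (τ • a) ^ t τ) _).trans ?_
      exact Finset.prod_congr rfl fun τ _ => map_pow (algebraMap (𝓞 L) L) _ _
    rw [h1]
    have h2 : ∀ τ : Gal(L/F), (((τ • a : 𝓞 L) : L)) ^ t τ =
        c ^ u * ((D : L) ^ t τ * z τ ^ u) ^ p := by
      intro τ
      rw [hsm, haL, map_mul, map_pow, map_pow, map_intCast]
      have h3 : ((D : L) ^ p * τ c ^ u) ^ t τ = ((D : L) ^ t τ) ^ p * (τ c ^ t τ) ^ u := by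
        ring
      rw [h3, hz]
      ring
    rw [Finset.prod_congr rfl fun τ _ => h2 τ, Finset.prod_mul_distrib, Finset.prod_const,
      Finset.card_univ, ← Nat.card_eq_fintype_card, IsGalois.card_aut_eq_finrank,
      Finset.prod_pow]
    have h4 : (c ^ u) ^ Module.finrank F L = c * (c ^ s) ^ p := by
      have h5 : (c ^ u) ^ Module.finrank F L = c ^ ((u : ℤ) * Module.finrank F L) := by
        rw [← pow_mul]; norm_cast
      rw [h5, hus, zpow_add₀ hc, zpow_one, mul_comm (p : ℤ) s, zpow_mul]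
      norm_cast
    rw [h4, mul_pow]
    ring

end StarkR
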