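import Pool.Agent.Lib.MP_d9bae3_nt.SG.GBase

/-!
# Module SRG-CRad: all radicands occur

Plan.
* `rad_twist`: `twist t` is multiplicative and `twist t 1 = 1` (`Finset.prod_mul_distrib`, `Finset.prod_comm`).
* `exists_rad`: if `2 ≤ n_i`, let `u_i ∈ V n` have the coordinate `1` at `i` and `0` elsewhere (`Pi.single i 1`).  Put `b_v = a_i` if `v = u_i` for an `i` with `2 ≤ n_i` (unique), and `b_v = 1` otherwise.  `rad b i = ∏_v b_v^(v i).val`: only `v = u_i` contributes
  (for `v = u_k`, `k ≠ i`, the exponent is `0`), with exponent `(1 : ZMod (n i)).val = 1`.  (E.g. write `b v = ∏_k if v = u_k ∧ 2 ≤ n k then a k else 1`.)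
-/

namespace StarkR

open NumberField IsDedekindDomain
open scoped Pointwise

variable {F L : Type} [Field F] [NumberField F] [Field L] [NumberField L] [Algebra F L]
variable {m : ℕ} {n : Fin m → ℕ} [∀ i, NeZero (n i)]

theorem rad_twist (t : Gal(L/F) → ℕ) (b : V n → 𝓞 L) (i : Fin m) :
    rad (fun v => twist t (b v)) i = twist t (rad b i) := by
  unfold rad twist
  have h1 : ∀ v : V n, (∏ τ : Gal(L/F), (τ • b v) ^ t τ) ^ (v i).val =
      ∏ τ : Gal(L/F), ((τ • b v) ^ (v i).val) ^ t τ := by
    intro v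
    rw [← Finset.prod_pow]
    refine Finset.prod_congr rfl fun τ _ => ?_
    rw [← pow_mul, ← pow_mul, mul_comm]
  rw [Finset.prod_congr rfl fun v _ => h1 v, Finset.prod_comm]
  refine Finset.prod_congr rfl fun τ _ => ?_
  rw [Finset.prod_pow, Finset.smul_prod']
  congr 1
  refine Finset.prod_congr rfl fun v _ => ?_
  rw [smul_pow']

theorem exists_rad (a : Fin m → 𝓞 L) : ∃ b : V n → 𝓞 L, ∀ i, rad b i = if n i = 1 then 1 else a i := by
  classical
  refine ⟨fun v => ∏ k : Fin m, if v = Pi.single k 1 ∧ n k ≠ 1 then a k else 1, fun i => ?_⟩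
  unfold rad
  have h1 : ∀ v : V n, (∏ k : Fin m, if v = Pi.single k 1 ∧ n k ≠ 1 then a k else 1) ^ (v i).val =
      ∏ k : Fin m, (if v = Pi.single k 1 ∧ n k ≠ 1 then a k else 1) ^ (v i).val := fun v =>
    (Finset.prod_pow _ _ _).symm
  rw [Finset.prod_congr rfl fun v _ => h1 v, Finset.prod_comm]
  have h2 : ∀ k : Fin m, ∏ v : V n, (if v = Pi.single k 1 ∧ n k ≠ 1 then a k else 1) ^ (v i).val =
      if k = i then (if n i = 1 then 1 else a i) else 1 := by
    intro k
    by_cases hk : n k = 1
    · have h3 : ∀ v : V n, (if v = Pi.single k 1 ∧ n k ≠ 1 then a k else 1) ^ (v i).val = 1 := by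
        intro v
        rw [if_neg (fun h => h.2 hk), one_pow]
      rw [Finset.prod_eq_one fun v _ => h3 v]
      by_cases hki : k = i
      · subst hki
        rw [if_pos rfl, if_pos hk]
      · rw [if_neg hki]
    · rw [Finset.prod_eq_single (Pi.single k 1 : V n)]
      · rw [if_pos ⟨rfl, hk⟩]
        by_cases hki : k = i
        · subst hki
          rw [if_pos rfl, if_neg hk, Pi.single_eq_same, ZMod.val_one'' hk, pow_one]
        · rw [if_neg hki, Pi.single_eq_of_ne (Ne.symm hki), ZMod.val_zero, pow_zero]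
      · intro v _ hv
        rw [if_neg (fun h => hv h.1), one_pow]
      · intro h
        exact absurd (Finset.mem_univ _) h
  rw [Finset.prod_congr rfl fun k _ => h2 k, Finset.prod_ite_eq' Finset.univ i]
  simp

end StarkR
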