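import Pool.Agent.Lib.MP_d9bae3_nt.SG.CCo
import Pool.Agent.Lib.MP_d9bae3_nt.SG.CHil
import Pool.Agent.Lib.MP_d9bae3_nt.SG.CEig
import Pool.Agent.Lib.MP_d9bae3_nt.SG.CPhi
import Pool.Agent.Lib.MP_d9bae3_nt.SG.CRad
import Pool.Agent.Lib.MP_d9bae3_nt.SG.GRam

/-!
# Module SRG-CMain: if `[L:F]` is prime to `e`, all extensions of `F` with a group contained in `∏ ℤ/n_i` belong to the family
-/

namespace StarkR

open NumberField IsDedekindDomain
open scoped Pointwise

variable {F L : Type} [Field F] [NumberField F] [Field L] [NumberField L] [Algebra F L]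
variable {m : ℕ} {n : Fin m → ℕ} [∀ i, NeZero (n i)]

theorem complete [IsAbelianGalois F L] {e : ℕ} (he : 0 < e) {ζ : L} (hζ : IsPrimitiveRoot ζ e) {t : Gal(L/F) → ℕ}
    (ht : IsInvCyc e ζ t) (hn : ∀ i, n i ∣ e) (hcop : Nat.Coprime e (Module.finrank F L)) (H : Type) [Field H]
    [NumberField H] [Algebra F H] [IsGalois F H] (g : Gal(H/F) →* Multiplicative (V n)) (hg : Function.Injective g) :
    ∃ (b : V n → 𝓞 L) (M : Type) (_ : Field M) (_ : NumberField M) (_ : Algebra F M) (_ : Algebra L M) (_ : Algebra H M)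
      (_ : IsScalarTower F L M) (_ : IsScalarTower F H M) (α : Fin m → M),
      IsExt (fun v => twist t (b v)) M α ∧ IsCompositum L H M := by
  classical
  have hH : IsAbelianGalois F H := { is_comm.comm := fun x y => hg (by rw [map_mul, map_mul, mul_comm]) }
  obtain ⟨M, i1, i2, i3, i4, i5, i6, i7, hc, hab⟩ := exists_comp F L H
  have hgalL : IsGalois L M := IsGalois.tower_top_of_isGalois F L M
  obtain ⟨α, hα0, hα, hgen⟩ := kummer_gen he hζ hn (g.comp (resLH F L H M)) (hg.comp (resLH_injective hc))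
  choose c hcc using kummer_mem hζ hn hα
  have hc0 : ∀ i, c i ≠ 0 := by
    intro i h0
    have h1 := hcc i
    rw [h0, map_zero] at h1
    exact hα0 i ((pow_eq_zero_iff (NeZero.ne (n i))).1 h1)
  have hrad : ∀ i, ∃ (a : 𝓞 L) (y : L), y ≠ 0 ∧ ((twist t a : 𝓞 L) : L) = c i * y ^ n i := by
    intro i
    refine twist_radicand he hζ ht (Nat.pos_of_ne_zero (NeZero.ne (n i))) (hn i)
      (Nat.Coprime.coprime_dvd_left (hn i) hcop) (hc0 i) ?_
    intro τ j hj
    obtain ⟨σ, hσ⟩ := AlgEquiv.restrictNormalHom_surjective (F := F) (K₁ := L) M τ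
    have hres : ∀ x : L, σ (algebraMap L M x) = algebraMap L M (τ x) := by
      intro x
      rw [← hσ]
      exact (AlgEquiv.restrictNormal_commutes σ L x).symm
    obtain ⟨x, hx0, hx⟩ := kummer_eig hn hα0 hα σ j (by rw [hres, hj]) i
    refine ⟨x, hx0, (algebraMap L M).injective ?_⟩
    rw [← hres, ← hcc, map_pow, hx, map_mul, map_pow, map_pow, ← hcc, mul_pow, ← pow_mul, ← pow_mul, mul_comm j (n i)]
  choose a y hy0 hay using hrad
  obtain ⟨b, hb⟩ := exists_rad (n := n) a
  refine ⟨b, M, i1, i2, i3, i4, i5, i6, i7, fun i => if n i = 1 then 1 else α i * algebraMap L M (y i), ⟨?_, ?_⟩, hc⟩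
  · intro i
    rw [rad_twist, hb]
    by_cases h1 : n i = 1
    · have h2 : twist t (1 : 𝓞 L) = 1 := by
        unfold twist
        simp
      rw [if_pos h1, if_pos h1, h2, one_pow]
      simp
    · rw [if_neg h1, if_neg h1, hay, mul_pow, hcc, map_mul, map_pow]
  · rw [← top_le_iff, ← hgen, IntermediateField.adjoin_le_iff]
    rintro _ ⟨i, rfl⟩
    by_cases h1 : n i = 1
    · have h2 := hcc i
      rw [h1, pow_one] at h2
      rw [h2]
      exact IntermediateField.algebraMap_mem _ _
    · have h2 : α i * algebraMap L M (y i) ∈ IntermediateField.adjoin L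
          (Set.range fun i => if n i = 1 then (1 : M) else α i * algebraMap L M (y i)) := by
        refine IntermediateField.subset_adjoin _ _ ⟨i, ?_⟩
        simp only [if_neg h1]
      have h3 : α i = (α i * algebraMap L M (y i)) / algebraMap L M (y i) := by
        rw [mul_div_cancel_right₀]
        exact (map_ne_zero _).2 (hy0 i)
      rw [h3]
      exact div_mem h2 (IntermediateField.algebraMap_mem _ _)

end StarkR
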