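import Pool.Agent.Lib.MP_d9bae3_nt.SK.Cls

/-!
# Module SRG-GBC: a Borel-Cantelli lemma for classes modulo ideals

`dcl J P` is the density of the vectors `b : ι → 𝓞 F` with the property `P`, which depends only on the class of `b` modulo the ideal `J`.
-/

set_option linter.unusedSectionVars false

namespace StarkR

open NumberField IsDedekindDomain NFHP Filter Topology

variable {F : Type} [Field F] [NumberField F] {ι : Type} [Fintype ι]

/-- the density of the property `P` of the classes modulo `J` -/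
noncomputable def dcl (J : Ideal (𝓞 F)) (P : (ι → 𝓞 F) → Prop) : ℝ :=
  (Set.ncard {s : ι → 𝓞 F ⧸ J | ∃ b : ι → 𝓞 F, (∀ w, Ideal.Quotient.mk J (b w) = s w) ∧ P b} : ℝ) /
    (Ideal.absNorm J : ℝ) ^ Fintype.card ι

theorem dcl_nonneg (J : Ideal (𝓞 F)) (P : (ι → 𝓞 F) → Prop) : 0 ≤ dcl J P := by
  unfold dcl
  positivity

/-- the frequency of `P` -/
theorem dcl_freq {J : Ideal (𝓞 F)} (hJ : J ≠ ⊥) {P : (ι → 𝓞 F) → Prop}
    (hP : ∀ b b' : ι → 𝓞 F, (∀ w, b w - b' w ∈ J) → P b → P b') :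
    Tendsto (fun R : ℕ => (Set.ncard {b : ι → 𝓞 F | b ∈ CBox F ι R ∧ P b} : ℝ) /
      ((CBox F ι R).ncard : ℝ)) atTop (𝓝 (dcl J P)) := by
  have h := cls_freq (ι := ι) J hJ {s : ι → 𝓞 F ⧸ J | ∃ b : ι → 𝓞 F, (∀ w, Ideal.Quotient.mk J (b w) = s w) ∧ P b}
  refine h.congr fun R => ?_
  have hset : {b : ι → 𝓞 F | b ∈ CBox F ι R ∧ (fun t => Ideal.Quotient.mk J (b t)) ∈
      {s : ι → 𝓞 F ⧸ J | ∃ b : ι → 𝓞 F, (∀ w, Ideal.Quotient.mk J (b w) = s w) ∧ P b}} =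
      {b : ι → 𝓞 F | b ∈ CBox F ι R ∧ P b} := by
    ext b
    refine and_congr_right fun _ => ⟨?_, fun hb => ⟨b, fun w => rfl, hb⟩⟩
    rintro ⟨b', hb', hE⟩
    exact hP b' b (fun w => (Ideal.Quotient.mk_eq_mk_iff_sub_mem (b' w) (b w)).1 (hb' w)) hE
  rw [hset]

theorem dcl_pair {J J' : Ideal (𝓞 F)} (hJ : J ≠ ⊥) (hJ' : J' ≠ ⊥) (h : IsCoprime J J') {P P' : (ι → 𝓞 F) → Prop}
    (hP : ∀ b b' : ι → 𝓞 F, (∀ w, b w - b' w ∈ J) → P b → P b')
    (hP' : ∀ b b' : ι → 𝓞 F, (∀ w, b w - b' w ∈ J') → P' b → P' b') :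
    dcl (J * J') (fun b => P b ∧ P' b) = dcl J P * dcl J' P' := by
  classical
  set Φ := Ideal.quotientMulEquivQuotientProd J J' h with hΦ
  have hfst : ∀ x : 𝓞 F, (Φ (Ideal.Quotient.mk _ x)).1 = Ideal.Quotient.mk J x := by
    intro x
    rw [hΦ, Ideal.quotientMulEquivQuotientProd_fst, Ideal.Quotient.factor_mk]
  have hsnd : ∀ x : 𝓞 F, (Φ (Ideal.Quotient.mk _ x)).2 = Ideal.Quotient.mk J' x := by
    intro x
    rw [hΦ, Ideal.quotientMulEquivQuotientProd_snd, Ideal.Quotient.factor_mk]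
  let Ψ : (ι → 𝓞 F ⧸ (J * J')) ≃ (ι → 𝓞 F ⧸ J) × (ι → 𝓞 F ⧸ J') :=
    (Equiv.arrowCongr (Equiv.refl _) Φ.toEquiv).trans (Equiv.arrowProdEquivProdArrow _ _ _)
  have hΨ1 : ∀ s w, (Ψ s).1 w = (Φ (s w)).1 := fun s w => rfl
  have hΨ2 : ∀ s w, (Ψ s).2 w = (Φ (s w)).2 := fun s w => rfl
  have himg : Ψ '' {s : ι → 𝓞 F ⧸ (J * J') | ∃ b : ι → 𝓞 F, (∀ w, Ideal.Quotient.mk (J * J') (b w) = s w) ∧ (P b ∧ P' b)} =
      {s : ι → 𝓞 F ⧸ J | ∃ b : ι → 𝓞 F, (∀ w, Ideal.Quotient.mk J (b w) = s w) ∧ P b} ×ˢ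
      {s : ι → 𝓞 F ⧸ J' | ∃ b : ι → 𝓞 F, (∀ w, Ideal.Quotient.mk J' (b w) = s w) ∧ P' b} := by
    ext ⟨s1, s2⟩
    constructor
    · rintro ⟨s, ⟨b, hb, hE, hE'⟩, hs⟩
      have hs1 : s1 = (Ψ s).1 := by rw [hs]
      have hs2 : s2 = (Ψ s).2 := by rw [hs]
      refine ⟨⟨b, fun w => ?_, hE⟩, ⟨b, fun w => ?_, hE'⟩⟩
      · simp only
        rw [hs1, hΨ1, ← hb w, hfst]
      · simp only
        rw [hs2, hΨ2, ← hb w, hsnd]
    · rintro ⟨⟨b1, hb1, hE1⟩, ⟨b2, hb2, hE2⟩⟩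
      simp only at hb1 hb2
      refine ⟨Ψ.symm (s1, s2), ?_, Ψ.apply_symm_apply _⟩
      choose b hb using fun w => Ideal.Quotient.mk_surjective (Ψ.symm (s1, s2) w)
      have h1 : ∀ w, Ideal.Quotient.mk J (b w) = s1 w := by
        intro w
        have h2 := hΨ1 (Ψ.symm (s1, s2)) w
        rw [Ψ.apply_symm_apply, ← hb w, hfst] at h2
        exact h2.symm
      have h1' : ∀ w, Ideal.Quotient.mk J' (b w) = s2 w := by
        intro w
        have h2 := hΨ2 (Ψ.symm (s1, s2)) w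
        rw [Ψ.apply_symm_apply, ← hb w, hsnd] at h2
        exact h2.symm
      refine ⟨b, hb, hP b1 b (fun w => ?_) hE1, hP' b2 b (fun w => ?_) hE2⟩
      · rw [← Ideal.Quotient.eq, hb1, h1]
      · rw [← Ideal.Quotient.eq, hb2, h1']
  unfold dcl
  rw [← Set.ncard_image_of_injective _ Ψ.injective, himg, Set.ncard_prod, map_mul]
  push_cast
  rw [mul_pow, div_mul_div_comm]

private theorem bc_count (R : ℕ) (P : (ι → 𝓞 F) → Prop) [DecidablePred P] :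
    (∑ b ∈ (CBox_finite (F := F) (ι := ι) R).toFinset, (if P b then (1 : ℝ) else 0)) =
      (Set.ncard {b : ι → 𝓞 F | b ∈ CBox F ι R ∧ P b} : ℝ) := by
  rw [Finset.sum_boole, ← Set.ncard_coe_finset]
  congr 2
  ext b
  simp

theorem bc {κ : Type} (J : κ → Ideal (𝓞 F)) (hJ : ∀ a, J a ≠ ⊥) (P : κ → (ι → 𝓞 F) → Prop)
    (hP : ∀ (a : κ) (b b' : ι → 𝓞 F), (∀ w, b w - b' w ∈ J a) → P a b → P a b') (k : ℕ) (ε : ℝ) (hε : 0 < ε)
    (A : Finset κ) (hA : ∀ a ∈ A, ∀ a' ∈ A, a ≠ a' → IsCoprime (J a) (J a'))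
    (hs : max (2 * (k : ℝ) + 1) (8 / ε) ≤ ∑ a ∈ A, dcl (J a) (P a)) :
    ∀ᶠ R : ℕ in atTop, (Set.ncard {b : ι → 𝓞 F | b ∈ CBox F ι R ∧
      ¬ ∃ A' ⊆ A, k ≤ A'.card ∧ ∀ a ∈ A', P a b} : ℝ) ≤ ε * ((CBox F ι R).ncard : ℝ) := by
  classical
  set dens : κ → ℝ := fun a => dcl (J a) (P a) with hdens
  set Δ : ℝ := ∑ q ∈ A, dens q with hΔdef
  have hΔ : max (2 * (k : ℝ) + 1) (8 / ε) ≤ Δ := hs
  have hΔk : 2 * (k : ℝ) + 1 ≤ Δ := (le_max_left _ _).trans hΔ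
  have hΔε : 8 / ε ≤ Δ := (le_max_right _ _).trans hΔ
  have hk0 : (0 : ℝ) ≤ k := Nat.cast_nonneg k
  have hΔ1 : 1 ≤ Δ := by linarith
  have hΔ0 : 0 < Δ := by linarith
  -- the finite sets
  let s : ℕ → Finset (ι → 𝓞 F) := fun R => (CBox_finite (F := F) (ι := ι) R).toFinset
  have hscard : ∀ R, ((s R).card : ℝ) = ((CBox F ι R).ncard : ℝ) := by
    intro R
    rw [Set.ncard_eq_toFinset_card _ (CBox_finite (F := F) (ι := ι) R)]
  let I : (ι → 𝓞 F) → κ → ℝ := fun b q => if P q b then 1 else 0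
  let n1 : κ → ℕ → ℝ := fun q R =>
    (Set.ncard {b : ι → 𝓞 F | b ∈ CBox F ι R ∧ P q b} : ℝ)
  let n2 : κ → κ → ℕ → ℝ := fun q q' R =>
    (Set.ncard {b : ι → 𝓞 F | b ∈ CBox F ι R ∧ (P q b ∧ P q' b)} : ℝ)
  have hI1 : ∀ q R, ∑ b ∈ s R, I b q = n1 q R := fun q R => bc_count R _
  have hI2 : ∀ q q' R, ∑ b ∈ s R, I b q * I b q' = n2 q q' R := by
    intro q q' R
    refine Eq.trans ?_ (bc_count R (fun b => P q b ∧ P q' b))
    refine Finset.sum_congr rfl fun b _ => ?_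
    by_cases h1 : P q b <;> by_cases h2 : P q' b <;> simp [I, h1, h2]
  -- the second moment
  have hmom : ∀ R, ∑ b ∈ s R, (∑ q ∈ A, I b q - Δ) ^ 2 =
      ∑ q ∈ A, ∑ q' ∈ A, n2 q q' R - 2 * Δ * ∑ q ∈ A, n1 q R + Δ ^ 2 * (s R).card := by
    intro R
    have h1 : ∀ b, (∑ q ∈ A, I b q - Δ) ^ 2 =
        ∑ q ∈ A, ∑ q' ∈ A, I b q * I b q' - 2 * Δ * ∑ q ∈ A, I b q + Δ ^ 2 := by
      intro b
      rw [← Finset.sum_mul_sum]
      ring
    simp only [h1]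
    rw [Finset.sum_add_distrib, Finset.sum_sub_distrib, ← Finset.mul_sum, Finset.sum_const,
      nsmul_eq_mul, Finset.sum_comm]
    congr 1
    · congr 1
      · refine Finset.sum_congr rfl fun q _ => ?_
        rw [Finset.sum_comm]
        exact Finset.sum_congr rfl fun q' _ => hI2 q q' R
      · congr 1
        rw [Finset.sum_comm]
        exact Finset.sum_congr rfl fun q _ => hI1 q R
    · ring
  -- the limits
  let C : ℕ → ℝ := fun R => ((CBox F ι R).ncard : ℝ)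
  have hCpos : ∀ R, 0 < C R := by
    intro R
    show (0 : ℝ) < ((CBox F ι R).ncard : ℝ)
    rw [CBox_card]
    positivity
  have ht1 : ∀ q, Tendsto (fun R => n1 q R / C R) atTop (𝓝 (dens q)) :=
    fun q => dcl_freq (hJ q) (hP q)
  have ht2 : ∀ q ∈ A, ∀ q' ∈ A, Tendsto (fun R => n2 q q' R / C R) atTop
      (𝓝 (if q = q' then dens q else dens q * dens q')) := by
    intro q hq q' hq'
    by_cases hqq : q = q'
    · subst hqq
      rw [if_pos rfl]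
      refine (ht1 q).congr fun R => ?_
      have hset : {b : ι → 𝓞 F | b ∈ CBox F ι R ∧ (P q b ∧ P q b)} =
          {b : ι → 𝓞 F | b ∈ CBox F ι R ∧ P q b} := by
        ext b
        simp
      show n1 q R / C R = n2 q q R / C R
      simp only [n1, n2, hset]
    · rw [if_neg hqq]
      have h1 := dcl_freq (ι := ι) (J := J q * J q') (mul_ne_zero (hJ q) (hJ q')) (P := fun b => P q b ∧ P q' b)
        (fun b b' h hb => ⟨hP q b b' (fun w => Ideal.mul_le_left (I := J q) (J := J q') (h w)) hb.1,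
          hP q' b b' (fun w => Ideal.mul_le_right (I := J q) (J := J q') (h w)) hb.2⟩)
      rw [dcl_pair (hJ q) (hJ q') (hA q hq q' hq' hqq) (hP q) (hP q')] at h1
      exact h1
  set L : ℝ := ∑ q ∈ A, ∑ q' ∈ A, (if q = q' then dens q else dens q * dens q') -
    2 * Δ * ∑ q ∈ A, dens q + Δ ^ 2 with hL
  have htL : Tendsto (fun R => (∑ b ∈ s R, (∑ q ∈ A, I b q - Δ) ^ 2) / C R) atTop (𝓝 L) := by
    have h1 : Tendsto (fun R => ∑ q ∈ A, ∑ q' ∈ A, n2 q q' R / C R -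
        2 * Δ * ∑ q ∈ A, n1 q R / C R + Δ ^ 2) atTop (𝓝 L) := by
      refine Tendsto.add (Tendsto.sub ?_ (Tendsto.const_mul _ ?_)) tendsto_const_nhds
      · exact tendsto_finsetSum _ fun q hq => tendsto_finsetSum _ fun q' hq' => ht2 q hq q' hq'
      · exact tendsto_finsetSum _ fun q _ => ht1 q
    refine h1.congr fun R => ?_
    have hC := (hCpos R).ne'
    rw [hmom, hscard]
    simp only [← Finset.sum_div]
    show _ = (∑ q ∈ A, ∑ q' ∈ A, n2 q q' R - 2 * Δ * ∑ q ∈ A, n1 q R + Δ ^ 2 * C R) / C R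
    field_simp
  have hLle : L ≤ Δ := by
    have h1 : ∑ q ∈ A, ∑ q' ∈ A, (if q = q' then dens q else dens q * dens q') ≤
        ∑ q ∈ A, ∑ q' ∈ A, ((if q = q' then dens q else 0) +
          dens q * dens q') := by
      refine Finset.sum_le_sum fun q _ => Finset.sum_le_sum fun q' _ => ?_
      have h0 : ∀ p : κ, 0 ≤ dens p := fun p => dcl_nonneg _ _
      split_ifs
      · linarith [mul_nonneg (h0 q) (h0 q')]
      · linarith
    have h2 : ∑ q ∈ A, ∑ q' ∈ A, ((if q = q' then dens q else 0) +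
        dens q * dens q') = Δ + Δ ^ 2 := by
      simp only [Finset.sum_add_distrib, Finset.sum_ite_eq]
      rw [← Finset.sum_mul_sum, sq]
      congr 1
      exact Finset.sum_congr rfl fun q hq => if_pos hq
    rw [hL]
    nlinarith
  have hev : ∀ᶠ R in atTop, (∑ b ∈ s R, (∑ q ∈ A, I b q - Δ) ^ 2) / C R < Δ + 1 :=
    htL.eventually_lt_const (by linarith)
  refine hev.mono fun R hR => ?_
  rw [div_lt_iff₀ (hCpos R)] at hR
  have hsub : {b : ι → 𝓞 F | b ∈ CBox F ι R ∧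
      ¬ ∃ A' ⊆ A, k ≤ A'.card ∧ ∀ a ∈ A', P a b} ⊆
      (((s R).filter fun b => ∑ q ∈ A, I b q < (k : ℝ) : Finset (ι → 𝓞 F)) :
        Set (ι → 𝓞 F)) := by
    rintro b ⟨hb, hno⟩
    rw [Finset.mem_coe, Finset.mem_filter]
    refine ⟨(Set.Finite.mem_toFinset _).2 hb, ?_⟩
    by_contra hcon
    rw [not_lt] at hcon
    refine hno ⟨A.filter fun q => P q b, Finset.filter_subset _ _, ?_, fun q hq => ?_⟩
    · have h1 : ∑ q ∈ A, I b q = ((A.filter fun q => P q b).card : ℝ) :=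
        Finset.sum_boole _ _
      rw [h1] at hcon
      exact_mod_cast hcon
    · rw [Finset.mem_filter] at hq
      exact hq.2
  have hcard : (Set.ncard {b : ι → 𝓞 F | b ∈ CBox F ι R ∧
      ¬ ∃ A' ⊆ A, k ≤ A'.card ∧ ∀ a ∈ A', P a b} : ℝ) ≤
      (((s R).filter fun b => ∑ q ∈ A, I b q < (k : ℝ)).card : ℝ) := by
    have h1 := Set.ncard_le_ncard hsub (Finset.finite_toSet _)
    rw [Set.ncard_coe_finset] at h1
    exact_mod_cast h1
  have hmark : (((s R).filter fun b => ∑ q ∈ A, I b q < (k : ℝ)).card : ℝ) * (Δ ^ 2 / 4) ≤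
      ∑ b ∈ s R, (∑ q ∈ A, I b q - Δ) ^ 2 := by
    calc (((s R).filter fun b => ∑ q ∈ A, I b q < (k : ℝ)).card : ℝ) * (Δ ^ 2 / 4)
        = ∑ b ∈ (s R).filter (fun b => ∑ q ∈ A, I b q < (k : ℝ)), (Δ ^ 2 / 4) := by
          rw [Finset.sum_const, nsmul_eq_mul]
      _ ≤ ∑ b ∈ (s R).filter (fun b => ∑ q ∈ A, I b q < (k : ℝ)),
          (∑ q ∈ A, I b q - Δ) ^ 2 := by
          refine Finset.sum_le_sum fun b hb => ?_
          have h1 := (Finset.mem_filter.1 hb).2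
          have h2 : Δ / 2 ≤ Δ - ∑ q ∈ A, I b q := by linarith
          have h3 : (Δ / 2) ^ 2 ≤ (Δ - ∑ q ∈ A, I b q) ^ 2 :=
            pow_le_pow_left₀ (by positivity) h2 2
          nlinarith
      _ ≤ ∑ b ∈ s R, (∑ q ∈ A, I b q - Δ) ^ 2 :=
          Finset.sum_le_sum_of_subset_of_nonneg (Finset.filter_subset _ _)
            fun _ _ _ => sq_nonneg _
  refine hcard.trans ?_
  have hC := hCpos R
  show _ ≤ ε * C R
  have h8 : 8 ≤ ε * Δ := by
    have := (div_le_iff₀ hε).1 hΔε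
    linarith [mul_comm Δ ε]
  set x : ℝ := (((s R).filter fun b => ∑ q ∈ A, I b q < (k : ℝ)).card : ℝ) with hx
  have h9 : x * (Δ ^ 2 / 4) ≤ (Δ + 1) * C R := hmark.trans hR.le
  have h10 : x * (Δ ^ 2 / 4) ≤ (ε * C R) * (Δ ^ 2 / 4) := by
    refine h9.trans ?_
    have h11 : (Δ + 1) ≤ ε * (Δ ^ 2 / 4) := by nlinarith
    calc (Δ + 1) * C R ≤ (ε * (Δ ^ 2 / 4)) * C R := mul_le_mul_of_nonneg_right h11 hC.le
      _ = _ := by ring
  exact le_of_mul_le_mul_right h10 (by positivity)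

end StarkR
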