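import Pool.Agent.Lib.MP_d9bae3_nt.SK.Dens
import Pool.Agent.Lib.MP_d9bae3_nt.SG.GBase
import Pool.Agent.Lib.MP_d9bae3_nt.SG.GBC

/-!
# Module SRG-GDens: the local density of `GEv`

`JQ F Q = ∏_τ (τ Q)^2`.
* `gev_congr`: `b_w - b'_w ∈ (τ⁻¹ Q)^2` for all `τ` (`JQ` is contained in every factor), so `τ(b_w) - τ(b'_w) ∈ Q^2 ⊆ Q`.
* `JQ_coprime`: the primes `τ Q` and `τ' Q'` are different, hence coprime; products and powers of coprime ideals are coprime (`IsCoprime.prod_left` ..., `Ideal.isCoprime_of_isMaximal`).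
* `gdens_ge`: `g = #Gal(L/F)`; the stabiliser of `Q` is trivial, so the `τ Q` are different primes, with the same norm `N`, and
  `𝓞 ⧸ JQ ≃ ∏_τ 𝓞 ⧸ (τ Q)^2` (`IsDedekindDomain.quotientEquivPiOfProdEq` or `Ideal.quotientInfRingEquivPiQuotient`).
  The classes of `GEv` modulo `JQ` contain (are) the product over all `(w, τ)` of the sets: `cellA Q` for `(v, 1)`, and `cellB e (τ Q)` for the others (SK/Dens.lean; `τ(b_w)` is a nonzero
  `e`-th power residue modulo `Q` for all `τ` iff `b_w` is one modulo `τ⁻¹ Q` for all `τ`).  By `cellA_card`, `cellB_card`, `powSet_card` (as in `dens_ge`): `|cellA Q| ≥ N/2`, `|cellB e (τ Q)| ≥ N^2/(2e)`,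
  so the density is `≥ 1/(2N) · (1/(2e))^(g |V| - 1) ≥ (1/(2e))^(g |V|)/N`.
-/

set_option linter.unusedSectionVars false

namespace StarkR

open NumberField IsDedekindDomain
open scoped Pointwise

variable (F : Type) {L : Type} [Field F] [NumberField F] [Field L] [NumberField L] [Algebra F L]
variable {m : ℕ} {n : Fin m → ℕ} [∀ i, NeZero (n i)]

/-- the product of the squares of the conjugates of `Q` -/
noncomputable def JQ (Q : Prm L) : Ideal (𝓞 L) := ∏ τ : Gal(L/F), (τ • Q.asIdeal) ^ 2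

/-- the conjugate prime `τ Q` -/
private noncomputable def cj (τ : Gal(L/F)) (Q : Prm L) : Prm L where
  asIdeal := τ • Q.asIdeal
  isPrime := by
    have := Q.isPrime
    exact Ideal.IsPrime.smul τ
  ne_bot := by
    intro h
    apply Q.ne_bot
    have h1 := congrArg (fun I => τ⁻¹ • I) h
    simpa using h1

private lemma cj_nm (τ : Gal(L/F)) (Q : Prm L) : nm (cj F τ Q) = nm Q := by
  rw [← card_Q, ← card_Q]
  refine (Nat.card_congr (Ideal.quotientEquiv Q.asIdeal (τ • Q.asIdeal)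
    (MulSemiringAction.toRingEquiv (Gal(L/F)) (𝓞 L) τ) ?_).toEquiv).symm
  rw [Ideal.pointwise_smul_def]
  rfl

theorem JQ_ne_bot (Q : Prm L) : JQ F Q ≠ ⊥ := by
  unfold JQ
  rw [← Ideal.zero_eq_bot, Finset.prod_ne_zero_iff]
  intro τ _
  exact pow_ne_zero 2 (cj F τ Q).ne_bot

private lemma JQ_le (Q : Prm L) (τ : Gal(L/F)) : JQ F Q ≤ (τ • Q.asIdeal) ^ 2 := by
  unfold JQ
  exact (Ideal.prod_le_inf).trans (Finset.inf_le (Finset.mem_univ τ))

private lemma JQ_le' (Q : Prm L) (τ : Gal(L/F)) {x : 𝓞 L} (hx : x ∈ JQ F Q) : τ • x ∈ Q.asIdeal := by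
  have h1 := JQ_le F Q τ⁻¹ hx
  have h2 := Ideal.pow_le_self two_ne_zero h1
  exact Ideal.mem_inv_pointwise_smul_iff.1 h2

theorem gev_congr {e : ℕ} {v : V n} {b b' : V n → 𝓞 L} {Q : Prm L}
    (h : ∀ w, b w - b' w ∈ JQ F Q) (hb : GEv F e v b Q) : GEv F e v b' Q := by
  have h1 : ∀ w (τ : Gal(L/F)), τ • b w - τ • b' w ∈ Q.asIdeal := fun w τ => by
    rw [← smul_sub]; exact JQ_le' F Q τ (h w)
  have h2 : ∀ w, b w - b' w ∈ Q.asIdeal ^ 2 := fun w => by
    have := JQ_le F Q 1 (h w)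
    rwa [one_smul] at this
  have h3 : b v - b' v ∈ Q.asIdeal := Ideal.pow_le_self two_ne_zero (h2 v)
  refine ⟨?_, fun hv => hb.2.1 ?_, fun w τ hw => ⟨fun hw2 => (hb.2.2 w τ hw).1 ?_, ?_⟩⟩
  · have := Q.asIdeal.sub_mem hb.1 h3
    simpa using this
  · have := (Q.asIdeal ^ 2).add_mem (h2 v) hv
    simpa using this
  · have := Q.asIdeal.add_mem (h1 w τ) hw2
    simpa using this
  · obtain ⟨x, hx⟩ := (hb.2.2 w τ hw).2
    refine ⟨x, ?_⟩
    have := Q.asIdeal.sub_mem hx (h1 w τ)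
    have h4 : τ • b w - x ^ e - (τ • b w - τ • b' w) = τ • b' w - x ^ e := by ring
    rwa [h4] at this

theorem JQ_coprime {Q Q' : Prm L} (h : ∀ τ : Gal(L/F), τ • Q.asIdeal ≠ Q'.asIdeal) : IsCoprime (JQ F Q) (JQ F Q') := by
  unfold JQ
  refine IsCoprime.prod_left fun τ _ => IsCoprime.prod_right fun τ' _ => IsCoprime.pow ?_
  have h1 : (cj F τ Q).asIdeal.IsMaximal := (cj F τ Q).isMaximal
  have h2 : (cj F τ' Q').asIdeal.IsMaximal := (cj F τ' Q').isMaximal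
  have h3 : IsCoprime (cj F τ Q).asIdeal (cj F τ' Q').asIdeal := by
    refine Ideal.isCoprime_of_isMaximal ?_
    intro hc
    have hc' : τ • Q.asIdeal = τ' • Q'.asIdeal := hc
    apply h (τ'⁻¹ * τ)
    rw [mul_smul, hc', inv_smul_smul]
  exact h3

theorem gdens_ge {e : ℕ} (he : 0 < e) (v : V n) (Q : Prm L) (hQ : MulAction.stabilizer Gal(L/F) Q.asIdeal = ⊥) :
    (1 / (2 * (e : ℝ))) ^ (Nat.card Gal(L/F) * Fintype.card (V n)) / (nm Q : ℝ) ≤
      dcl (JQ F Q) (fun b : V n → 𝓞 L => GEv F e v b Q) := by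
  classical
  have hN2 : (2 : ℝ) ≤ nm Q := by exact_mod_cast two_le_nm Q
  have hN0 : (0 : ℝ) < nm Q := by linarith
  have he' : (1 : ℝ) ≤ e := by exact_mod_cast he
  -- the cells
  let cell : (p : V n × Gal(L/F)) → Set (𝓞 L ⧸ (cj F p.2⁻¹ Q).asIdeal ^ 2) := fun p =>
    if p = (v, 1) then cellA (cj F p.2⁻¹ Q) else cellB e (cj F p.2⁻¹ Q)
  have hfin : ∀ p : V n × Gal(L/F), Finite (𝓞 L ⧸ (cj F p.2⁻¹ Q).asIdeal ^ 2) := fun p => finQ2 _
  have hcf : ∀ p, Finite (cell p) := fun p => Subtype.finite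
  have hJfin : Finite (𝓞 L ⧸ JQ F Q) := by
    rw [← Ideal.absNorm_ne_zero_iff]
    exact (Ideal.absNorm_eq_zero_iff.not).2 (JQ_ne_bot F Q)
  set S : Set (V n → 𝓞 L ⧸ JQ F Q) := {s : V n → 𝓞 L ⧸ JQ F Q | ∃ b : V n → 𝓞 L,
    (∀ w, Ideal.Quotient.mk (JQ F Q) (b w) = s w) ∧ GEv F e v b Q} with hS
  -- representatives
  have hrep : ∀ x : (p : V n × Gal(L/F)) → cell p, ∃ b : V n → 𝓞 L,
      (∀ p : V n × Gal(L/F), Ideal.Quotient.mk ((cj F p.2⁻¹ Q).asIdeal ^ 2) (b p.1) = (x p).1) ∧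
        GEv F e v b Q := by
    intro x
    have h1 : ∀ p : V n × Gal(L/F), ∃ y : 𝓞 L,
        Ideal.Quotient.mk ((cj F p.2⁻¹ Q).asIdeal ^ 2) y = (x p).1 ∧
        (p = (v, 1) → y ∈ (cj F p.2⁻¹ Q).asIdeal ∧ y ∉ (cj F p.2⁻¹ Q).asIdeal ^ 2) ∧
        (p ≠ (v, 1) → y ∉ (cj F p.2⁻¹ Q).asIdeal ∧
          ∃ u : 𝓞 L, y - u ^ e ∈ (cj F p.2⁻¹ Q).asIdeal) := by
      intro p
      by_cases hp : p = (v, 1)
      · have hcell : cell p = cellA (cj F p.2⁻¹ Q) := if_pos hp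
        obtain ⟨y, hy, hy2⟩ := hcell.subset (x p).2
        exact ⟨y, hy, fun _ => hy2, fun hc => absurd hp hc⟩
      · have hcell : cell p = cellB e (cj F p.2⁻¹ Q) := if_neg hp
        obtain ⟨y, hy, hy2⟩ := hcell.subset (x p).2
        exact ⟨y, hy, fun hc => absurd hc hp, fun _ => hy2⟩
    choose y hy hy1 hy2 using h1
    have hcrt : ∀ w : V n, ∃ r : 𝓞 L, ∀ τ : Gal(L/F),
        r - y (w, τ) ∈ (cj F τ⁻¹ Q).asIdeal ^ 2 := by
      intro w
      refine Ideal.exists_forall_sub_mem_ideal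
        (I := fun τ : Gal(L/F) => (cj F τ⁻¹ Q).asIdeal ^ 2) ?_ (fun τ => y (w, τ))
      intro τ τ' hτ
      show IsCoprime ((cj F τ⁻¹ Q).asIdeal ^ 2) ((cj F τ'⁻¹ Q).asIdeal ^ 2)
      refine IsCoprime.pow ?_
      have h1 : (cj F τ⁻¹ Q).asIdeal.IsMaximal := (cj F τ⁻¹ Q).isMaximal
      have h2 : (cj F τ'⁻¹ Q).asIdeal.IsMaximal := (cj F τ'⁻¹ Q).isMaximal
      refine Ideal.isCoprime_of_isMaximal ?_
      intro hc
      have hc' : τ⁻¹ • Q.asIdeal = τ'⁻¹ • Q.asIdeal := hc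
      have h3 : τ' * τ⁻¹ ∈ MulAction.stabilizer Gal(L/F) Q.asIdeal := by
        rw [MulAction.mem_stabilizer_iff, mul_smul, hc', smul_inv_smul]
      rw [hQ, Subgroup.mem_bot] at h3
      exact hτ (mul_inv_eq_one.1 h3).symm
    choose b hb using hcrt
    have hb1 : ∀ w (τ : Gal(L/F)), b w - y (w, τ) ∈ τ⁻¹ • Q.asIdeal := fun w τ =>
      Ideal.pow_le_self two_ne_zero (hb w τ)
    refine ⟨b, fun p => ?_, ?_, ?_, ?_⟩
    · rw [← hy p, Ideal.Quotient.eq]
      exact hb p.1 p.2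
    · have h1 := (hy1 (v, 1) rfl).1
      have h2 := hb1 v 1
      have h3 := (((1 : Gal(L/F))⁻¹ • Q.asIdeal)).add_mem h2 h1
      rw [sub_add_cancel, inv_one, one_smul] at h3
      exact h3
    · intro hc
      apply (hy1 (v, 1) rfl).2
      have h2 := hb v 1
      have h4 : b v ∈ (cj F (1 : Gal(L/F))⁻¹ Q).asIdeal ^ 2 := by
        have h5 : (cj F (1 : Gal(L/F))⁻¹ Q).asIdeal = Q.asIdeal := by
          show (1 : Gal(L/F))⁻¹ • Q.asIdeal = Q.asIdeal
          rw [inv_one, one_smul]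
        rw [h5]; exact hc
      have h3 := ((cj F (1 : Gal(L/F))⁻¹ Q).asIdeal ^ 2).sub_mem h4 h2
      rwa [sub_sub_cancel] at h3
    · intro w τ hw
      have hp : ((w, τ) : V n × Gal(L/F)) ≠ (v, 1) := by
        intro hc
        rw [Prod.mk.injEq] at hc
        rcases hw with hw | hw
        · exact hw hc.1
        · exact hw hc.2
      obtain ⟨h1, u, hu⟩ := hy2 (w, τ) hp
      have h1' : y (w, τ) ∉ τ⁻¹ • Q.asIdeal := h1
      have hu' : y (w, τ) - u ^ e ∈ τ⁻¹ • Q.asIdeal := hu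
      have h2 := hb1 w τ
      constructor
      · intro hc
        apply h1'
        have h3 := (τ⁻¹ • Q.asIdeal).sub_mem (Ideal.mem_inv_pointwise_smul_iff.2 hc) h2
        rwa [sub_sub_cancel] at h3
      · refine ⟨τ • u, ?_⟩
        have h3 := (τ⁻¹ • Q.asIdeal).add_mem h2 hu'
        rw [sub_add_sub_cancel] at h3
        have h4 := Ideal.mem_inv_pointwise_smul_iff.1 h3
        rwa [smul_sub, smul_pow'] at h4
  choose b hb hbE using hrep
  -- the injection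
  let g : ((p : V n × Gal(L/F)) → cell p) → S := fun x =>
    ⟨fun w => Ideal.Quotient.mk (JQ F Q) (b x w), b x, fun w => rfl, hbE x⟩
  have hg : Function.Injective g := by
    intro x x' hxx
    have h1 := congrArg Subtype.val hxx
    funext p
    refine Subtype.ext ?_
    rw [← hb x p, ← hb x' p, Ideal.Quotient.eq]
    have h2 := congrFun h1 p.1
    simp only [g] at h2
    rw [Ideal.Quotient.eq] at h2
    exact JQ_le F Q p.2⁻¹ h2
  have hSfin : Finite S := Subtype.finite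
  have hcard := Nat.card_le_card_of_injective g hg
  rw [Nat.card_pi, Nat.card_coe_set_eq] at hcard
  simp only [Nat.card_coe_set_eq] at hcard
  -- lower bounds for the cells
  have hA : ∀ Q' : Prm L, nm Q' = nm Q → (nm Q : ℝ) / 2 ≤ ((cellA Q').ncard : ℝ) := by
    intro Q' hQ'
    have h1 : ((nm Q - 1 : ℕ) : ℝ) ≤ ((cellA Q').ncard : ℝ) := by
      rw [← hQ']; exact_mod_cast cellA_card Q'
    rw [Nat.cast_sub (by have := two_le_nm Q; omega)] at h1
    push_cast at h1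
    linarith
  have hB : ∀ Q' : Prm L, nm Q' = nm Q →
      (nm Q : ℝ) ^ 2 * (1 / (2 * (e : ℝ))) ≤ ((cellB e Q').ncard : ℝ) := by
    intro Q' hQ'
    have hP : (nm Q : ℝ) / 2 ≤ e * ((powSet e Q').ncard : ℝ) := by
      have h1 : ((nm Q - 1 : ℕ) : ℝ) ≤ ((e * (powSet e Q').ncard : ℕ) : ℝ) := by
        rw [← hQ']; exact_mod_cast powSet_card he Q'
      rw [Nat.cast_sub (by have := two_le_nm Q; omega)] at h1
      push_cast at h1
      linarith
    have h1 : ((nm Q * (powSet e Q').ncard : ℕ) : ℝ) ≤ ((cellB e Q').ncard : ℝ) := by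
      rw [← hQ']; exact_mod_cast cellB_card e Q'
    push_cast at h1
    refine le_trans ?_ h1
    have h2 : (nm Q : ℝ) / (2 * e) ≤ ((powSet e Q').ncard : ℝ) := by
      rw [div_le_iff₀ (by positivity)]
      linarith
    calc (nm Q : ℝ) ^ 2 * (1 / (2 * (e : ℝ))) = nm Q * (nm Q / (2 * e)) := by ring
      _ ≤ nm Q * ((powSet e Q').ncard : ℝ) := mul_le_mul_of_nonneg_left h2 hN0.le
  -- the number of pairs
  obtain ⟨k, hk⟩ : ∃ k, Nat.card Gal(L/F) * Fintype.card (V n) = k + 1 := by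
    have h1 : 0 < Nat.card Gal(L/F) := Nat.card_pos
    have h2 : 0 < Fintype.card (V n) := Fintype.card_pos_iff.2 ⟨v⟩
    exact ⟨Nat.card Gal(L/F) * Fintype.card (V n) - 1, by
      have := Nat.mul_pos h1 h2
      omega⟩
  have hcardP : (Finset.univ.erase ((v, 1) : V n × Gal(L/F))).card = k := by
    rw [Finset.card_erase_of_mem (Finset.mem_univ _), Finset.card_univ, Fintype.card_prod,
      ← Nat.card_eq_fintype_card (α := Gal(L/F)), mul_comm, hk, Nat.add_sub_cancel]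
  have hprod : (1 / (2 * (e : ℝ)) * nm Q) * ((nm Q : ℝ) ^ 2 * (1 / (2 * (e : ℝ)))) ^ k ≤
      ((∏ p : V n × Gal(L/F), (cell p).ncard : ℕ) : ℝ) := by
    rw [← Finset.mul_prod_erase _ _ (Finset.mem_univ ((v, 1) : V n × Gal(L/F)))]
    push_cast
    have h1 : (1 / (2 * (e : ℝ)) * nm Q) ≤ ((cell (v, 1)).ncard : ℝ) := by
      have h2 : cell (v, 1) = cellA (cj F (1 : Gal(L/F))⁻¹ Q) := if_pos rfl
      rw [h2]
      refine le_trans ?_ (hA _ (cj_nm F _ Q))
      have h3 : 1 / (2 * (e : ℝ)) ≤ 1 / 2 := by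
        apply div_le_div_of_nonneg_left (by norm_num) (by norm_num) (by linarith)
      calc 1 / (2 * (e : ℝ)) * nm Q ≤ 1 / 2 * nm Q := mul_le_mul_of_nonneg_right h3 hN0.le
        _ = (nm Q : ℝ) / 2 := by ring
    have h4 : ((nm Q : ℝ) ^ 2 * (1 / (2 * (e : ℝ)))) ^ k ≤
        ∏ p ∈ Finset.univ.erase ((v, 1) : V n × Gal(L/F)), ((cell p).ncard : ℝ) := by
      rw [← hcardP, ← Finset.prod_const]
      refine Finset.prod_le_prod (fun p _ => by positivity) fun p hp => ?_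
      have h2 : cell p = cellB e (cj F p.2⁻¹ Q) := if_neg (Finset.ne_of_mem_erase hp)
      rw [h2]
      exact hB _ (cj_nm F _ Q)
    exact mul_le_mul h1 h4 (by positivity) (Nat.cast_nonneg _)
  have hnorm : (Ideal.absNorm (JQ F Q) : ℝ) = ((nm Q : ℝ) ^ 2) ^ Nat.card Gal(L/F) := by
    unfold JQ
    rw [map_prod]
    have h1 : ∀ τ : Gal(L/F), Ideal.absNorm ((τ • Q.asIdeal) ^ 2) = nm Q ^ 2 := by
      intro τ
      rw [map_pow]
      have h2 : Ideal.absNorm (τ • Q.asIdeal) = nm (cj F τ Q) := rfl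
      rw [h2, cj_nm]
    rw [Finset.prod_congr rfl fun τ _ => h1 τ, Finset.prod_const, Finset.card_univ,
      ← Nat.card_eq_fintype_card]
    push_cast
    rfl
  unfold dcl
  rw [hnorm, ← pow_mul, hk, le_div_iff₀ (by positivity)]
  have hcardR : ((∏ p : V n × Gal(L/F), (cell p).ncard : ℕ) : ℝ) ≤ (S.ncard : ℝ) := by
    exact_mod_cast hcard
  refine le_trans ?_ (hprod.trans hcardR)
  refine le_of_eq ?_
  rw [pow_succ, pow_succ, mul_pow]
  field_simp

end StarkR
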