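import Pool.Agent.Lib.MP_d9bae3_nt.SG.GSum
import Pool.Agent.Lib.MP_d9bae3_nt.SG.GDens
import Pool.Agent.Lib.MP_d9bae3_nt.SK.HouseT

/-!
# Module SRG-GFew: one hundred per cent of the families are `GRich`

Plan.  `few_gev`: with `c = (1/(2e))^(g |V|)`, `good_sum` with `M = max (2k+1) (8/ε) / c` and `gdens_ge` give a set `A` of good primes, not conjugate, with
`∑ dcl ≥ max (2k+1) (8/ε)`; apply `bc` with `κ = Prm L`, `J = JQ F`, `P Q b = GEv F e v b Q` (`gev_congr`, `JQ_coprime`: for `Q ≠ Q'` in `A` no `τ Q = Q'`).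
`grich_all`: as `rich_all` in SK/HouseT.lean (sum over `v`, transfer from `CBox` to `Box`), with `L`, `GRich F`, `few_gev` in place of `F`, `Rich`, `few_ev`: the
proof can be copied (the private lemmas of that file have to be copied, too).
-/

namespace StarkR

open NumberField IsDedekindDomain NFHP Filter Topology
open scoped Pointwise

variable {F L : Type} [Field F] [NumberField F] [Field L] [NumberField L] [Algebra F L]
variable {m : ℕ} {n : Fin m → ℕ} [∀ i, NeZero (n i)]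

theorem few_gev {e : ℕ} (he : 0 < e) {ζ : L} (hζ : IsPrimitiveRoot ζ e) [IsCyclotomicExtension {e} F L] (v : V n)
    (k : ℕ) (ε : ℝ) (hε : 0 < ε) :
    ∀ᶠ R : ℕ in atTop, (Set.ncard {b : V n → 𝓞 L | b ∈ CBox L (V n) R ∧
      ¬ ∃ A : Finset (Prm L), k ≤ A.card ∧ ∀ Q ∈ A, GoodPrm F e Q ∧ GEv F e v b Q} : ℝ) ≤
        ε * ((CBox L (V n) R).ncard : ℝ) := by
  classical
  have he' : (0 : ℝ) < e := by exact_mod_cast he
  set c : ℝ := (1 / (2 * (e : ℝ))) ^ (Nat.card Gal(L/F) * Fintype.card (V n)) with hc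
  have hc0 : 0 < c := by positivity
  obtain ⟨A, hA1, hA2, hA3⟩ := good_sum (F := F) he hζ (max (2 * (k : ℝ) + 1) (8 / ε) / c)
  have hsum : max (2 * (k : ℝ) + 1) (8 / ε) ≤
      ∑ Q ∈ A, dcl (JQ F Q) (fun b : V n → 𝓞 L => GEv F e v b Q) := by
    rw [div_le_iff₀ hc0, Finset.sum_mul] at hA3
    refine hA3.trans (Finset.sum_le_sum fun Q hQ => ?_)
    refine le_trans (le_of_eq ?_) (gdens_ge F he v Q (hA1 Q hQ).2)
    rw [← hc]
    ring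
  have h1 := bc (ι := V n) (JQ F) (JQ_ne_bot F) (fun (Q : Prm L) (b : V n → 𝓞 L) => GEv F e v b Q)
    (fun Q b b' h hb => gev_congr F h hb) k ε hε A
    (fun Q hQ Q' hQ' hne => JQ_coprime F (fun τ h => hne (hA2 Q hQ Q' hQ' τ h))) hsum
  refine h1.mono fun R hR => le_trans ?_ hR
  have h2 : {b : V n → 𝓞 L | b ∈ CBox L (V n) R ∧
      ¬ ∃ A : Finset (Prm L), k ≤ A.card ∧ ∀ Q ∈ A, GoodPrm F e Q ∧ GEv F e v b Q} ⊆
      {b : V n → 𝓞 L | b ∈ CBox L (V n) R ∧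
        ¬ ∃ A' ⊆ A, k ≤ A'.card ∧ ∀ Q ∈ A', GEv F e v b Q} := by
    rintro b ⟨hb, hno⟩
    refine ⟨hb, ?_⟩
    rintro ⟨A', hA', hk, hG⟩
    exact hno ⟨A', hk, fun Q hQ => ⟨hA1 Q (hA' hQ), hG Q hQ⟩⟩
  exact_mod_cast Set.ncard_le_ncard h2 ((CBox_finite R).subset fun b hb => hb.1)

omit [∀ i, NeZero (n i)] in
private theorem ht_sub_cbox (X : ℕ) : Box L n X ⊆ CBox L (V n) ⌈cK L * (X : ℝ)⌉₊ := by
  intro b hb t j
  have h1 : ∀ w : InfinitePlace L, ‖sg w (b t)‖ ≤ (X : ℝ) := fun w => hb t w.embedding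
  exact (crd_le_of_norm_sg h1 j).trans (Nat.le_ceil _)

omit [∀ i, NeZero (n i)] in
private theorem ht_cbox_sub (X : ℕ) : CBox L (V n) ⌊(X : ℝ) / cK L⌋₊ ⊆ Box L n X := by
  intro b hb v φ
  have h1 : ‖sg (InfinitePlace.mk φ) (b v)‖ ≤ cK L * (⌊(X : ℝ) / cK L⌋₊ : ℝ) :=
    norm_sg_le_of_crd (hb v) _
  have h2 : ‖sg (InfinitePlace.mk φ) (b v)‖ = ‖φ (b v : L)‖ :=
    InfinitePlace.norm_embedding_eq (InfinitePlace.mk φ) (b v : L)
  rw [← h2]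
  refine h1.trans ?_
  have hc0 : 0 < cK L := cK_pos
  have h3 : (⌊(X : ℝ) / cK L⌋₊ : ℝ) ≤ (X : ℝ) / cK L :=
    Nat.floor_le (div_nonneg (Nat.cast_nonneg _) hc0.le)
  calc cK L * (⌊(X : ℝ) / cK L⌋₊ : ℝ) ≤ cK L * ((X : ℝ) / cK L) :=
        mul_le_mul_of_nonneg_left h3 hc0.le
    _ = X := by field_simp

/-- the not rich families in the coordinate boxes -/
private theorem ht_not_rich {e : ℕ} (he : 0 < e) {ζ : L} (hζ : IsPrimitiveRoot ζ e) [IsCyclotomicExtension {e} F L] (k : ℕ) (ε : ℝ) (hε : 0 < ε) :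
    ∀ᶠ R : ℕ in atTop, (Set.ncard {b : V n → 𝓞 L | b ∈ CBox L (V n) R ∧ ¬ GRich F e k b} : ℝ) ≤
      ε * ((CBox L (V n) R).ncard : ℝ) := by
  have hV : 0 < Fintype.card (V n) := Fintype.card_pos
  have hV' : (0 : ℝ) < Fintype.card (V n) := by exact_mod_cast hV
  have h1 : ∀ v : V n, ∀ᶠ R : ℕ in atTop, (Set.ncard {b : V n → 𝓞 L | b ∈ CBox L (V n) R ∧
      ¬ ∃ A : Finset (Prm L), k ≤ A.card ∧ ∀ Q ∈ A, GoodPrm F e Q ∧ GEv F e v b Q} : ℝ) ≤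
        (ε / Fintype.card (V n)) * ((CBox L (V n) R).ncard : ℝ) := fun v =>
    few_gev he hζ v k _ (by positivity)
  filter_upwards [eventually_all.2 h1] with R hR
  have h2 : {b : V n → 𝓞 L | b ∈ CBox L (V n) R ∧ ¬ GRich F e k b} ⊆
      ⋃ v : V n, {b : V n → 𝓞 L | b ∈ CBox L (V n) R ∧
        ¬ ∃ A : Finset (Prm L), k ≤ A.card ∧ ∀ Q ∈ A, GoodPrm F e Q ∧ GEv F e v b Q} := by
    rintro b ⟨hb1, hb2⟩
    unfold GRich at hb2
    push Not at hb2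
    obtain ⟨v, _, hv⟩ := hb2
    rw [Set.mem_iUnion]
    refine ⟨v, hb1, ?_⟩
    push Not
    exact hv
  have h3 : (⋃ v : V n, {b : V n → 𝓞 L | b ∈ CBox L (V n) R ∧
        ¬ ∃ A : Finset (Prm L), k ≤ A.card ∧ ∀ Q ∈ A, GoodPrm F e Q ∧ GEv F e v b Q}).Finite :=
    (CBox_finite R).subset (Set.iUnion_subset fun v b hb => hb.1)
  have h4 := (Set.ncard_le_ncard h2 h3).trans (Set.ncard_iUnion_le_of_fintype _)
  calc (Set.ncard {b : V n → 𝓞 L | b ∈ CBox L (V n) R ∧ ¬ GRich F e k b} : ℝ) ≤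
      ((∑ v : V n, Set.ncard {b : V n → 𝓞 L | b ∈ CBox L (V n) R ∧
        ¬ ∃ A : Finset (Prm L), k ≤ A.card ∧ ∀ Q ∈ A, GoodPrm F e Q ∧ GEv F e v b Q} : ℕ) : ℝ) := by
        exact_mod_cast h4
    _ = ∑ v : V n, (Set.ncard {b : V n → 𝓞 L | b ∈ CBox L (V n) R ∧
        ¬ ∃ A : Finset (Prm L), k ≤ A.card ∧ ∀ Q ∈ A, GoodPrm F e Q ∧ GEv F e v b Q} : ℝ) := by
        push_cast
        rfl
    _ ≤ ∑ _v : V n, (ε / Fintype.card (V n)) * ((CBox L (V n) R).ncard : ℝ) :=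
        Finset.sum_le_sum fun v _ => hR v
    _ = ε * ((CBox L (V n) R).ncard : ℝ) := by
        rw [Finset.sum_const, Finset.card_univ, nsmul_eq_mul]
        field_simp

theorem grich_all {e : ℕ} (he : 0 < e) {ζ : L} (hζ : IsPrimitiveRoot ζ e) [IsCyclotomicExtension {e} F L] (k : ℕ) :
    Tendsto (fun X : ℕ => (Set.ncard {b : V n → 𝓞 L | b ∈ Box L n X ∧ GRich F e k b} : ℝ) /
      ((Box L n X).ncard : ℝ)) atTop (𝓝 1) := by
  have hc1 : 1 ≤ cK L := one_le_cK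
  have hc0 : 0 < cK L := cK_pos
  set c := cK L with hc
  set Mx : ℕ := mK L * Fintype.card (V n) with hMx
  set C : ℝ := (2 * c + 3) * c with hC
  have hC0 : 0 < C := by positivity
  have hup : Tendsto (fun X : ℕ => ⌈c * (X : ℝ)⌉₊) atTop atTop :=
    tendsto_nat_ceil_atTop.comp (tendsto_natCast_atTop_atTop.const_mul_atTop hc0)
  have hratio : ∀ X : ℕ, 1 ≤ X →
      (2 * (⌈c * (X : ℝ)⌉₊ : ℝ) + 1) ≤ C * (2 * (⌊(X : ℝ) / c⌋₊ : ℝ) + 1) := by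
    intro X hX
    have hX1 : (1 : ℝ) ≤ X := by exact_mod_cast hX
    have h1 : (⌈c * (X : ℝ)⌉₊ : ℝ) < c * X + 1 := Nat.ceil_lt_add_one (by positivity)
    have h2 : (X : ℝ) / c < (⌊(X : ℝ) / c⌋₊ : ℝ) + 1 := Nat.lt_floor_add_one _
    have h3 : (0 : ℝ) ≤ (⌊(X : ℝ) / c⌋₊ : ℝ) := Nat.cast_nonneg _
    have h4 : (X : ℝ) / c ≤ 2 * (⌊(X : ℝ) / c⌋₊ : ℝ) + 1 := by linarith
    calc 2 * (⌈c * (X : ℝ)⌉₊ : ℝ) + 1 ≤ (2 * c + 3) * X := by nlinarith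
      _ = C * ((X : ℝ) / c) := by
          rw [hC]
          field_simp
      _ ≤ _ := mul_le_mul_of_nonneg_left h4 hC0.le
  have hratio' : ∀ X : ℕ, 1 ≤ X →
      (2 * (⌈c * (X : ℝ)⌉₊ : ℝ) + 1) ^ Mx ≤ C ^ Mx * (2 * (⌊(X : ℝ) / c⌋₊ : ℝ) + 1) ^ Mx := by
    intro X hX
    rw [← mul_pow]
    exact pow_le_pow_left₀ (by positivity) (hratio X hX) _
  have hbox : ∀ R : ℕ, ((CBox L (V n) R).ncard : ℝ) = (2 * (R : ℝ) + 1) ^ Mx := by
    intro R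
    rw [CBox_card]
    push_cast
    rfl
  have hpos : ∀ X : ℕ, (0 : ℝ) < ((Box L n X).ncard : ℝ) := by
    intro X
    exact_mod_cast (Set.ncard_pos (Box_finite X)).2 (Box_nonempty X)
  rw [Metric.tendsto_atTop']
  intro ε hε
  have h0 := hup.eventually (ht_not_rich (F := F) (L := L) (n := n) he hζ k (ε / (2 * C ^ Mx)) (by positivity))
  obtain ⟨N, hN⟩ := eventually_atTop.1 h0
  refine ⟨max N 1, fun X hX => ?_⟩
  have hXN : N ≤ X := (le_max_left _ _).trans hX.le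
  have hX1 : 1 ≤ X := (le_max_right _ _).trans hX.le
  have h1 := hN X hXN
  -- the not rich elements of the box
  have h2 : (Set.ncard {b : V n → 𝓞 L | b ∈ Box L n X ∧ ¬ GRich F e k b} : ℝ) ≤
      ε / 2 * ((Box L n X).ncard : ℝ) := by
    have h3 : (Set.ncard {b : V n → 𝓞 L | b ∈ Box L n X ∧ ¬ GRich F e k b} : ℝ) ≤
        (Set.ncard {b : V n → 𝓞 L | b ∈ CBox L (V n) ⌈c * (X : ℝ)⌉₊ ∧ ¬ GRich F e k b} : ℝ) := by
      have h4 : {b : V n → 𝓞 L | b ∈ Box L n X ∧ ¬ GRich F e k b} ⊆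
          {b : V n → 𝓞 L | b ∈ CBox L (V n) ⌈c * (X : ℝ)⌉₊ ∧ ¬ GRich F e k b} :=
        fun b hb => ⟨ht_sub_cbox X hb.1, hb.2⟩
      exact_mod_cast Set.ncard_le_ncard h4 ((CBox_finite _).subset fun b hb => hb.1)
    have h5 : (2 * (⌊(X : ℝ) / c⌋₊ : ℝ) + 1) ^ Mx ≤ ((Box L n X).ncard : ℝ) := by
      rw [← hbox]
      exact_mod_cast Set.ncard_le_ncard (ht_cbox_sub X) (Box_finite X)
    calc _ ≤ _ := h3
      _ ≤ ε / (2 * C ^ Mx) * ((CBox L (V n) ⌈c * (X : ℝ)⌉₊).ncard : ℝ) := h1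
      _ = ε / (2 * C ^ Mx) * (2 * (⌈c * (X : ℝ)⌉₊ : ℝ) + 1) ^ Mx := by rw [hbox]
      _ ≤ ε / (2 * C ^ Mx) * (C ^ Mx * (2 * (⌊(X : ℝ) / c⌋₊ : ℝ) + 1) ^ Mx) :=
          mul_le_mul_of_nonneg_left (hratio' X hX1) (by positivity)
      _ = ε / 2 * (2 * (⌊(X : ℝ) / c⌋₊ : ℝ) + 1) ^ Mx := by
          field_simp
      _ ≤ ε / 2 * ((Box L n X).ncard : ℝ) := mul_le_mul_of_nonneg_left h5 (by positivity)
  -- complement
  have h6 : (Set.ncard {b : V n → 𝓞 L | b ∈ Box L n X ∧ GRich F e k b} : ℝ) +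
      (Set.ncard {b : V n → 𝓞 L | b ∈ Box L n X ∧ ¬ GRich F e k b} : ℝ) =
      ((Box L n X).ncard : ℝ) := by
    have h7 : {b : V n → 𝓞 L | b ∈ Box L n X ∧ GRich F e k b} ∪
        {b : V n → 𝓞 L | b ∈ Box L n X ∧ ¬ GRich F e k b} = Box L n X := by
      ext b
      simp only [Set.mem_union, Set.mem_ofPred_eq]
      tauto
    have h8 : Disjoint {b : V n → 𝓞 L | b ∈ Box L n X ∧ GRich F e k b}
        {b : V n → 𝓞 L | b ∈ Box L n X ∧ ¬ GRich F e k b} := by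
      rw [Set.disjoint_left]
      exact fun b h9 h10 => h10.2 h9.2
    have h11 := Set.ncard_union_eq h8 ((Box_finite X).subset fun b hb => hb.1)
      ((Box_finite X).subset fun b hb => hb.1)
    rw [h7] at h11
    exact_mod_cast h11.symm
  have hp := hpos X
  rw [Real.dist_eq]
  have h7 : (Set.ncard {b : V n → 𝓞 L | b ∈ Box L n X ∧ GRich F e k b} : ℝ) /
      ((Box L n X).ncard : ℝ) - 1 =
      -((Set.ncard {b : V n → 𝓞 L | b ∈ Box L n X ∧ ¬ GRich F e k b} : ℝ) /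
        ((Box L n X).ncard : ℝ)) := by
    have h8 : (Set.ncard {b : V n → 𝓞 L | b ∈ Box L n X ∧ GRich F e k b} : ℝ) =
        ((Box L n X).ncard : ℝ) -
        (Set.ncard {b : V n → 𝓞 L | b ∈ Box L n X ∧ ¬ GRich F e k b} : ℝ) := by linarith
    rw [h8, sub_div, div_self hp.ne']
    ring
  rw [h7, abs_neg, abs_of_nonneg (by positivity)]
  calc (Set.ncard {b : V n → 𝓞 L | b ∈ Box L n X ∧ ¬ GRich F e k b} : ℝ) /
        ((Box L n X).ncard : ℝ) ≤ ε / 2 := by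
        rw [div_le_iff₀ hp]
        exact h2
    _ < ε := by linarith

end StarkR
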