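import Pool.Agent.Lib.MP_d9bae3_nt.SG.GMain
import Pool.Agent.Lib.MP_d9bae3_nt.SK.Pop
import Pool.Agent.Lib.MP_d9bae3_nt.SK.PopConj

/-!
# Module SRG-GPop: the characters with minimal order of vanishing
-/

namespace StarkR

open NumberField IsDedekindDomain
open scoped Pointwise

variable {F L H M : Type} [Field F] [NumberField F] [Field L] [NumberField L] [Field H] [NumberField H]
variable [Field M] [NumberField M] [Algebra F L] [Algebra F H] [Algebra F M] [Algebra L M] [Algebra H M]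
variable [IsScalarTower F L M] [IsScalarTower F H M]
variable {m : ℕ} {n : Fin m → ℕ} [∀ i, NeZero (n i)]

theorem g_faithful [IsGalois F L] [IsGalois F H] {e : ℕ} {ζ : L} (hζ : IsPrimitiveRoot ζ e) (he : 0 < e)
    {t : Gal(L/F) → ℕ} (ht : IsInvCyc e ζ t) (hn : ∀ i, n i ∣ e)
    {b : V n → 𝓞 L} (hb : GRich F e (0 + Module.finrank ℚ F + 1) b) {α : Fin m → M}
    (h : IsExt (fun v => twist t (b v)) M α) (hc : IsCompositum L H M)
    {Λ : (Gal(H/F) →* ℂˣ) → ℂ → ℂ} (hΛ : ∀ χ, IsLFunction χ (Λ χ)) (S : Finset (Prm F))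
    (hS : ∀ q : Prm F, Ramified H q → q ∈ S) (r : ℕ) (hr : r ≤ splitNumber H S) :
    ∀ χ ∈ GPrime Λ S r, (χ.comp (resLH F L H M)).ker = ⊥ := by
  intro χ hχ
  by_contra hker
  rcases hχ with ⟨-, h2⟩ | ⟨rfl, h2⟩
  · exact order_ne (lst_analytic (hΛ χ).analytic S ∅) (fun k hk =>
      g_van hζ he ht hn hb h hc hker (hΛ χ) S ∅ hS k (by omega)) h2
  · obtain ⟨A, hA1, hA2⟩ := g_set hζ he ht hn hb (grich_mono (by omega) hb) h hc hker
    have h4 := card_S S hS A fun q hq => (hA2 q hq).1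
    have h5 : 0 < Module.finrank ℚ F := Module.finrank_pos
    omega

theorem g_empty [IsGalois F L] [IsGalois F H] {e : ℕ} {ζ : L} (hζ : IsPrimitiveRoot ζ e) (he : 0 < e)
    {t : Gal(L/F) → ℕ} (ht : IsInvCyc e ζ t) (hn : ∀ i, n i ∣ e)
    {b : V n → 𝓞 L} (hb : GRich F e (0 + Module.finrank ℚ F + 1) b) {α : Fin m → M}
    (h : IsExt (fun v => twist t (b v)) M α) (hc : IsCompositum L H M) (hA : ¬ IsCyclic (Multiplicative (V n)))
    {Λ : (Gal(H/F) →* ℂˣ) → ℂ → ℂ} (hΛ : ∀ χ, IsLFunction χ (Λ χ)) (S : Finset (Prm F))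
    (hS : ∀ q : Prm F, Ramified H q → q ∈ S) (r : ℕ) (hr : r ≤ splitNumber H S) : GPrime Λ S r = ∅ := by
  have hgal : IsGalois F M := comp_galois F L H M hc
  have hgalL : IsGalois L M := IsGalois.tower_top_of_isGalois F L M
  have hb1 : Rich e 1 (fun v => twist t (b v)) := grich_rich he hζ ht hn (grich_mono (by omega) hb)
  obtain ⟨f⟩ := gal_iso hζ he hn hb1 h
  have hcyc : ¬ IsCyclic Gal(M/L) := fun h0 => hA (isCyclic_of_surjective f f.surjective)
  rw [Set.eq_empty_iff_forall_notMem]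
  exact fun χ hχ => ker_ne_bot hcyc _ (g_faithful hζ he ht hn hb h hc hΛ S hS r hr χ hχ)

end StarkR
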